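import Mathlib

/-! Syllables in free groups and the Magnus argument with unitriangular matrices. -/

namespace SH

variable {X : Type*}

/-- the product of a list of syllables -/
def sprod (L : List (X × ℤ)) : FreeGroup X := (L.map fun p => FreeGroup.of p.1 ^ p.2).prod

/-- a reduced list of syllables -/
def Redu (L : List (X × ℤ)) : Prop :=
  (∀ p ∈ L, p.2 ≠ 0) ∧ L.IsChain (fun p q => p.1 ≠ q.1)

lemma sprod_cons (p : X × ℤ) (L : List (X × ℤ)) :
    sprod (p :: L) = FreeGroup.of p.1 ^ p.2 * sprod L := by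
  simp [sprod]

lemma redu_mul (x : X) (m : ℤ) (L : List (X × ℤ)) (hL : Redu L) :
    ∃ L' : List (X × ℤ), Redu L' ∧ FreeGroup.of x ^ m * sprod L = sprod L' := by
  classical
  by_cases hm : m = 0
  · exact ⟨L, hL, by simp [hm]⟩
  rcases L with _ | ⟨p, t⟩
  · refine ⟨[(x, m)], ⟨by simpa using hm, by simp⟩, by simp [sprod]⟩
  by_cases hx : x = p.1
  · by_cases hs : m + p.2 = 0
    · refine ⟨t, ⟨fun q hq => hL.1 q (List.mem_cons_of_mem _ hq), hL.2.tail⟩, ?_⟩
      rw [sprod_cons, ← mul_assoc, hx, ← zpow_add, hs, zpow_zero, one_mul]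
    · refine ⟨(p.1, m + p.2) :: t, ⟨?_, ?_⟩, ?_⟩
      · intro q hq
        rcases List.mem_cons.1 hq with rfl | hq
        · exact hs
        · exact hL.1 q (List.mem_cons_of_mem _ hq)
      · have h2 := hL.2
        rcases t with _ | ⟨q, t⟩
        · simp
        · rw [List.isChain_cons_cons] at h2 ⊢
          exact h2
      · rw [sprod_cons, sprod_cons, ← mul_assoc, hx, ← zpow_add]
  · refine ⟨(x, m) :: p :: t, ⟨?_, ?_⟩, ?_⟩
    · intro q hq
      rcases List.mem_cons.1 hq with rfl | hq
      · exact hm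
      · exact hL.1 q hq
    · rw [List.isChain_cons_cons]
      exact ⟨hx, hL.2⟩
    · rw [sprod_cons (x, m)]

lemma exists_redu (ν : FreeGroup X) : ∃ L : List (X × ℤ), Redu L ∧ ν = sprod L := by
  have key : ∀ ν : FreeGroup X, ∀ L : List (X × ℤ), Redu L →
      ∃ L', Redu L' ∧ ν * sprod L = sprod L' := by
    intro ν
    induction ν using FreeGroup.induction_on with
    | C1 => intro L hL; exact ⟨L, hL, one_mul _⟩
    | of x => intro L hL; simpa using redu_mul x 1 L hL
    | inv_of x _ => intro L hL; simpa using redu_mul x (-1) L hL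
    | mul a b ha hb =>
      intro L hL
      obtain ⟨L1, h1, e1⟩ := hb L hL
      obtain ⟨L2, h2, e2⟩ := ha L1 h1
      exact ⟨L2, h2, by rw [mul_assoc, e1, e2]⟩
  obtain ⟨L, h, e⟩ := key ν [] ⟨by simp, by simp⟩
  exact ⟨L, h, by rw [← e]; simp [sprod]⟩

/-- the label of position `i` -/
def lab (L : List (X × ℤ)) (i : ℕ) : Option X := (L[i]?).map Prod.fst

/-- the matrix of a letter: entries one at `(i,i+1)` when the label at `i` is the letter -/
noncomputable def MX (L : List (X × ℤ)) (x : X) :
    Matrix (Fin (L.length + 1)) (Fin (L.length + 1)) ℚ := by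
  classical
  exact fun i j => if (j : ℕ) = i + 1 ∧ lab L i = some x then 1 else 0

lemma MX_mulVec (L : List (X × ℤ)) (x : X) (v : Fin (L.length + 1) → ℚ)
    (i : Fin (L.length + 1)) (hi : (i : ℕ) < L.length) (hx : lab L i = some x) :
    (MX L x).mulVec v i = v ⟨i + 1, by omega⟩ := by
  classical
  unfold MX Matrix.mulVec dotProduct
  rw [Finset.sum_eq_single (⟨i + 1, by omega⟩ : Fin (L.length + 1))]
  · simp [hx]
  · intro b _ hb
    have : ¬ (b : ℕ) = i + 1 := by
      intro h
      exact hb (Fin.ext h)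
    simp [this]
  · intro h
    exact absurd (Finset.mem_univ _) h

lemma MX_mulVec_zero (L : List (X × ℤ)) (x : X) (v : Fin (L.length + 1) → ℚ)
    (i : Fin (L.length + 1)) (h : ∀ j : Fin (L.length + 1), (j : ℕ) = i + 1 → v j = 0) :
    (MX L x).mulVec v i = 0 := by
  classical
  unfold MX Matrix.mulVec dotProduct
  apply Finset.sum_eq_zero
  intro b _
  by_cases hb : (b : ℕ) = i + 1
  · simp [h b hb]
  · simp [hb]

lemma MX_sq (L : List (X × ℤ)) (hL : Redu L) (x : X) : MX L x * MX L x = 0 := by
  classical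
  ext i j
  rw [Matrix.mul_apply]
  apply Finset.sum_eq_zero
  intro k _
  unfold MX
  by_cases h1 : (k : ℕ) = i + 1 ∧ lab L i = some x
  · by_cases h2 : (j : ℕ) = k + 1 ∧ lab L k = some x
    · exfalso
      obtain ⟨hk, hx⟩ := h1
      obtain ⟨hj, hx'⟩ := h2
      have hlt : (k : ℕ) < L.length := by have := j.2; omega
      have hlt' : (i : ℕ) < L.length := by omega
      unfold lab at hx hx'
      rw [List.getElem?_eq_getElem hlt', Option.map_some, Option.some.injEq] at hx
      rw [List.getElem?_eq_getElem hlt, Option.map_some, Option.some.injEq] at hx'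
      have hc := List.isChain_iff_getElem.1 hL.2 i (by omega)
      apply hc
      rw [hx]
      rw [← hx']
      congr 1
      simp only [hk]
    · simp [h2]
  · simp [h1]

lemma unit_zpow {M : Type*} [Ring M] [Algebra ℚ M] (u : Mˣ) (N : M) (hN : N * N = 0)
    (hu : (u : M) = 1 + N) (e : ℤ) : ((u ^ e : Mˣ) : M) = 1 + (e : ℚ) • N := by
  have h1 : ∀ n : ℕ, ((u ^ n : Mˣ) : M) = 1 + (n : ℚ) • N := by
    intro n
    induction n with
    | zero => simp
    | succ n ih =>
      rw [pow_succ, Units.val_mul, ih, hu, mul_add, mul_one, add_mul, smul_mul_assoc, hN]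
      push_cast
      rw [add_smul, one_smul, smul_zero]
      simp [add_assoc]
  have h2 : ∀ n : ℕ, ((u ^ (-(n : ℤ)) : Mˣ) : M) = 1 + ((-(n : ℤ) : ℤ) : ℚ) • N := by
    intro n
    rw [zpow_neg, zpow_natCast]
    apply Units.inv_eq_of_mul_eq_one_right
    rw [h1 n]
    push_cast
    rw [mul_add, mul_one, add_mul, one_mul, smul_mul_smul_comm, hN, smul_zero, neg_smul]
    simp
  obtain ⟨n, rfl | rfl⟩ := e.eq_nat_or_neg
  · rw [zpow_natCast]
    exact_mod_cast h1 n
  · exact h2 n

/-- **Magnus**: a nonempty reduced product of syllables has a nonzero upper right entry -/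
theorem magnus (L : List (X × ℤ)) (hL : Redu L)
    (ρ : FreeGroup X →* (Matrix (Fin (L.length + 1)) (Fin (L.length + 1)) ℚ)ˣ)
    (hρ : ∀ p ∈ L, ((ρ (FreeGroup.of p.1) : (Matrix _ _ ℚ)ˣ) : Matrix _ _ ℚ) = 1 + MX L p.1) :
    ((ρ (sprod L) : (Matrix _ _ ℚ)ˣ) : Matrix (Fin (L.length + 1)) (Fin (L.length + 1)) ℚ)
      0 (Fin.last _) ≠ 0 := by
  classical
  set e : Fin (L.length + 1) → ℚ := Pi.single (Fin.last _) 1 with he
  have key : ∀ m k : ℕ, (hk : k + m = L.length) →
      (∀ i : Fin (L.length + 1), (i : ℕ) < k →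
        ((ρ (sprod (L.drop k)) : (Matrix _ _ ℚ)ˣ) :
          Matrix (Fin (L.length + 1)) (Fin (L.length + 1)) ℚ).mulVec e i = 0) ∧
      ((ρ (sprod (L.drop k)) : (Matrix _ _ ℚ)ˣ) :
          Matrix (Fin (L.length + 1)) (Fin (L.length + 1)) ℚ).mulVec e
            (⟨k, by omega⟩ : Fin (L.length + 1)) ≠ 0 := by
    intro m
    induction m with
    | zero =>
      intro k hk
      have hk' : k = L.length := by omega
      subst hk'
      have h1 : sprod (L.drop L.length) = 1 := by simp [sprod]
      rw [h1, map_one, Units.val_one, Matrix.one_mulVec]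
      constructor
      · intro i hi
        rw [he, Pi.single_apply, if_neg]
        intro h
        rw [h] at hi
        simp at hi
      · rw [he, Pi.single_apply, if_pos]
        · exact one_ne_zero
        · rfl
    | succ m ih =>
      intro k hk
      have hlt : k < L.length := by omega
      obtain ⟨h1, h2⟩ := ih (k + 1) (by omega)
      set w := ((ρ (sprod (L.drop (k + 1))) : (Matrix _ _ ℚ)ˣ) :
        Matrix (Fin (L.length + 1)) (Fin (L.length + 1)) ℚ).mulVec e with hw
      have hd : L.drop k = L[k] :: L.drop (k + 1) := List.drop_eq_getElem_cons hlt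
      have hu := hρ L[k] (List.getElem_mem hlt)
      have hz := unit_zpow _ _ (MX_sq L hL L[k].1) hu L[k].2
      have hval : ((ρ (sprod (L.drop k)) : (Matrix _ _ ℚ)ˣ) :
          Matrix (Fin (L.length + 1)) (Fin (L.length + 1)) ℚ).mulVec e
          = w + (L[k].2 : ℚ) • (MX L L[k].1).mulVec w := by
        rw [hd, sprod_cons, map_mul, map_zpow, Units.val_mul, ← Matrix.mulVec_mulVec, ← hw, hz,
          Matrix.add_mulVec, Matrix.one_mulVec, Matrix.smul_mulVec]
      rw [hval]
      constructor
      · intro i hi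
        rw [Pi.add_apply, Pi.smul_apply, h1 i (by omega), MX_mulVec_zero, smul_zero, add_zero]
        intro j hj
        exact h1 j (by omega)
      · rw [Pi.add_apply, Pi.smul_apply, h1 ⟨k, by omega⟩ (by simp),
          MX_mulVec L L[k].1 w ⟨k, by omega⟩ hlt (by simp [lab, List.getElem?_eq_getElem hlt]),
          zero_add, smul_eq_mul]
        exact mul_ne_zero (by exact_mod_cast hL.1 _ (List.getElem_mem hlt)) h2
  obtain ⟨-, h⟩ := key L.length 0 (by omega)
  rw [List.drop_zero, he, Matrix.mulVec_single_one] at h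
  exact h

end SH
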