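import Pool.Agent.Helper66.SH.Filt

/-! Lemmas on filtered algebras. -/

namespace SH

namespace Filt

variable {E : Type} [Ring E] [Algebra ℚ E] (F : Filt E)

lemma anti' {m n : ℕ} (h : m ≤ n) : F.F n ≤ F.F m := by
  induction h with
  | refl => exact le_rfl
  | step _ ih => exact (F.anti _).trans ih

lemma pow_mem {x : E} (hx : x ∈ F.F 1) (n : ℕ) : x ^ (n + 1) ∈ F.F (n + 1) := by
  induction n with
  | zero => simpa using hx
  | succ n ih =>
    rw [pow_succ]
    exact F.mul _ _ _ _ ih hx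

lemma nil {x : E} (hx : x ∈ F.F 1) : x ^ (F.r + 1) = 0 := by
  have h := F.anti F.r (F.pow_mem hx F.r)
  rw [F.bot] at h
  simpa using h

/-- the group of units congruent to one -/
def U1 : Subgroup Eˣ where
  carrier := {u | (u : E) - 1 ∈ F.F 1}
  mul_mem' := by
    intro a b ha hb
    show ((a * b : Eˣ) : E) - 1 ∈ F.F 1
    have e : ((a * b : Eˣ) : E) - 1 = ((a : E) - 1) * ((b : E) - 1) + ((a : E) - 1) + ((b : E) - 1) := by
      rw [Units.val_mul]; noncomm_ring
    rw [e]
    refine Submodule.add_mem _ (Submodule.add_mem _ ?_ ha) hb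
    exact F.anti 1 (F.mul 1 1 _ _ ha hb)
  one_mem' := by
    show ((1 : Eˣ) : E) - 1 ∈ F.F 1
    rw [Units.val_one, sub_self]
    exact Submodule.zero_mem _
  inv_mem' := by
    intro a ha
    show ((a⁻¹ : Eˣ) : E) - 1 ∈ F.F 1
    have hx : -((a : E) - 1) ∈ F.F 1 := Submodule.neg_mem _ ha
    set x : E := -((a : E) - 1) with hxd
    have hn := F.nil hx
    have hg := mul_neg_geom_sum x (F.r + 1)
    rw [hn, sub_zero] at hg
    have h1 : (1 : E) - x = (a : E) := by rw [hxd]; abel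
    rw [h1] at hg
    have h3 : ((a⁻¹ : Eˣ) : E) = ∑ i ∈ Finset.range (F.r + 1), x ^ i := by
      calc ((a⁻¹ : Eˣ) : E) = ((a⁻¹ : Eˣ) : E) * ((a : E) * ∑ i ∈ Finset.range (F.r + 1), x ^ i) := by
            rw [hg, mul_one]
        _ = _ := by rw [← mul_assoc, Units.inv_mul, one_mul]
    rw [h3, Finset.sum_range_succ', pow_zero, add_sub_cancel_right]
    apply Submodule.sum_mem
    intro i _
    exact F.anti' (by omega) (F.pow_mem hx i)

lemma mem_U1 {u : Eˣ} : u ∈ F.U1 ↔ (u : E) - 1 ∈ F.F 1 := Iff.rfl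

end Filt

end SH
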