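import Pool.Agent.Helper66.SH.Defs
import Pool.Agent.Helper66.SH.FiltL

/-!
# The extension lemma over `ℚ`

For a family `f_j : A_j → G` with `⊕ H₁(A_j) → H₁(G)` injective and `⊕ H₂(A_j) → H₂(G)` surjective,
homomorphisms of the `A_j` into `1 + F₁`, `F` a finite filtration of a `ℚ`-algebra, extend to `G`.
-/

namespace SH

section ext

variable {G : Type*} [Group G] {J : Type*} {A : J → Type*} [∀ j, Group (A j)]
  {f : ∀ j, A j →* G}

/-- additive functions on the `A_j` extend to `G` -/
theorem ext_add (h : Function.Injective (h1sum f)) {V : Type*} [AddCommGroup V] [Module ℚ V]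
    (χ : ∀ j, A j → V) (hχ : ∀ j a b, χ j (a * b) = χ j a + χ j b) :
    ∃ c : G → V, (∀ x y, c (x * y) = c x + c y) ∧ ∀ j a, c (f j a) = χ j a := by
  classical
  have hker : ∀ j (z : C2 (A j)), Finsupp.linearCombination ℚ (χ j) (d2 (A j) z) = 0 := by
    intro j z
    have : (Finsupp.linearCombination ℚ (χ j)).comp (d2 (A j)) = 0 := by
      apply Finsupp.lhom_ext
      rintro ⟨a, b⟩ q
      rw [LinearMap.comp_apply, d2_single, map_smul, map_add, map_sub,
        Finsupp.linearCombination_single, Finsupp.linearCombination_single,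
        Finsupp.linearCombination_single, one_smul, one_smul, one_smul, hχ, LinearMap.zero_apply]
      rw [show χ j b - (χ j a + χ j b) + χ j a = 0 by abel, smul_zero]
    exact LinearMap.congr_fun this z
  let X : (DirectSum J fun j => H1 (A j)) →ₗ[ℚ] V :=
    DirectSum.toModule ℚ J V fun j => lift1 _ (hker j)
  have hk : LinearMap.ker (h1sum f) = ⊥ := by
    rw [eq_bot_iff]
    intro z hz
    rw [LinearMap.mem_ker] at hz
    rw [Submodule.mem_bot]
    apply h
    rw [hz, map_zero]
  obtain ⟨g, hg⟩ := @LinearMap.exists_leftInverse_of_injective ℚ (DirectSum J fun j => H1 (A j))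
    (H1 G) _ _ _ _ _ (h1sum f) hk
  have key : ∀ x y : G, cl1' G (Finsupp.single (x * y) (1 : ℚ)) =
      cl1' G (Finsupp.single x 1) + cl1' G (Finsupp.single y 1) := by
    intro x y
    have h1 : cl1' G (d2 G (Finsupp.single (x, y) 1)) = 0 := cl1'_d2 _
    rw [d2_single, one_smul, map_add, map_sub] at h1
    rw [← sub_eq_zero, ← neg_eq_zero, ← h1]
    abel
  refine ⟨fun x => X (g (cl1' G (Finsupp.single x 1))), ?_, ?_⟩
  · intro x y
    rw [← map_add, ← map_add]
    exact congrArg (fun z => X (g z)) (key x y)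
  · intro j a
    have h1 : cl1' G (Finsupp.single (f j a) 1) =
        h1sum f (DirectSum.lof ℚ J (fun j => H1 (A j)) j
          (cl1' (A j) (Finsupp.single a 1))) := by
      rw [h1sum, DirectSum.toModule_lof, h1_cl, c1_single]
    have h2 : g (h1sum f (DirectSum.lof ℚ J (fun j => H1 (A j)) j
          (cl1' (A j) (Finsupp.single a 1)))) =
        DirectSum.lof ℚ J (fun j => H1 (A j)) j
          (cl1' (A j) (Finsupp.single a 1)) :=
      LinearMap.congr_fun hg _
    have h3 : X (DirectSum.lof ℚ J (fun j => H1 (A j)) j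
          (cl1' (A j) (Finsupp.single a 1))) = χ j a := by
      rw [show X = DirectSum.toModule ℚ J V fun j => lift1 _ (hker j) from rfl,
        DirectSum.toModule_lof, lift1_cl1', Finsupp.linearCombination_single, one_smul]
    change X (g (cl1' G (Finsupp.single (f j a) 1))) = _
    rw [← h3, ← h2, ← h1]

/-- a two-cocycle which is a coboundary on every `A_j` is a coboundary -/
theorem ext_coc (h : Function.Surjective (h2sum f)) {V : Type*} [AddCommGroup V] [Module ℚ V]
    (c : G → G → V) (hc : ∀ x y z, c y z - c (x * y) z + c x (y * z) - c x y = 0)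
    (hj : ∀ j, ∃ u : A j → V, ∀ a b, c (f j a) (f j b) = u b - u (a * b) + u a) :
    ∃ u : G → V, ∀ x y, c x y = u y - u (x * y) + u x := by
  classical
  let L : C2 G →ₗ[ℚ] V := Finsupp.linearCombination ℚ fun p : G × G => c p.1 p.2
  have hL : ∀ x y (q : ℚ), L (Finsupp.single (x, y) q) = q • c x y := fun x y q =>
    Finsupp.linearCombination_single _ _ _
  have hB : ∀ z, L (d3 G z) = 0 := by
    have : L.comp (d3 G) = 0 := by
      apply Finsupp.lhom_ext
      rintro ⟨x, y, z⟩ q
      rw [LinearMap.comp_apply, d3_single, map_smul, map_sub, map_add, map_sub, hL, hL, hL, hL,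
        one_smul, one_smul, one_smul, one_smul, hc, smul_zero, LinearMap.zero_apply]
    exact fun z => LinearMap.congr_fun this z
  have hle : ∀ (z : Z2 G) (w : C3 G), d3 G w = z → (L.comp (Z2 G).subtype) z = 0 := by
    intro z w hw
    rw [LinearMap.comp_apply, Submodule.subtype_apply, ← hw, hB]
  have h0 : (lift2 _ hle).comp (h2sum f) = 0 := by
    refine DirectSum.linearMap_ext ℚ fun j => ?_
    refine LinearMap.ext fun β => ?_
    obtain ⟨z, rfl⟩ := cl2_surj (A j) β
    obtain ⟨u, hu⟩ := hj j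
    have h1 : ∀ z : C2 (A j), L (c2 (f j) z) = Finsupp.linearCombination ℚ u (d2 (A j) z) := by
      have : L.comp (c2 (f j)) = (Finsupp.linearCombination ℚ u).comp (d2 (A j)) := by
        apply Finsupp.lhom_ext
        rintro ⟨a, b⟩ q
        rw [LinearMap.comp_apply, LinearMap.comp_apply, c2_single, hL, d2_single, map_smul,
          map_add, map_sub, Finsupp.linearCombination_single, Finsupp.linearCombination_single,
          Finsupp.linearCombination_single, one_smul, one_smul, one_smul, hu]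
      exact fun z => LinearMap.congr_fun this z
    have h2 : d2 (A j) (z : C2 (A j)) = 0 := z.2
    rw [LinearMap.comp_apply, LinearMap.comp_apply, h2sum, DirectSum.toModule_lof, h2_cl,
      lift2_cl2, LinearMap.comp_apply, LinearMap.comp_apply, LinearMap.zero_apply]
    change L (c2 (f j) (z : C2 (A j))) = 0
    rw [h1, h2, map_zero]
  have h3 : lift2 _ hle = 0 := by
    refine LinearMap.ext fun y => ?_
    obtain ⟨x, rfl⟩ := h y
    exact LinearMap.congr_fun h0 x
  have h4 : LinearMap.ker (d2 G) ≤ LinearMap.ker L := by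
    intro z hz
    have h5 := LinearMap.congr_fun h3 (cl2 G ⟨z, hz⟩)
    rw [lift2_cl2] at h5
    exact h5
  obtain ⟨U, hU⟩ := LinearMap.exists_extend
    (((LinearMap.ker (d2 G)).liftQ L h4).comp
      (LinearMap.quotKerEquivRange (d2 G)).symm.toLinearMap)
  have hU' : ∀ z, U (d2 G z) = L z := by
    intro z
    have h5 := LinearMap.congr_fun hU ⟨d2 G z, ⟨z, rfl⟩⟩
    rw [LinearMap.comp_apply, Submodule.subtype_apply] at h5
    rw [h5, LinearMap.comp_apply]
    have h6 : (LinearMap.quotKerEquivRange (d2 G)).symm ⟨d2 G z, ⟨z, rfl⟩⟩ =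
        (LinearMap.ker (d2 G)).mkQ z :=
      (LinearMap.quotKerEquivRange_symm_apply_image (d2 G) z ⟨z, rfl⟩)
    change ((LinearMap.ker (d2 G)).liftQ L h4) ((LinearMap.quotKerEquivRange (d2 G)).symm _) = _
    rw [h6]
    rfl
  refine ⟨fun x => U (Finsupp.single x 1), fun x y => ?_⟩
  have h7 := hU' (Finsupp.single (x, y) 1)
  rw [hL, one_smul, d2_single, one_smul, map_add, map_sub] at h7
  exact h7.symm

variable {E : Type} [Ring E] [Algebra ℚ E] (F : Filt E)

/-- the extension lemma modulo `F k` -/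
theorem ext_step (hi : Function.Injective (h1sum f)) (hs : Function.Surjective (h2sum f))
    (ψ : ∀ j, A j →* E) (hψ : ∀ j a, ψ j a - 1 ∈ F.F 1) (k : ℕ) :
    ∃ θ : G → E, (∀ x, θ x - 1 ∈ F.F 1) ∧ (∀ x y, θ x * θ y - θ (x * y) ∈ F.F (k + 1)) ∧
      ∀ j a, θ (f j a) - ψ j a ∈ F.F (k + 1) := by
  classical
  induction k with
  | zero =>
    refine ⟨fun _ => 1, fun x => ?_, fun x y => ?_, fun j a => ?_⟩
    · rw [sub_self]; exact Submodule.zero_mem _
    · rw [mul_one, sub_self]; exact Submodule.zero_mem _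
    · have := Submodule.neg_mem _ (hψ j a)
      rwa [neg_sub] at this
  | succ k ih =>
    obtain ⟨θ, h1, h2, h3⟩ := ih
    set Q := (F.F (k + 2)).mkQ with hQ
    have hQ0 : ∀ {x}, Q x = 0 ↔ x ∈ F.F (k + 2) := fun {x} => by
      rw [hQ, Submodule.mkQ_apply, Submodule.Quotient.mk_eq_zero]
    have hr : ∀ {m t}, m ∈ F.F (k + 1) → t - 1 ∈ F.F 1 → Q (m * t) = Q m := by
      intro m t hm ht
      rw [← sub_eq_zero, ← map_sub, hQ0]
      have := F.mul _ _ _ _ hm ht
      rwa [mul_sub, mul_one] at this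
    have hl : ∀ {m t}, m ∈ F.F (k + 1) → t - 1 ∈ F.F 1 → Q (t * m) = Q m := by
      intro m t hm ht
      rw [← sub_eq_zero, ← map_sub, hQ0]
      have := F.mul _ _ _ _ ht hm
      rw [sub_mul, one_mul, show 1 + (k + 1) = k + 2 by omega] at this
      exact this
    have hmm : ∀ {m n}, m ∈ F.F (k + 1) → n ∈ F.F (k + 1) → Q (m * n) = 0 := by
      intro m n hm hn
      rw [hQ0]
      exact F.anti' (by omega) (F.mul _ _ _ _ hm hn)
    have h1k : F.F (k + 1) ≤ F.F 1 := F.anti' (by omega)
    -- the coefficient space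
    set V : Submodule ℚ (E ⧸ F.F (k + 2)) := (F.F (k + 1)).map Q with hV
    have hVm : ∀ {x}, x ∈ F.F (k + 1) → Q x ∈ V := fun {x} hx => ⟨x, hx, rfl⟩
    -- correction of the multiplicativity
    let c : G → G → V := fun x y => ⟨Q (θ x * θ y - θ (x * y)), hVm (h2 x y)⟩
    have hc : ∀ x y z, c y z - c (x * y) z + c x (y * z) - c x y = 0 := by
      intro x y z
      apply Subtype.ext
      change Q (θ y * θ z - θ (y * z)) - Q (θ (x * y) * θ z - θ (x * y * z)) +
        Q (θ x * θ (y * z) - θ (x * (y * z))) - Q (θ x * θ y - θ (x * y)) = 0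
      rw [← hl (h2 y z) (h1 x), ← hr (h2 x y) (h1 z), ← map_sub, ← map_add, ← map_sub, mul_assoc x y z]
      have e : θ x * (θ y * θ z - θ (y * z)) - (θ (x * y) * θ z - θ (x * (y * z))) +
          (θ x * θ (y * z) - θ (x * (y * z))) - (θ x * θ y - θ (x * y)) * θ z = 0 := by
        noncomm_ring
      rw [e, map_zero]
    have hcb : ∀ (η : G → E), (∀ x, η x - 1 ∈ F.F 1) → (∀ j a, η (f j a) - ψ j a ∈ F.F (k + 1)) →
        ∀ j a b, Q (η (f j a) * η (f j b) - η (f j (a * b))) =
          Q (η (f j b) - ψ j b) - Q (η (f j (a * b)) - ψ j (a * b)) + Q (η (f j a) - ψ j a) := by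
      intro η _ hη j a b
      have e : η (f j a) * η (f j b) - η (f j (a * b)) =
          ψ j a * (η (f j b) - ψ j b) - (η (f j (a * b)) - ψ j (a * b)) +
            (η (f j a) - ψ j a) * ψ j b + (η (f j a) - ψ j a) * (η (f j b) - ψ j b) := by
        rw [map_mul (ψ j) a b]
        noncomm_ring
      rw [e, map_add, map_add, map_sub, hl (hη j b) (hψ j a), hr (hη j a) (hψ j b),
        hmm (hη j a) (hη j b), add_zero]
    obtain ⟨u, hu⟩ := ext_coc hs c hc (fun j => ⟨fun a => ⟨Q (θ (f j a) - ψ j a), hVm (h3 j a)⟩,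
      fun a b => by
        apply Subtype.ext
        change Q (θ (f j a) * θ (f j b) - θ (f j a * f j b)) = _
        rw [← map_mul (f j) a b, hcb θ h1 h3 j a b]
        rfl⟩)
    choose v hv hvu using fun x => (u x).2
    have hsub : ∀ (η w : G → E), (∀ x, η x - 1 ∈ F.F 1) → (∀ x, w x ∈ F.F (k + 1)) → ∀ x y,
        Q ((η x - w x) * (η y - w y) - (η (x * y) - w (x * y))) =
          Q (η x * η y - η (x * y)) - (Q (w y) - Q (w (x * y)) + Q (w x)) := by
      intro η w hη hw x y
      have e : (η x - w x) * (η y - w y) - (η (x * y) - w (x * y)) =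
          (η x * η y - η (x * y)) - (η x * w y - w (x * y) + w x * η y) + w x * w y := by
        noncomm_ring
      have eB : Q (η x * w y - w (x * y) + w x * η y) = Q (w y) - Q (w (x * y)) + Q (w x) := by
        rw [map_add, map_sub, hl (hw y) (hη x), hr (hw x) (hη y)]
      rw [e, map_add, map_sub, eB, hmm (hw x) (hw y), add_zero]
    set θ' : G → E := fun x => θ x - v x with hθ'
    have h1' : ∀ x, θ' x - 1 ∈ F.F 1 := by
      intro x
      have e : θ' x - 1 = (θ x - 1) - v x := by simp only [hθ']; abel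
      rw [e]
      exact Submodule.sub_mem _ (h1 x) (h1k (hv x))
    have h2' : ∀ x y, Q (θ' x * θ' y - θ' (x * y)) = 0 := by
      intro x y
      rw [hθ', hsub θ v h1 hv x y, hvu, hvu, hvu, sub_eq_zero]
      exact congrArg Subtype.val (hu x y)
    have h3' : ∀ j a, θ' (f j a) - ψ j a ∈ F.F (k + 1) := by
      intro j a
      have e : θ' (f j a) - ψ j a = (θ (f j a) - ψ j a) - v (f j a) := by simp only [hθ']; abel
      rw [e]
      exact Submodule.sub_mem _ (h3 j a) (hv _)
    -- correction on the `A_j`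
    obtain ⟨c', hc', hc''⟩ := ext_add hi (V := V)
      (fun j a => ⟨Q (θ' (f j a) - ψ j a), hVm (h3' j a)⟩) (by
        intro j a b
        apply Subtype.ext
        change Q (θ' (f j (a * b)) - ψ j (a * b)) = Q (θ' (f j a) - ψ j a) + Q (θ' (f j b) - ψ j b)
        have h4 := hcb θ' h1' h3' j a b
        rw [map_mul (f j) a b, h2'] at h4
        rw [map_mul (f j) a b]
        rw [← sub_eq_zero]
        rw [show Q (θ' (f j a * f j b) - ψ j (a * b)) -
          (Q (θ' (f j a) - ψ j a) + Q (θ' (f j b) - ψ j b)) =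
          -(Q (θ' (f j b) - ψ j b) - Q (θ' (f j a * f j b) - ψ j (a * b)) + Q (θ' (f j a) - ψ j a))
          by abel, ← h4, neg_zero])
    choose w hw hwc using fun x => (c' x).2
    refine ⟨fun x => θ' x - w x, ?_, ?_, ?_⟩
    · intro x
      have e : θ' x - w x - 1 = (θ' x - 1) - w x := by abel
      rw [e]
      exact Submodule.sub_mem _ (h1' x) (h1k (hw x))
    · intro x y
      rw [← hQ0, hsub θ' w h1' hw x y, h2', hwc, hwc, hwc, hc']
      rw [zero_sub, neg_eq_zero]
      change ((c' y : V) : E ⧸ F.F (k + 2)) - ((c' x : E ⧸ F.F (k + 2)) + c' y) + c' x = 0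
      abel
    · intro j a
      rw [← hQ0]
      have e : θ' (f j a) - w (f j a) - ψ j a = (θ' (f j a) - ψ j a) - w (f j a) := by abel
      rw [e, map_sub, hwc, hc'']
      exact sub_self _

/-- **The extension lemma.** -/
theorem ext_hom (hi : Function.Injective (h1sum f)) (hs : Function.Surjective (h2sum f))
    (ψ : ∀ j, A j →* E) (hψ : ∀ j a, ψ j a - 1 ∈ F.F 1) :
    ∃ θ : G →* E, (∀ x, θ x - 1 ∈ F.F 1) ∧ ∀ j a, θ (f j a) = ψ j a := by
  obtain ⟨θ, h1, h2, h3⟩ := ext_step F hi hs ψ hψ F.r
  have h0 : ∀ {x}, x ∈ F.F (F.r + 1) → x = 0 := by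
    intro x hx
    have := F.anti F.r hx
    rw [F.bot] at this
    simpa using this
  have hm : ∀ x y, θ x * θ y = θ (x * y) := fun x y => sub_eq_zero.1 (h0 (h2 x y))
  have hone : θ 1 = 1 := by
    have h4 := hm 1 1
    rw [mul_one] at h4
    have h5 : (1 - θ 1) * (1 - θ 1) = 1 - θ 1 := by
      rw [mul_sub, mul_one, sub_mul, one_mul, h4, sub_self, sub_zero]
    have h6 : (1 - θ 1) ∈ F.F 1 := by
      have := Submodule.neg_mem _ (h1 1)
      rwa [neg_sub] at this
    have h7 : (1 - θ 1) ^ (F.r + 1) = 1 - θ 1 := IsIdempotentElem.pow_succ_eq _ h5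
    rw [F.nil h6] at h7
    exact (sub_eq_zero.1 h7.symm).symm
  exact ⟨⟨⟨θ, hone⟩, fun x y => (hm x y).symm⟩, h1, fun j a => sub_eq_zero.1 (h0 (h3 j a))⟩

/-- **Injectivity.** -/
theorem inj_of_ResUnip (hi : Function.Injective (h1sum f)) (hs : Function.Surjective (h2sum f))
    (hA : ∀ j, ResUnip (A j)) : ∀ j, Function.Injective (f j) := by
  classical
  intro j
  rw [injective_iff_map_eq_one]
  intro a ha
  by_contra hne
  obtain ⟨E, _, _, F, ψ, h1, h2⟩ := hA j a hne
  obtain ⟨θ, _, h3⟩ := ext_hom F hi hs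
    (Function.update (fun j => (1 : A j →* E)) j ψ) (by
      intro i b
      by_cases hij : i = j
      · subst hij
        rw [Function.update_self]
        exact h1 b
      · rw [Function.update_of_ne hij, MonoidHom.one_apply, sub_self]
        exact Submodule.zero_mem _)
  have h4 := h3 j a
  rw [Function.update_self, ha, map_one] at h4
  exact h2 h4.symm

end ext

end SH
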