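import Pool.Agent.Helper66.SH.Pres

/-! Passage to groups of finite index. -/

namespace SH

variable {G : Type*} [Group G]

lemma cob_of_lin_zero {V : Type*} [AddCommGroup V] [Module ℚ V] {c : G → G → V}
    (h : ∀ z ∈ Z2 G, lin c z = 0) : IsCob c := by
  have hle : LinearMap.ker (d2 G) ≤ LinearMap.ker (lin c) := fun z hz => h z hz
  obtain ⟨T, hT⟩ := LinearMap.exists_extend
    (((LinearMap.ker (d2 G)).liftQ (lin c) hle).comp
      ((d2 G).quotKerEquivRange).symm.toLinearMap)
  refine ⟨fun x => T (Finsupp.single x 1), fun x y => ?_⟩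
  have h1 := LinearMap.congr_fun hT ⟨d2 G (Finsupp.single (x, y) 1), ⟨_, rfl⟩⟩
  have h2 : (d2 G).quotKerEquivRange.symm ⟨d2 G (Finsupp.single (x, y) 1), ⟨_, rfl⟩⟩
      = (LinearMap.ker (d2 G)).mkQ (Finsupp.single (x, y) 1) := by
    rw [LinearEquiv.symm_apply_eq]
    rfl
  rw [LinearMap.comp_apply, LinearMap.comp_apply] at h1
  simp only [LinearEquiv.coe_coe] at h1
  rw [h2] at h1
  have h3 : T (d2 G (Finsupp.single (x, y) 1)) = lin c (Finsupp.single (x, y) 1) := h1
  rw [lin_single, one_smul, d2_single, one_smul, map_add, map_sub] at h3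
  exact h3.symm

/-- restriction to a subgroup of finite index detects coboundaries -/
theorem cob_of_finiteIndex (H : Subgroup G) [H.FiniteIndex] (c : G → G → ℚ) (hc : IsCoc c)
    (hH : IsCob fun a b : H => c a b) : IsCob c := by
  obtain ⟨u, hu⟩ := hH
  let E0 : Subgroup (Ex c hc) := H.comap (Ex.pr c hc)
  have hu1 : u 1 = c 1 1 := by
    have := hu 1 1
    simp only [mul_one, OneMemClass.coe_one] at this
    rw [this]
    ring
  let φ : E0 →* Multiplicative ℚ :=
    { toFun := fun a => Multiplicative.ofAdd (a.1.v + u ⟨a.1.g, a.2⟩)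
      map_one' := by
        show Multiplicative.ofAdd (-c 1 1 + u 1) = 1
        rw [hu1, neg_add_cancel, ofAdd_zero]
      map_mul' := by
        intro a b
        show Multiplicative.ofAdd (a.1.v + b.1.v + c a.1.g b.1.g + u (⟨a.1.g, a.2⟩ * ⟨b.1.g, b.2⟩))
          = Multiplicative.ofAdd (a.1.v + u ⟨a.1.g, a.2⟩ + (b.1.v + u ⟨b.1.g, b.2⟩))
        have := hu ⟨a.1.g, a.2⟩ ⟨b.1.g, b.2⟩
        simp only at this
        rw [this]
        congr 1
        ring }
  have hsurj : Function.Surjective (Ex.pr c hc) := fun g => ⟨⟨0, g⟩, rfl⟩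
  have hidx : E0.index = H.index := Subgroup.index_comap_of_surjective _ hsurj
  have hn : H.index ≠ 0 := Subgroup.FiniteIndex.index_ne_zero
  haveI : E0.FiniteIndex := ⟨by rw [hidx]; exact hn⟩
  let τ : Ex c hc →* Multiplicative ℚ := MonoidHom.transfer φ
  have hτ : ∀ v : Multiplicative ℚ, τ (zc c hc v) = v ^ H.index := by
    intro v
    have hpow : ∀ k : ℕ, (zc c hc v) ^ k = zc c hc (v ^ k) := fun k => (map_pow _ _ _).symm
    have h1 := MonoidHom.transfer_eq_pow φ (zc c hc v) (by
      intro k g0 _
      rw [hpow, ← zc_comm, inv_mul_cancel_right])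
    rw [show τ (zc c hc v) = _ from h1]
    have h2 : ((zc c hc v) ^ E0.index : Ex c hc) = zc c hc (v ^ H.index) := by
      rw [hpow, hidx]
    show Multiplicative.ofAdd (((zc c hc v) ^ E0.index : Ex c hc).v
      + u ⟨((zc c hc v) ^ E0.index : Ex c hc).g, _⟩) = _
    have h3 : ∀ (a : Ex c hc) (ha : a.g ∈ H), a = zc c hc (v ^ H.index) →
        Multiplicative.ofAdd (a.v + u ⟨a.g, ha⟩) = v ^ H.index := by
      rintro a ha rfl
      have : (⟨(zc c hc (v ^ H.index)).g, ha⟩ : H) = 1 := rfl
      rw [this, hu1, zc_v]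
      rw [show -c 1 1 + Multiplicative.toAdd (v ^ H.index) + c 1 1
        = Multiplicative.toAdd (v ^ H.index) by ring]
      rfl
    exact h3 _ _ h2
  let lam : Ex c hc →* Multiplicative ℚ :=
    { toFun := fun a => Multiplicative.ofAdd (-(Multiplicative.toAdd (τ a)) / H.index)
      map_one' := by
        rw [map_one]
        simp
      map_mul' := by
        intro a b
        rw [map_mul, toAdd_mul, ← ofAdd_add]
        congr 1
        ring }
  have hR : ∀ v : Multiplicative ℚ, twist (MonoidHom.id _) lam (zc c hc v) = 1 := by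
    intro v
    rw [twist_apply, MonoidHom.id_apply, ← map_mul]
    have : v * lam (zc c hc v) = 1 := by
      show v * Multiplicative.ofAdd (-(Multiplicative.toAdd (τ (zc c hc v))) / H.index) = 1
      rw [hτ]
      apply Multiplicative.toAdd.injective
      rw [toAdd_mul, toAdd_ofAdd, toAdd_pow, toAdd_one, nsmul_eq_mul]
      have : (H.index : ℚ) ≠ 0 := by exact_mod_cast hn
      field_simp
      ring
    rw [this, map_one]
  let σ : G →* Ex c hc :=
    { toFun := fun g => twist (MonoidHom.id _) lam ⟨0, g⟩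
      map_one' := by
        rw [eq_zc (⟨0, 1⟩ : Ex c hc) rfl]
        exact hR _
      map_mul' := by
        intro a b
        rw [← map_mul]
        have e : ((⟨0, a⟩ : Ex c hc) * ⟨0, b⟩)
            = ⟨0, a * b⟩ * zc c hc (Multiplicative.ofAdd (c a b)) := by
          apply Ex.ext
          · simp only [Ex.mul_v, Ex.mul_g, zc_v, zc_g, hc.one_right, toAdd_ofAdd]
            ring
          · simp
        rw [e, map_mul, hR, mul_one] }
  apply cob_of_section σ
  intro g
  show (twist (MonoidHom.id _) lam (⟨0, g⟩ : Ex c hc)).g = g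
  rw [twist_apply]
  simp

/-- second homology of a subgroup of finite index maps onto that of the group -/
theorem h2_finiteIndex_surj (H : Subgroup G) [H.FiniteIndex] :
    Function.Surjective (h2 H.subtype) := by
  have h : Submodule.span ℚ ((LinearMap.range (h2 H.subtype) : Submodule ℚ (H2 G)) : Set (H2 G)) = ⊤ := by
    apply span_of_dual
    intro c hc h
    apply cob_of_finiteIndex H c hc
    apply cob_of_lin_zero
    intro z hz
    have h1 := h (z2 H.subtype ⟨z, hz⟩) ⟨cl2 H ⟨z, hz⟩, rfl⟩
    rw [z2_val] at h1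
    have h2 : (lin c).comp (c2 H.subtype) = lin (fun a b : H => c a b) := by
      apply Finsupp.lhom_ext
      rintro ⟨g, k⟩ q
      rw [LinearMap.comp_apply, c2_single, lin_single, lin_single]
      rfl
    rw [← h2]
    exact h1
  rw [Submodule.span_eq] at h
  exact LinearMap.range_eq_top.1 h

/-- Q1 passes from a subgroup of finite index to the group -/
theorem Q1_of_finiteIndex (H : Subgroup G) [H.FiniteIndex] (hQ : Q1 H) : Q1 G := by
  intro α
  obtain ⟨β, rfl⟩ := h2_finiteIndex_surj H α
  exact virtRep_map H.subtype H.subtype_injective (hQ β)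

end SH
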