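import Pool.Agent.Helper66.SH.Mat
import Pool.Agent.Helper66.SH.FiltL

/-! Operators on vectors of polynomial functions. -/

namespace SH

/-- vectors of polynomial functions of weight `≥ w` -/
def MM (Λ l : ℕ) (w : ℤ) : Submodule ℚ (ℤ → Fin (l + 1) → ℚ) where
  carrier := {v | ∀ k : Fin (l + 1),
    (fun τ => v τ k) ∈ P ((Λ : ℤ) * ((l : ℤ) - ((k : ℕ) : ℤ)) - w)}
  add_mem' := by
    intro a b ha hb k
    exact Submodule.add_mem _ (ha k) (hb k)
  zero_mem' := by
    intro k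
    exact Submodule.zero_mem _
  smul_mem' := by
    intro c x hx k
    exact Submodule.smul_mem _ c (hx k)

variable {Λ l : ℕ}

lemma MM_anti {w w' : ℤ} (h : w ≤ w') : MM Λ l w' ≤ MM Λ l w := by
  intro v hv k
  exact P_mono (by linarith) (hv k)

lemma MM_eq_zero {w : ℤ} (hw : (Λ : ℤ) * l < w) {v : ℤ → Fin (l + 1) → ℚ}
    (h : v ∈ MM Λ l w) : v = 0 := by
  funext τ k
  have := P_neg ?_ (h k)
  · exact congrFun this τ
  · have h1 : (l : ℤ) - ((k : ℕ) : ℤ) ≤ l := by omega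
    have h2 : (Λ : ℤ) * ((l : ℤ) - ((k : ℕ) : ℤ)) ≤ (Λ : ℤ) * l :=
      mul_le_mul_of_nonneg_left h1 (by positivity)
    linarith

lemma mulVec_mem {s w : ℤ} {T : RM l} {v : ℤ → Fin (l + 1) → ℚ} (hT : T ∈ AA Λ l s)
    (hv : v ∈ MM Λ l w) : (fun τ => (T τ).mulVec (v τ)) ∈ MM Λ l (w + s) := by
  intro k
  have e : (fun τ => (T τ).mulVec (v τ) k)
      = ∑ k' : Fin (l + 1), (fun τ => T τ k k') * (fun τ => v τ k') := by
    funext τ
    simp [Matrix.mulVec, dotProduct]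
  rw [e]
  apply Submodule.sum_mem
  intro k' _
  have := P_mul (hT k k') (hv k')
  refine P_mono (le_of_eq ?_) this
  ring

lemma shift_mem {w : ℤ} (c : ℤ) {v : ℤ → Fin (l + 1) → ℚ} (hv : v ∈ MM Λ l w) :
    (fun τ => v (τ + c)) ∈ MM Λ l w := by
  intro k
  exact P_shift c (hv k)

/-- the algebra of endomorphisms -/
abbrev EE (Λ l : ℕ) : Type := Module.End ℚ (MM Λ l 0)

/-- its filtration by weight -/
def FE (Λ l : ℕ) : Filt (EE Λ l) where
  F s :=
    { carrier := {T | ∀ (w : ℕ) (v : MM Λ l 0), (v : ℤ → Fin (l + 1) → ℚ) ∈ MM Λ l w →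
        ((T v : MM Λ l 0) : ℤ → Fin (l + 1) → ℚ) ∈ MM Λ l (w + s)}
      add_mem' := by
        intro a b ha hb w v hv
        exact Submodule.add_mem _ (ha w v hv) (hb w v hv)
      zero_mem' := by
        intro w v _
        exact Submodule.zero_mem _
      smul_mem' := by
        intro c x hx w v hv
        exact Submodule.smul_mem _ c (hx w v hv) }
  r := Λ * l + 1
  anti := by
    intro k T hT w v hv
    exact MM_anti (by push_cast; linarith) (hT w v hv)
  mul := by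
    intro i j x y hx hy w v hv
    have h1 := hy w v hv
    have h2 := hx (w + j) (y v) (by push_cast; exact h1)
    refine MM_anti (le_of_eq ?_) h2
    push_cast
    ring
  bot := by
    rw [eq_bot_iff]
    intro T hT
    rw [Submodule.mem_bot]
    apply LinearMap.ext
    intro v
    apply Subtype.ext
    have := hT 0 v (by simp)
    exact MM_eq_zero (by push_cast; linarith) this

lemma mem_FE {s : ℕ} {T : EE Λ l} : T ∈ (FE Λ l).F s ↔
    ∀ (w : ℕ) (v : MM Λ l 0), (v : ℤ → Fin (l + 1) → ℚ) ∈ MM Λ l w →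
        ((T v : MM Λ l 0) : ℤ → Fin (l + 1) → ℚ) ∈ MM Λ l (w + s) := Iff.rfl

lemma vl_mem_zero {s : ℤ} {hs : 1 ≤ s} {u : GM l} (hu : u ∈ GG Λ l s hs) : vl u ∈ AA Λ l 0 := by
  have e : vl u = (vl u - 1) + 1 := by abel
  rw [e]
  exact Submodule.add_mem _ (AA_anti (by linarith) hu) AA_one

/-- pointwise multiplication by an element of `1 + AA 1` -/
def op (Λ l : ℕ) : GG Λ l 1 le_rfl →* EE Λ l where
  toFun u :=
    { toFun := fun v => ⟨fun τ => (vl u.1 τ).mulVec (v.1 τ), by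
        have := mulVec_mem (vl_mem_zero u.2) v.2
        simpa using this⟩
      map_add' := by
        intro v w
        apply Subtype.ext
        funext τ
        exact Matrix.mulVec_add (vl u.1 τ) (v.1 τ) (w.1 τ)
      map_smul' := by
        intro c v
        apply Subtype.ext
        funext τ
        exact Matrix.mulVec_smul (vl u.1 τ) c (v.1 τ) }
  map_one' := by
    apply LinearMap.ext
    intro v
    apply Subtype.ext
    funext τ
    exact Matrix.one_mulVec _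
  map_mul' := by
    intro u u'
    apply LinearMap.ext
    intro v
    apply Subtype.ext
    funext τ
    show ((vl u.1 τ) * (vl u'.1 τ)).mulVec (v.1 τ) = _
    rw [← Matrix.mulVec_mulVec]
    rfl

lemma op_val (u : GG Λ l 1 le_rfl) (v : MM Λ l 0) (τ : ℤ) :
    ((op Λ l u v : MM Λ l 0) : ℤ → Fin (l + 1) → ℚ) τ = (vl u.1 τ).mulVec (v.1 τ) := rfl

/-- as a map to units -/
def opU (Λ l : ℕ) : GG Λ l 1 le_rfl →* (EE Λ l)ˣ := (op Λ l).toHomUnits

lemma opU_val (u : GG Λ l 1 le_rfl) : ((opU Λ l u : (EE Λ l)ˣ) : EE Λ l) = op Λ l u := rfl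

lemma opU_mem (u : GG Λ l 1 le_rfl) : opU Λ l u ∈ (FE Λ l).U1 := by
  rw [Filt.mem_U1, opU_val, mem_FE]
  intro w v hv
  have h := mulVec_mem (mem_GG.1 u.2) hv
  have e : (((op Λ l u - 1) v : MM Λ l 0) : ℤ → Fin (l + 1) → ℚ)
      = fun τ => ((vl u.1 - 1) τ).mulVec (v.1 τ) := by
    funext τ
    show (vl u.1 τ).mulVec (v.1 τ) - v.1 τ = _
    rw [Pi.sub_apply, Matrix.sub_mulVec]
    simp
  rw [e]
  exact_mod_cast h

/-- shift operator -/
def shE (Λ l : ℕ) (c : ℤ) : EE Λ l where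
  toFun v := ⟨fun τ => v.1 (τ + c), shift_mem c v.2⟩
  map_add' _ _ := rfl
  map_smul' _ _ := rfl

lemma shE_val (c : ℤ) (v : MM Λ l 0) (τ : ℤ) :
    ((shE Λ l c v : MM Λ l 0) : ℤ → Fin (l + 1) → ℚ) τ = v.1 (τ + c) := rfl

/-- the unit given by the shift by one -/
def BE (Λ l : ℕ) : (EE Λ l)ˣ where
  val := shE Λ l 1
  inv := shE Λ l (-1)
  val_inv := by
    apply LinearMap.ext
    intro v
    apply Subtype.ext
    funext τ
    show v.1 (τ + 1 + -1) = v.1 τ
    rw [show τ + 1 + -1 = τ by ring]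
  inv_val := by
    apply LinearMap.ext
    intro v
    apply Subtype.ext
    funext τ
    show v.1 (τ + -1 + 1) = v.1 τ
    rw [show τ + -1 + 1 = τ by ring]

lemma BE_mem : BE Λ l ∈ (FE Λ l).U1 := by
  rw [Filt.mem_U1, mem_FE]
  intro w v hv k
  have e : (fun τ => ((((BE Λ l : (EE Λ l)ˣ) : EE Λ l) - 1) v : MM Λ l 0).1 τ k)
      = dl (fun τ => v.1 τ k) := by
    funext τ
    rfl
  rw [e]
  have := P_dl (hv k)
  refine P_mono (le_of_eq ?_) this
  push_cast
  ring

lemma BE_conj (u : GG Λ l 1 le_rfl) :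
    BE Λ l * opU Λ l u * (BE Λ l)⁻¹ = opU Λ l ⟨sh 1 u.1, sh_mem 1 u.2⟩ := by
  rw [mul_inv_eq_iff_eq_mul]
  apply Units.ext
  apply LinearMap.ext
  intro v
  apply Subtype.ext
  funext τ
  rfl

end SH
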