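import Pool.Agent.Helper66.SH.Norm
import Pool.Agent.Helper66.SH.Syl
import Pool.Agent.Helper66.SH.Op

/-! Surface groups are residually unipotent. -/

namespace SH

section ab

/-- detection by a homomorphism to `ℤ` -/
lemma detect_ab {A : Type*} [Group A] (χ : A →* Multiplicative ℤ) (a : A) (ha : χ a ≠ 1) :
    ∃ (E : Type) (_ : Ring E) (_ : Algebra ℚ E) (F : Filt E) (ψ : A →* E),
    (∀ x, ψ x - 1 ∈ F.F 1) ∧ ψ a ≠ 1 := by
  let K : Submodule ℚ (TrivSqZeroExt ℚ ℚ) :=
    { carrier := {x | x.fst = 0}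
      add_mem' := by
        intro a b ha hb
        show (a + b).fst = 0
        rw [TrivSqZeroExt.fst_add, show a.fst = 0 from ha, show b.fst = 0 from hb, add_zero]
      zero_mem' := rfl
      smul_mem' := by
        intro c x hx
        show (c • x).fst = 0
        rw [TrivSqZeroExt.fst_smul, show x.fst = 0 from hx, smul_zero] }
  have hK : ∀ x, x ∈ K → ∀ y, y ∈ K → x * y = 0 := by
    intro x hx y hy
    have hx' : x.fst = 0 := hx
    have hy' : y.fst = 0 := hy
    apply TrivSqZeroExt.ext <;> simp [hx', hy']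
  let F : Filt (TrivSqZeroExt ℚ ℚ) :=
    { F := fun k => if k ≤ 1 then K else ⊥
      r := 2
      anti := by
        intro k
        by_cases h : k + 1 ≤ 1
        · rw [if_pos h, if_pos (by omega)]
        · rw [if_neg h]
          exact bot_le
      mul := by
        intro i j x y hx hy
        have h1 : x ∈ K := by
          by_cases h : i ≤ 1
          · rwa [if_pos h] at hx
          · rw [if_neg h, Submodule.mem_bot] at hx
            rw [hx]; exact K.zero_mem
        have h2 : y ∈ K := by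
          by_cases h : j ≤ 1
          · rwa [if_pos h] at hy
          · rw [if_neg h, Submodule.mem_bot] at hy
            rw [hy]; exact K.zero_mem
        rw [hK x h1 y h2]
        exact Submodule.zero_mem _
      bot := by simp }
  let ψ : A →* TrivSqZeroExt ℚ ℚ :=
    { toFun := fun x => 1 + TrivSqZeroExt.inr ((Multiplicative.toAdd (χ x) : ℤ) : ℚ)
      map_one' := by simp
      map_mul' := by
        intro x y
        apply TrivSqZeroExt.ext
        · simp
        · simp [add_comm] }
  refine ⟨TrivSqZeroExt ℚ ℚ, inferInstance, inferInstance, F, ψ, ?_, ?_⟩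
  · intro x
    show _ ∈ (if 1 ≤ 1 then K else ⊥)
    rw [if_pos le_rfl]
    show (ψ x - 1).fst = 0
    simp [ψ]
  · intro h
    apply ha
    have h2 : (TrivSqZeroExt.inr ((Multiplicative.toAdd (χ a) : ℤ) : ℚ) : TrivSqZeroExt ℚ ℚ) = 0 := by
      have : (1 : TrivSqZeroExt ℚ ℚ) + TrivSqZeroExt.inr ((Multiplicative.toAdd (χ a) : ℤ) : ℚ) = 1 := h
      simpa using this
    have h3 : ((Multiplicative.toAdd (χ a) : ℤ) : ℚ) = 0 := by
      have := congrArg TrivSqZeroExt.snd h2
      simpa using this
    have h4 : Multiplicative.toAdd (χ a) = 0 := by exact_mod_cast h3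
    exact toAdd_eq_zero.1 h4

end ab

lemma cprod_comm {G : Type*} [CommGroup G] {g : ℕ} (x y : Fin g → G) : cprod x y = 1 := by
  unfold cprod
  apply List.prod_eq_one
  intro z hz
  rw [List.mem_ofFn] at hz
  obtain ⟨i, rfl⟩ := hz
  rw [cm, mul_comm (x i) (y i)]
  simp

/-- exponent of `b₀` -/
def bexp (g : ℕ) : SurfGrp (g + 1) →* Multiplicative ℤ :=
  PresentedGroup.toGroup (f := fun p : Fin (g + 1) × Bool =>
    if p = (0, false) then Multiplicative.ofAdd 1 else 1) (by
    intro r hr
    rw [Set.mem_singleton_iff] at hr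
    rw [hr]
    unfold srel
    rw [map_cprod]
    exact cprod_comm _ _)

lemma bexp_b (g : ℕ) : bexp g (sb g) = Multiplicative.ofAdd 1 := by
  unfold bexp sb
  rw [PresentedGroup.toGroup.of]
  simp

lemma bexp_io (g : ℕ) (ν : FreeGroup (XX g)) : bexp g (io g ν) = 1 := by
  have h : (bexp g).comp (io g) = 1 := by
    apply FreeGroup.ext_hom
    rintro (_ | ⟨j, s⟩)
    · rw [MonoidHom.comp_apply, io_none]
      unfold bexp sa
      rw [PresentedGroup.toGroup.of]
      simp
    · rw [MonoidHom.comp_apply, io_some, map_mul, map_mul, map_inv, mul_comm, inv_mul_cancel_left]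
      unfold bexp sx
      rw [PresentedGroup.toGroup.of]
      simp [Prod.ext_iff, Fin.succ_ne_zero]
  exact DFunLike.congr_fun h ν

section rep

variable {g : ℕ} (L : List (XX g × ℤ))

/-- the levels occurring in the word -/
def lev : Finset ℤ := (L.map fun p => match p.1 with
  | none => (0 : ℤ)
  | some q => q.2).toFinset

lemma mem_lev {j : Fin g × Bool} {s e : ℤ} (h : (some (j, s), e) ∈ L) : s ∈ lev L := by
  unfold lev
  rw [List.mem_toFinset, List.mem_map]
  exact ⟨_, h, rfl⟩

/-- the weight of one step -/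
abbrev Lam : ℕ := (lev L).card + 2

/-- interpolated coefficient -/
noncomputable def coef (j : Fin g × Bool) (i : ℕ) : ℤ → ℚ := match lab L i with
  | some (some (j', s)) => if j' = j then interp (lev L) s else 0
  | _ => 0

lemma coef_mem (j : Fin g × Bool) (i : ℕ) : coef L j i ∈ P ((lev L).card : ℤ) := by
  unfold coef
  split
  · split_ifs
    · exact interp_mem _ _
    · exact Submodule.zero_mem _
  · exact Submodule.zero_mem _

/-- the strictly triangular part of the matrix of a generator -/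
noncomputable def XM (j : Fin g × Bool) : RM L.length :=
  fun τ i i' => if (i' : ℕ) = i + 1 then coef L j i τ else 0

lemma XM_mem (j : Fin g × Bool) : XM L j ∈ AA (Lam L) L.length 2 := by
  intro k k'
  by_cases h : (k' : ℕ) = k + 1
  · have e : (fun τ => XM L j τ k k') = coef L j k := by
      funext τ
      simp [XM, h]
    rw [e]
    refine P_mono (le_of_eq ?_) (coef_mem L j k)
    rw [h]
    push_cast
    ring
  · have e : (fun τ => XM L j τ k k') = 0 := by
      funext τ
      simp [XM, h]
    rw [e]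
    exact Submodule.zero_mem _

lemma MX_mem (x : XX g) : (fun _ => MX L x : RM L.length) ∈ AA (Lam L) L.length 1 := by
  intro k k'
  by_cases h : (k' : ℕ) = k + 1
  · refine P_mono ?_ (P_const (MX L x k k'))
    rw [h]
    push_cast
    ring_nf
    positivity
  · have e : (fun τ : ℤ => (fun _ => MX L x : RM L.length) τ k k') = 0 := by
      funext τ
      simp [MX, h]
    rw [e]
    exact Submodule.zero_mem _

lemma isUnit_of_AA {s : ℤ} (hs : 1 ≤ s) {Λ l : ℕ} {T : RM l} (h : T ∈ AA Λ l s) (τ : ℤ) :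
    IsUnit (1 + T τ) := by
  apply IsNilpotent.isUnit_one_add
  refine ⟨Λ * l + 1, ?_⟩
  have := congrFun (AA_nil hs h) τ
  exact this

/-- the matrix of a generator -/
noncomputable def uX (j : Fin g × Bool) : GM L.length :=
  fun τ => (isUnit_of_AA (by norm_num) (XM_mem L j) τ).unit

lemma vl_uX (j : Fin g × Bool) : vl (uX L j) = 1 + XM L j := rfl

lemma uX_mem (j : Fin g × Bool) : uX L j ∈ GG (Lam L) L.length 2 (by norm_num) := by
  rw [mem_GG, vl_uX, add_sub_cancel_left]
  exact XM_mem L j

/-- the matrix of the product of commutators -/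
noncomputable def CC : GM L.length := cprod (fun i : Fin g => uX L (i, true)) (fun i => uX L (i, false))

lemma CC_mem : CC L ∈ GG (Lam L) L.length 2 (by norm_num) := by
  unfold CC cprod
  apply Subgroup.list_prod_mem
  intro z hz
  rw [List.mem_ofFn] at hz
  obtain ⟨i, rfl⟩ := hz
  exact Subgroup.mul_mem _ (Subgroup.mul_mem _ (Subgroup.mul_mem _ (uX_mem L _) (uX_mem L _))
    (Subgroup.inv_mem _ (uX_mem L _))) (Subgroup.inv_mem _ (uX_mem L _))

/-- the matrix of `a₀` at level `0` -/
noncomputable def R0 : (Matrix (Fin (L.length + 1)) (Fin (L.length + 1)) ℚ)ˣ :=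
  (isUnit_of_AA le_rfl (MX_mem L none) 0).unit

lemma R0_val : ((R0 L : (Matrix _ _ ℚ)ˣ) : Matrix _ _ ℚ) = 1 + MX L none := rfl

/-- the matrix of `a₀` -/
noncomputable def RR : GM L.length := (exists_rec (CC L) (R0 L)).choose

lemma RR_zero : RR L 0 = R0 L := (exists_rec (CC L) (R0 L)).choose_spec.1

lemma RR_rec (τ : ℤ) : RR L (τ + 1) = CC L τ * RR L τ :=
  (exists_rec (CC L) (R0 L)).choose_spec.2 τ

lemma RR_mem : RR L ∈ GG (Lam L) L.length 1 le_rfl := by
  apply rec_mem (CC_mem L) _ _ (RR_rec L)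
  · intro k k' h
    rw [RR_zero, R0_val, Matrix.add_apply]
    have : ¬ ((k' : ℕ) = k + 1) := by
      have : (k' : ℕ) ≤ k := h
      omega
    simp [MX, this]
  · show 1 ≤ (lev L).card + 2
    omega

lemma sh_RR : sh 1 (RR L) = CC L * RR L := by
  funext τ
  exact RR_rec L τ

lemma GG_le {Λ l : ℕ} : GG Λ l 2 (by norm_num) ≤ GG Λ l 1 le_rfl := by
  intro u hu
  rw [mem_GG] at hu ⊢
  exact AA_anti (by norm_num) hu

/-- elements of the group `1 + AA 1` -/
noncomputable def uX' (j : Fin g × Bool) : GG (Lam L) L.length 1 le_rfl := ⟨uX L j, GG_le (uX_mem L j)⟩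

/-- the element given by `a₀` -/
noncomputable def RR' : GG (Lam L) L.length 1 le_rfl := ⟨RR L, RR_mem L⟩

lemma sh_RR' : (⟨sh 1 (RR' L).1, sh_mem 1 (RR' L).2⟩ : GG (Lam L) L.length 1 le_rfl)
    = cprod (fun i => uX' L (i, true)) (fun i => uX' L (i, false)) * RR' L := by
  apply Subtype.ext
  show sh 1 (RR L) = _
  rw [sh_RR]
  show _ = (GG (Lam L) L.length 1 le_rfl).subtype
    (cprod (fun i => uX' L (i, true)) (fun i => uX' L (i, false)) * RR' L)
  rw [map_mul, map_cprod]
  rfl

/-- images of the generators of the surface group -/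
noncomputable def gen (p : Fin (g + 1) × Bool) : (EE (Lam L) L.length)ˣ :=
  Fin.cases (if p.2 then opU _ _ (RR' L) else BE _ _) (fun i => opU _ _ (uX' L (i, p.2))) p.1

lemma gen_rel : cprod (fun i => gen L (i, true)) (fun i => gen L (i, false)) = 1 := by
  rw [cprod_succ]
  have h1 : gen L (0, true) = opU _ _ (RR' L) := rfl
  have h2 : gen L (0, false) = BE _ _ := rfl
  have h3 : (cprod (fun i : Fin g => gen L (i.succ, true)) (fun i => gen L (i.succ, false)))
      = opU _ _ (cprod (fun i => uX' L (i, true)) (fun i => uX' L (i, false))) := by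
    rw [map_cprod]
    rfl
  rw [h1, h2, h3]
  have h4 := BE_conj (RR' L)
  rw [sh_RR', map_mul] at h4
  rw [cm]
  have h5 : opU _ _ (RR' L) * BE _ _ * (opU _ _ (RR' L))⁻¹ * (BE _ _)⁻¹
      = opU _ _ (RR' L) * (BE _ _ * opU _ _ (RR' L) * (BE _ _)⁻¹)⁻¹ := by
    simp [mul_assoc]
  rw [h5, h4]
  simp [mul_assoc]

/-- the representation of the surface group -/
noncomputable def psU : SurfGrp (g + 1) →* (EE (Lam L) L.length)ˣ :=
  PresentedGroup.toGroup (f := gen L) (by
    intro r hr
    rw [Set.mem_singleton_iff] at hr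
    rw [hr]
    unfold srel
    rw [map_cprod]
    simp only [FreeGroup.lift_apply_of]
    exact gen_rel L)

lemma psU_of (p : Fin (g + 1) × Bool) : psU L (PresentedGroup.of p) = gen L p :=
  PresentedGroup.toGroup.of _

lemma psU_mem (x : SurfGrp (g + 1)) : psU L x ∈ (FE (Lam L) L.length).U1 := by
  have : x ∈ (FE (Lam L) L.length).U1.comap (psU L) := by
    apply PresentedGroup.generated_by
    rintro ⟨i, ε⟩
    rw [Subgroup.mem_comap, psU_of]
    induction i using Fin.cases with
    | zero =>
      cases ε with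
      | true => exact opU_mem _
      | false => exact BE_mem
    | succ i => exact opU_mem _
  exact this

lemma BE_conj_z {Λ l : ℕ} (s : ℤ) (u : GG Λ l 1 le_rfl) :
    BE Λ l ^ s * opU Λ l u * (BE Λ l ^ s)⁻¹ = opU Λ l ⟨sh s u.1, sh_mem s u.2⟩ := by
  induction s using Int.induction_on with
  | zero =>
    simp only [zpow_zero, one_mul, inv_one, mul_one]
    congr 1
    apply Subtype.ext
    funext τ
    simp
  | succ n ih =>
    have e1 : BE Λ l ^ ((n : ℤ) + 1) = BE Λ l * BE Λ l ^ (n : ℤ) := by
      rw [add_comm (n : ℤ) 1, _root_.zpow_add, _root_.zpow_one]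
    rw [e1]
    have h := BE_conj (⟨sh n u.1, sh_mem n u.2⟩ : GG Λ l 1 le_rfl)
    rw [← ih] at h
    rw [mul_inv_rev]
    have e : BE Λ l * BE Λ l ^ (n : ℤ) * opU Λ l u * ((BE Λ l ^ (n : ℤ))⁻¹ * (BE Λ l)⁻¹)
        = BE Λ l * (BE Λ l ^ (n : ℤ) * opU Λ l u * (BE Λ l ^ (n : ℤ))⁻¹) * (BE Λ l)⁻¹ := by
      simp only [mul_assoc]
    rw [e, h]
    congr 1
    apply Subtype.ext
    funext τ
    simp only [sh_apply]
    congr 1
    ring
  | pred n ih =>
    have e1 : BE Λ l ^ (-(n : ℤ) - 1) = (BE Λ l)⁻¹ * BE Λ l ^ (-(n : ℤ)) := by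
      rw [sub_eq_add_neg, add_comm (-(n : ℤ)) (-1), _root_.zpow_add, _root_.zpow_neg_one]
    rw [e1]
    have h := BE_conj (⟨sh (-(n : ℤ) - 1) u.1, sh_mem (-(n : ℤ) - 1) u.2⟩ : GG Λ l 1 le_rfl)
    have e0 : (⟨sh 1 (sh (-(n : ℤ) - 1) u.1), sh_mem 1 (sh_mem (-(n : ℤ) - 1) u.2)⟩ :
        GG Λ l 1 le_rfl) = ⟨sh (-(n : ℤ)) u.1, sh_mem (-(n : ℤ)) u.2⟩ := by
      apply Subtype.ext
      funext τ
      simp only [sh_apply]
      congr 1
      ring
    rw [e0, ← ih] at h
    rw [mul_inv_rev, inv_inv]
    have e : (BE Λ l)⁻¹ * BE Λ l ^ (-(n : ℤ)) * opU Λ l u * ((BE Λ l ^ (-(n : ℤ)))⁻¹ * BE Λ l)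
        = (BE Λ l)⁻¹ * (BE Λ l ^ (-(n : ℤ)) * opU Λ l u * (BE Λ l ^ (-(n : ℤ)))⁻¹) * BE Λ l := by
      simp only [mul_assoc]
    rw [e, ← h]
    simp [mul_assoc]

/-- the representation on the free group of letters -/
noncomputable def Phi : FreeGroup (XX g) →* GG (Lam L) L.length 1 le_rfl :=
  FreeGroup.lift fun x => match x with
    | none => RR' L
    | some (j, s) => ⟨sh s (uX L j), sh_mem s (uX' L j).2⟩

lemma psU_io (ν : FreeGroup (XX g)) : psU L (io g ν) = opU _ _ (Phi L ν) := by
  have h : (psU L).comp (io g) = (opU _ _).comp (Phi L) := by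
    apply FreeGroup.ext_hom
    rintro (_ | ⟨j, s⟩)
    · rw [MonoidHom.comp_apply, MonoidHom.comp_apply, io_none]
      unfold sa Phi
      rw [psU_of, FreeGroup.lift_apply_of]
      rfl
    · rw [MonoidHom.comp_apply, MonoidHom.comp_apply, io_some, map_mul, map_mul, map_inv, map_zpow]
      unfold sb sx Phi
      rw [psU_of, psU_of, FreeGroup.lift_apply_of]
      exact BE_conj_z s (uX' L j)
  exact DFunLike.congr_fun h ν

/-- evaluation at `0` -/
noncomputable def rho : FreeGroup (XX g) →* (Matrix (Fin (L.length + 1)) (Fin (L.length + 1)) ℚ)ˣ :=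
  (Pi.evalMonoidHom (fun _ : ℤ => (Matrix (Fin (L.length + 1)) (Fin (L.length + 1)) ℚ)ˣ) 0).comp
    ((GG (Lam L) L.length 1 le_rfl).subtype.comp (Phi L))

lemma rho_val (p : XX g × ℤ) (hp : p ∈ L) :
    ((rho L (FreeGroup.of p.1) : (Matrix _ _ ℚ)ˣ) : Matrix _ _ ℚ) = 1 + MX L p.1 := by
  obtain ⟨x, e⟩ := p
  rcases x with _ | ⟨j, s⟩
  · have h : rho L (FreeGroup.of none) = RR L 0 := by
      unfold rho Phi
      simp only [MonoidHom.comp_apply, FreeGroup.lift_apply_of]
      rfl
    show ((rho L (FreeGroup.of none) : (Matrix (Fin (L.length + 1)) (Fin (L.length + 1)) ℚ)ˣ) :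
      Matrix (Fin (L.length + 1)) (Fin (L.length + 1)) ℚ) = _
    rw [h, RR_zero, R0_val]
  · have h : rho L (FreeGroup.of (some (j, s))) = uX L j (0 + s) := by
      unfold rho Phi
      simp only [MonoidHom.comp_apply, FreeGroup.lift_apply_of]
      rfl
    show ((rho L (FreeGroup.of (some (j, s))) :
      (Matrix (Fin (L.length + 1)) (Fin (L.length + 1)) ℚ)ˣ) :
      Matrix (Fin (L.length + 1)) (Fin (L.length + 1)) ℚ) = _
    rw [h, zero_add]
    show 1 + XM L j s = 1 + MX L (some (j, s))
    congr 1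
    ext i i'
    have hs := mem_lev L hp
    by_cases hi : (i' : ℕ) = i + 1
    · unfold XM MX coef
      simp only [hi, if_true, true_and]
      rcases hl : lab L i with _ | (_ | ⟨j', s'⟩)
      · simp
      · simp
      · by_cases hj : j' = j
        · by_cases hss : s' = s
          · subst hj; subst hss
            simp [interp_self]
          · subst hj
            simp [hss, interp_ne (lev L) hs (fun h => hss h.symm)]
        · simp [hj]
    · simp [XM, MX, hi]

/-- the constant vector -/
def ev : MM (Lam L) L.length 0 := ⟨fun _ => Pi.single (Fin.last L.length) 1, by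
  intro k
  by_cases h : k = Fin.last L.length
  · subst h
    refine P_mono (le_of_eq ?_) (P_const _)
    simp
  · have e : (fun τ : ℤ => (fun _ => Pi.single (Fin.last L.length) 1 : ℤ → Fin (L.length + 1) → ℚ) τ k) = 0 := by
      funext τ
      simp [Pi.single_apply, h]
    rw [e]
    exact Submodule.zero_mem _⟩

lemma detect (hL : Redu L) (hne : L ≠ []) : psU L (io g (sprod L)) ≠ 1 := by
  intro h
  rw [psU_io] at h
  have h1 : op _ _ (Phi L (sprod L)) = 1 := congrArg Units.val h
  have h2 := congrArg (fun T : EE (Lam L) L.length => ((T (ev L) : MM (Lam L) L.length 0) :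
    ℤ → Fin (L.length + 1) → ℚ) 0 0) h1
  have h3 := magnus L hL (rho L) (rho_val L)
  apply h3
  have h4 : ((rho L (sprod L) : (Matrix _ _ ℚ)ˣ) : Matrix _ _ ℚ)
      = vl (Phi L (sprod L)).1 0 := rfl
  rw [h4]
  have h5 : (vl (Phi L (sprod L)).1 0).mulVec (Pi.single (Fin.last L.length) 1) 0
      = (Pi.single (Fin.last L.length) (1 : ℚ) : Fin (L.length + 1) → ℚ) 0 := h2
  rw [Matrix.mulVec_single_one] at h5
  have h6 : (Pi.single (Fin.last L.length) (1 : ℚ) : Fin (L.length + 1) → ℚ) 0 = 0 := by
    rw [Pi.single_apply, if_neg]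
    intro h
    have := congrArg Fin.val h
    simp only [Fin.val_zero, Fin.val_last] at this
    exact hne (List.length_eq_zero_iff.1 this.symm)
  rw [h6] at h5
  exact h5

end rep

/-- **closed surface groups are residually unipotent** -/
theorem resUnip_surf (g : ℕ) : ResUnip (SurfGrp g) := by
  intro x hx
  rcases g with _ | g
  · exfalso
    apply hx
    have : x ∈ (⊥ : Subgroup (SurfGrp 0)) := by
      apply PresentedGroup.generated_by
      rintro ⟨i, -⟩
      exact i.elim0
    simpa using this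
  obtain ⟨ν, e, rfl⟩ := normal_form x
  by_cases he : e = 0
  · subst he
    rw [zpow_zero, mul_one] at hx ⊢
    obtain ⟨L, hL, rfl⟩ := exists_redu ν
    have hne : L ≠ [] := by
      rintro rfl
      apply hx
      simp [sprod]
    refine ⟨EE (Lam L) L.length, inferInstance, inferInstance, FE (Lam L) L.length,
      (Units.coeHom _).comp (psU L), fun y => psU_mem L y, ?_⟩
    intro h
    apply detect L hL hne
    exact Units.ext h
  · apply detect_ab (bexp g)
    rw [map_mul, bexp_io, one_mul, map_zpow, bexp_b]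
    intro h
    apply he
    have := congrArg Multiplicative.toAdd h
    simpa using this

end SH
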