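import Pool.Agent.Helper66.SH.Pres
import Pool.Agent.Helper66.SH.Fin
import Pool.Agent.Helper66.SH.Ext
import Pool.Agent.Helper66.SH.Rep

/-! The closure theorem. -/

namespace SH

section

variable {G : Type*} [Group G] {J : Type} {A : J → Type} [∀ j, Group (A j)] (f : ∀ j, A j →* G)

/-- Injectivity of one member of the family. -/
theorem inj_one (hi : Function.Injective (h1sum f)) (hs : Function.Surjective (h2sum f))
    (j : J) (hA : ResUnip (A j)) : Function.Injective (f j) := by
  classical
  rw [injective_iff_map_eq_one]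
  intro a ha
  by_contra hne
  obtain ⟨E, _, _, F, ψ, h1, h2⟩ := hA a hne
  obtain ⟨θ, _, h3⟩ := ext_hom F hi hs
    (Function.update (fun j => (1 : A j →* E)) j ψ) (by
      intro i b
      by_cases hij : i = j
      · subst hij
        rw [Function.update_self]
        exact h1 b
      · rw [Function.update_of_ne hij, MonoidHom.one_apply, sub_self]
        exact Submodule.zero_mem _)
  have h4 := h3 j a
  rw [Function.update_self, ha, map_one] at h4
  exact h2 h4.symm

end

/-- Q1 is invariant under isomorphisms -/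
lemma Q1_of_equiv {G H : Type*} [Group G] [Group H] (e : G ≃* H) (hQ : Q1 G) : Q1 H := by
  intro α
  have h : h2 (e : G →* H) (h2 (e.symm : H →* G) α) = α := by
    rw [← h2_comp]
    have : (e : G →* H).comp (e.symm : H →* G) = MonoidHom.id H := by
      ext x; simp
    rw [this, h2_id]
  rw [← h]
  exact virtRep_map (e : G →* H) e.injective (hQ _)

lemma resUnip_of_equiv {A B : Type*} [Group A] [Group B] (e : A ≃* B) (h : ResUnip B) :
    ResUnip A := by
  intro a ha
  obtain ⟨E, i1, i2, F, ψ, h1, h2⟩ := h (e a) (by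
    intro h0
    apply ha
    have := congrArg e.symm h0
    simpa using this)
  exact ⟨E, i1, i2, F, ψ.comp (e : A →* B), fun x => h1 (e x), h2⟩

/-- the closure theorem -/
theorem closure_main {G : Type} [Group G] (H : Subgroup G) [H.FiniteIndex] {J : Type}
    {A : J → Type} [∀ j, Group (A j)] (f : ∀ j, A j →* H)
    (hA : ∀ j, (∃ g : ℕ, Nonempty (A j ≃* SurfGrp g)) ∨
      (Q1 (A j) ∧ (ResUnip (A j) ∨ Function.Injective (f j))))
    (hi : Function.Injective (h1sum f)) (hs : Function.Surjective (h2sum f)) :
    (∀ j, Function.Injective (f j)) ∧ Q1 G := by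
  have hinj : ∀ j, Function.Injective (f j) := by
    intro j
    rcases hA j with ⟨g, ⟨e⟩⟩ | ⟨_, h | h⟩
    · exact inj_one f hi hs j (resUnip_of_equiv e (resUnip_surf g))
    · exact inj_one f hi hs j h
    · exact h
  refine ⟨hinj, Q1_of_finiteIndex H (Q1_of_family f hinj hs fun j => ?_)⟩
  rcases hA j with ⟨g, ⟨e⟩⟩ | ⟨h, _⟩
  · exact Q1_of_equiv e.symm (Q1_surf g)
  · exact h

end SH
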