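import Pool.Agent.Helper66.SH.Defs

/-! Cocycles, central extensions and Euler numbers. -/

namespace SH

variable {G : Type*} [Group G] {V : Type*} [AddCommGroup V]

/-- two-cocycles (trivial action) -/
def IsCoc (c : G → G → V) : Prop :=
  ∀ x y z, c y z - c (x * y) z + c x (y * z) - c x y = 0

/-- coboundaries -/
def IsCob (c : G → G → V) : Prop := ∃ u : G → V, ∀ x y, c x y = u y - u (x * y) + u x

lemma IsCoc.one_left {c : G → G → V} (h : IsCoc c) (z : G) : c 1 z = c 1 1 := by
  have := h 1 1 z
  simp only [one_mul, sub_self, zero_add] at this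
  exact sub_eq_zero.1 this

lemma IsCoc.one_right {c : G → G → V} (h : IsCoc c) (x : G) : c x 1 = c 1 1 := by
  have := h x 1 1
  simp only [mul_one, sub_add_cancel] at this
  exact (sub_eq_zero.1 this).symm

/-- the central extension defined by a cocycle -/
@[ext] structure Ex (c : G → G → V) (hc : IsCoc c) where
  /-- central coordinate -/
  v : V
  /-- group coordinate -/
  g : G

namespace Ex

variable {c : G → G → V} {hc : IsCoc c}

instance : Mul (Ex c hc) := ⟨fun a b => ⟨a.v + b.v + c a.g b.g, a.g * b.g⟩⟩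
instance : One (Ex c hc) := ⟨⟨-c 1 1, 1⟩⟩
instance : Inv (Ex c hc) := ⟨fun a => ⟨-c 1 1 - c a.g⁻¹ a.g - a.v, a.g⁻¹⟩⟩

@[simp] lemma mul_v (a b : Ex c hc) : (a * b).v = a.v + b.v + c a.g b.g := rfl
@[simp] lemma mul_g (a b : Ex c hc) : (a * b).g = a.g * b.g := rfl
@[simp] lemma one_v : (1 : Ex c hc).v = -c 1 1 := rfl
@[simp] lemma one_g : (1 : Ex c hc).g = 1 := rfl
lemma inv_v' (a : Ex c hc) : (a⁻¹).v = -c 1 1 - c a.g⁻¹ a.g - a.v := rfl
@[simp] lemma inv_g (a : Ex c hc) : (a⁻¹).g = a.g⁻¹ := rfl

instance : Group (Ex c hc) :=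
  Group.ofLeftAxioms
    (by
      intro a b d
      apply Ex.ext
      · have := hc a.g b.g d.g
        simp only [mul_v, mul_g]
        rw [← sub_eq_zero]
        rw [← sub_eq_zero] at this
        simp only [sub_zero] at this
        have h2 : a.v + b.v + c a.g b.g + d.v + c (a.g * b.g) d.g
            - (a.v + (b.v + d.v + c b.g d.g) + c a.g (b.g * d.g))
            = -(c b.g d.g - c (a.g * b.g) d.g + c a.g (b.g * d.g) - c a.g b.g) := by abel
        rw [h2, this, neg_zero]
      · exact mul_assoc _ _ _)
    (by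
      intro a
      apply Ex.ext
      · simp only [mul_v, one_v, one_g, hc.one_left]
        abel
      · exact one_mul _)
    (by
      intro a
      apply Ex.ext
      · simp only [mul_v, inv_v', inv_g, one_v]
        abel
      · exact inv_mul_cancel _)

lemma inv_v (a : Ex c hc) : (a⁻¹).v = -c 1 1 - c a.g a.g⁻¹ - a.v := by
  have h := congrArg Ex.v (mul_inv_cancel a)
  simp only [mul_v, one_v, inv_g] at h
  rw [← h]
  abel

/-- the projection to the group -/
def pr (c : G → G → V) (hc : IsCoc c) : Ex c hc →* G where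
  toFun a := a.g
  map_one' := rfl
  map_mul' _ _ := rfl

@[simp] lemma pr_apply (a : Ex c hc) : pr c hc a = a.g := rfl

end Ex

/-- a section makes the cocycle a coboundary -/
lemma cob_of_section {c : G → G → V} {hc : IsCoc c} (σ : G →* Ex c hc) (hσ : ∀ x, (σ x).g = x) :
    IsCob c := by
  refine ⟨fun x => -(σ x).v, fun x y => ?_⟩
  have h := congrArg Ex.v (map_mul σ x y)
  rw [Ex.mul_v, hσ, hσ] at h
  show c x y = -(σ y).v - -(σ (x * y)).v + -(σ x).v
  rw [h]
  abel

variable [Module ℚ V]

/-- linear extension of a cochain to bar chains -/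
noncomputable def lin (c : G → G → V) : C2 G →ₗ[ℚ] V :=
  Finsupp.lsum ℚ fun p : G × G => LinearMap.toSpanSingleton ℚ V (c p.1 p.2)

lemma lin_single (c : G → G → V) (g h : G) (q : ℚ) :
    lin c (Finsupp.single (g, h) q) = q • c g h := by
  simp [lin, LinearMap.toSpanSingleton_apply]

lemma prod_v {c : G → G → V} {hc : IsCoc c} (X : Ex c hc) (L : List (Ex c hc)) :
    (X * L.prod).v = X.v + (L.map Ex.v).sum + lin c (fan X.g (L.map Ex.g)) := by
  induction L generalizing X with
  | nil => simp [fan]
  | cons Y t ih =>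
    rw [List.prod_cons, ← mul_assoc, ih, List.map_cons, List.map_cons, List.sum_cons, fan, map_add,
      lin_single, one_smul, Ex.mul_v, Ex.mul_g]
    abel

lemma letters_map {H : Type*} [Group H] (f : G →* H) {g : ℕ} (x y : Fin g → G) :
    (letters x y).map f = letters (fun i => f (x i)) (fun i => f (y i)) := by
  unfold letters
  rw [List.map_flatten, List.map_ofFn]
  congr 2
  funext i
  simp

lemma letters_map_v {c : G → G → V} {hc : IsCoc c} {g : ℕ} (x y : Fin g → Ex c hc) :
    ((letters x y).map Ex.v).sum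
      = ∑ i : Fin g, ((x i).v + (y i).v + ((x i)⁻¹).v + ((y i)⁻¹).v) := by
  unfold letters
  rw [List.map_flatten, List.sum_flatten, List.map_ofFn, List.map_ofFn, ← List.sum_ofFn]
  congr 2
  funext i
  simp [add_assoc]

/-- **Euler number**: the product of commutators of arbitrary lifts -/
lemma cprod_lift {c : G → G → V} {hc : IsCoc c} {g : ℕ} (x y : Fin g → Ex c hc) :
    (cprod x y).v = -c 1 1 + lin c (sfc (fun i => (x i).g) (fun i => (y i).g)) := by
  have h := prod_v (1 : Ex c hc) (letters x y)
  rw [one_mul, letters_prod] at h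
  rw [h, Ex.one_v, Ex.one_g, letters_map_v]
  have hm : (letters x y).map Ex.g = letters (fun i => (x i).g) (fun i => (y i).g) :=
    letters_map (Ex.pr c hc) x y
  rw [hm, sfc, map_sub, map_sum, add_assoc, sub_eq_add_neg, ← Finset.sum_neg_distrib]
  congr 1
  rw [add_comm]
  congr 1
  apply Finset.sum_congr rfl
  intro i _
  rw [Ex.inv_v, Ex.inv_v, map_add, map_add, map_smul, lin_single, lin_single, lin_single, one_smul,
    one_smul, one_smul, two_smul]
  abel

lemma cprod_lift_one {c : G → G → V} {hc : IsCoc c} {g : ℕ} (x y : Fin g → Ex c hc)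
    (h1 : cprod (fun i => (x i).g) (fun i => (y i).g) = 1)
    (h2 : lin c (sfc (fun i => (x i).g) (fun i => (y i).g)) = 0) : cprod x y = 1 := by
  apply Ex.ext
  · rw [cprod_lift, h2, add_zero]
    rfl
  · have := map_cprod (Ex.pr c hc) x y
    simp only [Ex.pr_apply] at this
    rw [this, h1]
    rfl

/-- cocycles on a surface group with Euler number zero are coboundaries -/
theorem surf_coc {g : ℕ} (c : SurfGrp g → SurfGrp g → V) (hc : IsCoc c)
    (h : lin c (sfc (fun i => ga i) (fun i => gb i)) = 0) : IsCob c := by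
  let f : Fin g × Bool → Ex c hc := fun p => ⟨0, PresentedGroup.of p⟩
  have hf : ∀ r ∈ ({srel g} : Set (FreeGroup (Fin g × Bool))), FreeGroup.lift f r = 1 := by
    intro r hr
    rw [Set.mem_singleton_iff] at hr
    rw [hr]
    unfold srel
    rw [map_cprod]
    simp only [FreeGroup.lift_apply_of]
    exact cprod_lift_one (fun i => f (i, true)) (fun i => f (i, false)) (surf_rel g) h
  let σ : SurfGrp g →* Ex c hc := PresentedGroup.toGroup hf
  apply cob_of_section σ
  have hs : (Ex.pr c hc).comp σ = MonoidHom.id _ := by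
    apply PresentedGroup.ext
    intro p
    rw [MonoidHom.comp_apply]
    show Ex.pr c hc (PresentedGroup.toGroup hf (PresentedGroup.of p)) = _
    rw [PresentedGroup.toGroup.of]
    rfl
  intro x
  exact DFunLike.congr_fun hs x

lemma c2_fan {H : Type*} [Group H] (f : G →* H) (p : G) (L : List G) :
    c2 f (fan p L) = fan (f p) (L.map f) := by
  induction L generalizing p with
  | nil => simp [fan]
  | cons x t ih => rw [fan, map_add, c2_single, ih, List.map_cons, fan, map_mul]

lemma c2_sfc {H : Type*} [Group H] (f : G →* H) {g : ℕ} (x y : Fin g → G) :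
    c2 f (sfc x y) = sfc (fun i => f (x i)) (fun i => f (y i)) := by
  unfold sfc
  rw [map_sub, c2_fan, map_one, letters_map, map_sum]
  congr 1
  apply Finset.sum_congr rfl
  intro i _
  rw [map_add, map_add, map_smul, c2_single, c2_single, c2_single, map_inv, map_inv, map_one]

lemma d2_d3 (z : C3 G) : d2 G (d3 G z) = 0 := by
  have : (d2 G).comp (d3 G) = 0 := by
    apply Finsupp.lhom_ext
    rintro ⟨g, h, k⟩ q
    rw [LinearMap.comp_apply, d3_single, map_smul, map_sub, map_add, map_sub, d2_single, d2_single,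
      d2_single, d2_single, mul_assoc, LinearMap.zero_apply]
    simp only [one_smul]
    rw [show (Finsupp.single k (1 : ℚ) - Finsupp.single (h * k) 1 + Finsupp.single h 1 -
      (Finsupp.single k 1 - Finsupp.single (g * (h * k)) 1 + Finsupp.single (g * h) 1) +
      (Finsupp.single (h * k) 1 - Finsupp.single (g * (h * k)) 1 + Finsupp.single g 1) -
      (Finsupp.single h 1 - Finsupp.single (g * h) 1 + Finsupp.single g 1)) = 0 by abel, smul_zero]
  exact LinearMap.congr_fun this z

lemma lin_d3 {c : G → G → V} (hc : IsCoc c) (z : C3 G) : lin c (d3 G z) = 0 := by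
  have : (lin c).comp (d3 G) = 0 := by
    apply Finsupp.lhom_ext
    rintro ⟨g, h, k⟩ q
    rw [LinearMap.comp_apply, d3_single, map_smul, map_sub, map_add, map_sub, lin_single,
      lin_single, lin_single, lin_single, LinearMap.zero_apply]
    simp only [one_smul]
    rw [hc g h k, smul_zero]
  exact LinearMap.congr_fun this z

lemma lin_cob {c : G → G → V} {u : G → V} (h : ∀ x y, c x y = u y - u (x * y) + u x) (z : C2 G) :
    lin c z = Finsupp.lsum ℚ (fun g : G => LinearMap.toSpanSingleton ℚ V (u g)) (d2 G z) := by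
  have : lin c = (Finsupp.lsum ℚ (fun g : G => LinearMap.toSpanSingleton ℚ V (u g))).comp (d2 G) := by
    apply Finsupp.lhom_ext
    rintro ⟨g, k⟩ q
    rw [LinearMap.comp_apply, d2_single, lin_single, map_smul, map_add, map_sub]
    simp [LinearMap.toSpanSingleton_apply, h g k]
  exact LinearMap.congr_fun this z

lemma lin_cob_cycle {c : G → G → V} (h : IsCob c) {z : C2 G} (hz : z ∈ Z2 G) : lin c z = 0 := by
  obtain ⟨u, hu⟩ := h
  rw [lin_cob hu, LinearMap.mem_ker.1 hz, map_zero]

end SH
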