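import Mathlib

/-!
# Bar complex, surface groups, fundamental classes

`H1 G`, `H2 G` are the first and second rational homology of a group, computed with the
inhomogeneous bar complex with coefficients in `ℚ` (trivial action):
`∂(g,h) = h - gh + g`, `∂(g,h,k) = (h,k) - (gh,k) + (g,hk) - (g,h)`.
-/

namespace SH

section bar

variable (G : Type*) [Group G]

/-- bar chains of degree one -/
abbrev C1 : Type _ := G →₀ ℚ
/-- bar chains of degree two -/
abbrev C2 : Type _ := (G × G) →₀ ℚ
/-- bar chains of degree three -/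
abbrev C3 : Type _ := (G × G × G) →₀ ℚ

variable {G} in
/-- `∂(g,h) = h - gh + g`, for a generator of the chains of degree two -/
noncomputable def bd2 (p : G × G) : C1 G :=
  Finsupp.single p.2 1 - Finsupp.single (p.1 * p.2) 1 + Finsupp.single p.1 1

variable {G} in
/-- `∂(g,h,k) = (h,k) - (gh,k) + (g,hk) - (g,h)`, for a generator of the chains of degree
three -/
noncomputable def bd3 (p : G × G × G) : C2 G :=
  Finsupp.single (p.2.1, p.2.2) 1 - Finsupp.single (p.1 * p.2.1, p.2.2) 1
    + Finsupp.single (p.1, p.2.1 * p.2.2) 1 - Finsupp.single (p.1, p.2.1) 1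

/-- boundary from degree two to degree one -/
noncomputable def d2 : C2 G →ₗ[ℚ] C1 G := Finsupp.linearCombination ℚ bd2

/-- boundary from degree three to degree two -/
noncomputable def d3 : C3 G →ₗ[ℚ] C2 G := Finsupp.linearCombination ℚ bd3

/-- cycles of degree two -/
noncomputable abbrev Z2 : Submodule ℚ (C2 G) := LinearMap.ker (d2 G)

/-- boundaries of degree two, inside the cycles -/
noncomputable abbrev B2 : Submodule ℚ (Z2 G) := (LinearMap.range (d3 G)).comap (Z2 G).subtype

/-- first rational homology (every chain of degree one is a cycle) -/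
def H1 : Type _ := C1 G ⧸ LinearMap.range (d2 G)

/-- second rational homology -/
def H2 : Type _ := Z2 G ⧸ B2 G

noncomputable instance : AddCommGroup (H1 G) :=
  Submodule.Quotient.addCommGroup (LinearMap.range (d2 G))
noncomputable instance : Module ℚ (H1 G) := Submodule.Quotient.module (LinearMap.range (d2 G))
noncomputable instance : AddCommGroup (H2 G) := Submodule.Quotient.addCommGroup (B2 G)
noncomputable instance : Module ℚ (H2 G) := Submodule.Quotient.module (B2 G)

/-- the class of a chain of degree one -/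
noncomputable def cl1' : C1 G →ₗ[ℚ] H1 G := (LinearMap.range (d2 G)).mkQ

/-- the class of a cycle of degree two -/
noncomputable def cl2 : Z2 G →ₗ[ℚ] H2 G := (B2 G).mkQ

lemma cl1'_surj : Function.Surjective (cl1' G) := (LinearMap.range (d2 G)).mkQ_surjective

lemma cl2_surj : Function.Surjective (cl2 G) := (B2 G).mkQ_surjective

variable {G} in
lemma cl1'_d2 (z : C2 G) : cl1' G (d2 G z) = 0 :=
  (Submodule.Quotient.mk_eq_zero (LinearMap.range (d2 G))).2 ⟨z, rfl⟩

variable {G} in
lemma cl2_d3 {z : Z2 G} (w : C3 G) (h : d3 G w = z) : cl2 G z = 0 :=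
  (Submodule.Quotient.mk_eq_zero (B2 G)).2 ⟨w, h⟩

variable {G} in
/-- linear maps on first homology -/
noncomputable def lift1 {V : Type*} [AddCommGroup V] [Module ℚ V] (φ : C1 G →ₗ[ℚ] V)
    (h : ∀ z, φ (d2 G z) = 0) : H1 G →ₗ[ℚ] V :=
  (LinearMap.range (d2 G)).liftQ φ (by rintro _ ⟨z, rfl⟩; exact h z)

variable {G} in
lemma lift1_cl1' {V : Type*} [AddCommGroup V] [Module ℚ V] (φ : C1 G →ₗ[ℚ] V)
    (h : ∀ z, φ (d2 G z) = 0) (z : C1 G) : lift1 φ h (cl1' G z) = φ z := rfl

variable {G} in
/-- linear maps on second homology -/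
noncomputable def lift2 {V : Type*} [AddCommGroup V] [Module ℚ V] (φ : Z2 G →ₗ[ℚ] V)
    (h : ∀ (z : Z2 G) (w : C3 G), d3 G w = z → φ z = 0) : H2 G →ₗ[ℚ] V :=
  (B2 G).liftQ φ (by rintro z ⟨w, hw⟩; exact h z w hw)

variable {G} in
lemma lift2_cl2 {V : Type*} [AddCommGroup V] [Module ℚ V] (φ : Z2 G →ₗ[ℚ] V)
    (h : ∀ (z : Z2 G) (w : C3 G), d3 G w = z → φ z = 0) (z : Z2 G) : lift2 φ h (cl2 G z) = φ z := rfl

end bar

section maps

variable {G : Type*} [Group G] {H : Type*} [Group H]

lemma d2_single (g h : G) (q : ℚ) : d2 G (Finsupp.single (g, h) q)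
    = q • (Finsupp.single h 1 - Finsupp.single (g * h) 1 + Finsupp.single g 1) := by
  simp [d2, bd2]

lemma d3_single (g h k : G) (q : ℚ) : d3 G (Finsupp.single (g, h, k) q)
    = q • (Finsupp.single (h, k) 1 - Finsupp.single (g * h, k) 1
      + Finsupp.single (g, h * k) 1 - Finsupp.single (g, h) 1) := by
  simp [d3, bd3]

/-- chain map in degree one -/
noncomputable def c1 (f : G →* H) : C1 G →ₗ[ℚ] C1 H := Finsupp.lmapDomain ℚ ℚ f
/-- chain map in degree two -/
noncomputable def c2 (f : G →* H) : C2 G →ₗ[ℚ] C2 H := Finsupp.lmapDomain ℚ ℚ (Prod.map f f)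
/-- chain map in degree three -/
noncomputable def c3 (f : G →* H) : C3 G →ₗ[ℚ] C3 H :=
  Finsupp.lmapDomain ℚ ℚ (Prod.map f (Prod.map f f))

@[simp] lemma c1_single (f : G →* H) (g : G) (q : ℚ) :
    c1 f (Finsupp.single g q) = Finsupp.single (f g) q := by
  simp [c1]

@[simp] lemma c2_single (f : G →* H) (g h : G) (q : ℚ) :
    c2 f (Finsupp.single (g, h) q) = Finsupp.single (f g, f h) q := by
  simp [c2]

@[simp] lemma c3_single (f : G →* H) (g h k : G) (q : ℚ) :
    c3 f (Finsupp.single (g, h, k) q) = Finsupp.single (f g, f h, f k) q := by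
  simp [c3]

lemma d2_c2 (f : G →* H) (z : C2 G) : d2 H (c2 f z) = c1 f (d2 G z) := by
  have : (d2 H).comp (c2 f) = (c1 f).comp (d2 G) := by
    apply Finsupp.lhom_ext
    rintro ⟨g, h⟩ q
    simp [d2_single]
  exact LinearMap.congr_fun this z

lemma d3_c3 (f : G →* H) (z : C3 G) : d3 H (c3 f z) = c2 f (d3 G z) := by
  have : (d3 H).comp (c3 f) = (c2 f).comp (d3 G) := by
    apply Finsupp.lhom_ext
    rintro ⟨g, h, k⟩ q
    simp [d3_single]
  exact LinearMap.congr_fun this z

/-- induced map on first homology -/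
noncomputable def h1 (f : G →* H) : H1 G →ₗ[ℚ] H1 H :=
  lift1 ((cl1' H).comp (c1 f)) (by
    intro z
    rw [LinearMap.comp_apply, ← d2_c2]
    exact cl1'_d2 _)

lemma h1_cl (f : G →* H) (z : C1 G) : h1 f (cl1' G z) = cl1' H (c1 f z) := rfl

/-- induced map on cycles -/
noncomputable def z2 (f : G →* H) : Z2 G →ₗ[ℚ] Z2 H :=
  (c2 f).restrict (by
    intro z hz
    rw [LinearMap.mem_ker] at hz ⊢
    rw [d2_c2, hz, map_zero])

@[simp] lemma z2_val (f : G →* H) (z : Z2 G) : ((z2 f z : Z2 H) : C2 H) = c2 f z := rfl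

/-- induced map on second homology -/
noncomputable def h2 (f : G →* H) : H2 G →ₗ[ℚ] H2 H :=
  lift2 ((cl2 H).comp (z2 f)) (by
    intro z w hw
    exact cl2_d3 (c3 f w) (by rw [d3_c3, hw]; rfl))

lemma h2_cl (f : G →* H) (z : Z2 G) : h2 f (cl2 G z) = cl2 H (z2 f z) := rfl

open Classical in
/-- the map `⊕_j H₁(A_j) → H₁(G)` -/
noncomputable def h1sum {J : Type*} {A : J → Type*} [∀ j, Group (A j)] (f : ∀ j, A j →* G) :
    (DirectSum J fun j => H1 (A j)) →ₗ[ℚ] H1 G :=
  DirectSum.toModule ℚ J (H1 G) fun j => h1 (f j)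

open Classical in
/-- the map `⊕_j H₂(A_j) → H₂(G)` -/
noncomputable def h2sum {J : Type*} {A : J → Type*} [∀ j, Group (A j)] (f : ∀ j, A j →* G) :
    (DirectSum J fun j => H2 (A j)) →ₗ[ℚ] H2 G :=
  DirectSum.toModule ℚ J (H2 G) fun j => h2 (f j)

end maps

section surfaces

/-- the commutator `x y x⁻¹ y⁻¹` -/
def cm {G : Type*} [Group G] (x y : G) : G := x * y * x⁻¹ * y⁻¹

/-- the product of commutators `[x₀,y₀][x₁,y₁]⋯` -/
def cprod {G : Type*} [Group G] {g : ℕ} (x y : Fin g → G) : G :=
  (List.ofFn fun i : Fin g => cm (x i) (y i)).prod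

lemma map_cm {G H : Type*} [Group G] [Group H] (f : G →* H) (x y : G) :
    f (cm x y) = cm (f x) (f y) := by
  simp [cm]

lemma map_cprod {G H : Type*} [Group G] [Group H] (f : G →* H) {g : ℕ} (x y : Fin g → G) :
    f (cprod x y) = cprod (fun i => f (x i)) (fun i => f (y i)) := by
  unfold cprod
  rw [map_list_prod, List.map_ofFn]
  congr 2
  funext i
  exact map_cm f _ _

/-- the relator `[a₀,b₀][a₁,b₁]⋯` -/
def srel (g : ℕ) : FreeGroup (Fin g × Bool) :=
  cprod (fun i : Fin g => FreeGroup.of (i, true)) (fun i : Fin g => FreeGroup.of (i, false))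

/-- the fundamental group of the closed oriented surface of genus `g`:
generators `a_i = (i,true)`, `b_i = (i,false)`, relator the product of the commutators
`[a_i,b_i]` (for `g = 0`, the sphere, this is the trivial group) -/
abbrev SurfGrp (g : ℕ) : Type := PresentedGroup ({srel g} : Set (FreeGroup (Fin g × Bool)))

/-- the generator `a_i` -/
def ga {g : ℕ} (i : Fin g) : SurfGrp g := PresentedGroup.of (i, true)
/-- the generator `b_i` -/
def gb {g : ℕ} (i : Fin g) : SurfGrp g := PresentedGroup.of (i, false)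

variable {G : Type*} [Group G]

/-- the letters `a₀, b₀, a₀⁻¹, b₀⁻¹, a₁, …` of the boundary word of the polygon -/
def letters {g : ℕ} (x y : Fin g → G) : List G :=
  (List.ofFn fun i : Fin g => [x i, y i, (x i)⁻¹, (y i)⁻¹]).flatten

/-- triangulation of a polygon by a fan of triangles: for letters `x₁,…,x_m` and a start `p`
the chain `(p,x₁) + (p x₁,x₂) + … + (p x₁⋯x_{m-1},x_m)` -/
noncomputable def fan : G → List G → C2 G
  | _, [] => 0
  | p, (x :: t) => Finsupp.single (p, x) 1 + fan (p * x) t

/-- the fundamental bar cycle of the surface obtained from the `4g`-gon with boundary word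
`[x₀,y₀][x₁,y₁]⋯`: the fan of the polygon, and degenerate triangles for the identification
of the sides -/
noncomputable def sfc {g : ℕ} (x y : Fin g → G) : C2 G :=
  fan 1 (letters x y)
    - ∑ i : Fin g, (Finsupp.single (x i, (x i)⁻¹) 1 + Finsupp.single (y i, (y i)⁻¹) 1
      + (2 : ℚ) • Finsupp.single ((1 : G), (1 : G)) 1)

lemma d2_fan (p : G) (L : List G) : d2 G (fan p L)
    = (L.map fun x => Finsupp.single x (1 : ℚ)).sum
      - Finsupp.single (p * L.prod) 1 + Finsupp.single p 1 := by
  induction L generalizing p with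
  | nil => simp [fan]
  | cons x t ih =>
    rw [fan, map_add, d2_single, ih, List.map_cons, List.sum_cons, List.prod_cons, one_smul,
      mul_assoc]
    abel

lemma letters_prod {g : ℕ} (x y : Fin g → G) :
    (letters x y).prod = cprod x y := by
  unfold letters cprod
  rw [List.prod_flatten, List.map_ofFn]
  congr 2
  funext i
  simp [cm, mul_assoc]

lemma letters_sum {g : ℕ} (x y : Fin g → G) :
    ((letters x y).map fun x => Finsupp.single x (1 : ℚ)).sum
      = ∑ i : Fin g, (Finsupp.single (x i) (1 : ℚ) + Finsupp.single (y i) 1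
        + Finsupp.single (x i)⁻¹ 1 + Finsupp.single (y i)⁻¹ 1) := by
  unfold letters
  rw [List.map_flatten, List.sum_flatten, List.map_ofFn, List.map_ofFn, ← List.sum_ofFn]
  congr 2
  funext i
  simp [add_assoc]

lemma sfc_cycle {g : ℕ} (x y : Fin g → G) (h : cprod x y = 1) :
    sfc x y ∈ Z2 G := by
  rw [LinearMap.mem_ker, sfc, map_sub, d2_fan, letters_prod, h, letters_sum, map_sum,
    mul_one, sub_add_cancel, ← Finset.sum_sub_distrib]
  apply Finset.sum_eq_zero
  intro i _
  rw [map_add, map_add, map_smul, d2_single, d2_single, d2_single, mul_inv_cancel,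
    mul_inv_cancel, mul_one, one_smul, one_smul, one_smul, two_smul]
  abel

lemma surf_rel (g : ℕ) : cprod (fun i => (ga i : SurfGrp g)) (fun i => gb i) = 1 := by
  have h : (PresentedGroup.mk ({srel g} : Set (FreeGroup (Fin g × Bool)))) (srel g) = 1 :=
    PresentedGroup.one_of_mem rfl
  have e : (PresentedGroup.mk ({srel g} : Set (FreeGroup (Fin g × Bool)))) (srel g)
      = cprod (fun i => (ga i : SurfGrp g)) (fun i => gb i) :=
    map_cprod (PresentedGroup.mk ({srel g} : Set (FreeGroup (Fin g × Bool))))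
      (fun i : Fin g => FreeGroup.of (i, true)) (fun i : Fin g => FreeGroup.of (i, false))
  rw [← e, h]

/-- the fundamental class of the closed oriented surface of genus `g` in the second homology
of its fundamental group -/
noncomputable def fundCl (g : ℕ) : H2 (SurfGrp g) :=
  cl2 (SurfGrp g) ⟨sfc (fun i => ga i) (fun i => gb i), sfc_cycle _ _ (surf_rel g)⟩

/-- `α` is virtually represented by a sum of closed surface subgroups: a positive multiple
of `α` is a finite sum of images of fundamental classes of closed oriented surfaces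
(genus `γ i`, orientation given by the sign `ε i`) under injective homomorphisms -/
def VirtRep (G : Type*) [Group G] (α : H2 G) : Prop :=
  ∃ n : ℕ, 0 < n ∧ ∃ (k : ℕ) (γ : Fin k → ℕ) (ε : Fin k → ℤ) (ρ : ∀ i, SurfGrp (γ i) →* G),
    (∀ i, ε i = 1 ∨ ε i = -1) ∧ (∀ i, Function.Injective (ρ i)) ∧
      (n : ℚ) • α = ∑ i, (ε i : ℚ) • h2 (ρ i) (fundCl (γ i))

/-- the answer to Q1 for the group `G` is yes -/
def Q1 (G : Type*) [Group G] : Prop := ∀ α : H2 G, VirtRep G α

end surfaces

end SH
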