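import Pool.Agent.Helper66.SH.Defs

/-! Presentations with relators that are products of commutators. -/

namespace SH

/-- the vector of exponent sums -/
noncomputable def ab (X : Type) : FreeGroup X →* Multiplicative (X →₀ ℚ) :=
  FreeGroup.lift fun i => Multiplicative.ofAdd (Finsupp.single i 1)

/-- the vector of exponent sums of a word, written additively -/
noncomputable def abv {X : Type} (w : FreeGroup X) : X →₀ ℚ := Multiplicative.toAdd (ab X w)

section

variable {X J L : Type} (γ : J → ℕ) (x y : ∀ j, Fin (γ j) → FreeGroup X) (u : L → FreeGroup X)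

/-- relators: the products of commutators `[x_j0,y_j0][x_j1,y_j1]⋯` and the words `u_l` -/
def rels : Set (FreeGroup X) := {r | (∃ j, r = cprod (x j) (y j)) ∨ ∃ l, r = u l}

/-- the group presented by generators `X` and these relators -/
abbrev PG : Type := PresentedGroup (rels γ x y u)

/-- the map of the surface group of genus `γ j` -/
noncomputable def fj (j : J) : SurfGrp (γ j) →* PG γ x y u :=
  PresentedGroup.toGroup
    (f := fun p => PresentedGroup.mk (rels γ x y u) (if p.2 then x j p.1 else y j p.1)) (by
    intro r hr
    rw [Set.mem_singleton_iff] at hr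
    rw [hr]
    unfold srel
    rw [map_cprod]
    simp only [FreeGroup.lift_apply_of, if_true, Bool.false_eq_true, if_false]
    rw [← map_cprod]
    exact PresentedGroup.one_of_mem (Or.inl ⟨j, rfl⟩))

end

/-- the `2 g` elements `x i`, `y i` are free generators of the subgroup they generate -/
def HFree {G : Type*} [Group G] {g : ℕ} (x y : Fin g → G) : Prop :=
  Function.Injective (FreeGroup.lift fun p : Fin g × Bool => if p.2 then x p.1 else y p.1)

/-- a function on `Fin (g + 1)` from its value at `0` and the other values -/
def hx {G : Type*} (g : ℕ) (a : G) (x : Fin g → G) : Fin (g + 1) → G := Fin.cases a x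

section

variable {X J L Z : Type} (g : J → ℕ) (x y : ∀ j, Fin (g j) → FreeGroup Z) (δ : J → FreeGroup Z)
  (t : FreeGroup X) (a : J → FreeGroup X) (w : Z → FreeGroup X) (u : L → FreeGroup X)

/-- the first entries `a_j, x_j0(w), x_j1(w), …` of the handles of the `j`-th relator -/
def hX (j : J) : Fin (g j + 1) → FreeGroup X :=
  hx (g j) (a j) fun i => FreeGroup.lift w (x j i)

/-- the second entries `t δ_j(w), y_j0(w), y_j1(w), …` of the handles of the `j`-th relator -/
def hY (j : J) : Fin (g j + 1) → FreeGroup X :=
  hx (g j) (t * FreeGroup.lift w (δ j)) fun i => FreeGroup.lift w (y j i)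

/-- the group with generators `X` and relators
`[a_j, t δ_j(w)] [x_j0(w), y_j0(w)] [x_j1(w), y_j1(w)] ⋯` and `u_l` -/
abbrev HG : Type := PG (fun j => g j + 1) (hX g x a w) (hY g y δ t w) u

/-- the map of the surface group of genus `g_j + 1` to `HG`, given by the handles of the
`j`-th relator -/
noncomputable abbrev hS (j : J) : SurfGrp (g j + 1) →* HG g x y δ t a w u :=
  fj (fun j => g j + 1) (hX g x a w) (hY g y δ t w) u j

/-- the words `t, a_j, w_z, u_l` -/
def vis : Unit ⊕ (J ⊕ (Z ⊕ L)) → FreeGroup X :=
  Sum.elim (fun _ => t) (Sum.elim a (Sum.elim w u))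

end

end SH
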