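import Mathlib

/-! Filtered `ℚ`-algebras and residually unipotent groups. -/

namespace SH

/-- a finite multiplicative filtration of a `ℚ`-algebra by subspaces -/
structure Filt (E : Type) [Ring E] [Algebra ℚ E] where
  F : ℕ → Submodule ℚ E
  r : ℕ
  anti : ∀ k, F (k + 1) ≤ F k
  mul : ∀ i j x y, x ∈ F i → y ∈ F j → x * y ∈ F (i + j)
  bot : F r = ⊥

/-- every nontrivial element survives in some group `1 + F 1` with `F` a finite
filtration of a `ℚ`-algebra -/
def ResUnip (A : Type*) [Group A] : Prop :=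
  ∀ a : A, a ≠ 1 → ∃ (E : Type) (_ : Ring E) (_ : Algebra ℚ E) (F : Filt E) (ψ : A →* E),
    (∀ x, ψ x - 1 ∈ F.F 1) ∧ ψ a ≠ 1

end SH
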