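import Pool.Agent.Helper66.SH.Poly

/-! Matrices of polynomial functions with a weight filtration. -/

namespace SH



/-- functions from `ℤ` to square matrices -/
abbrev RM (l : ℕ) : Type := ℤ → Matrix (Fin (l + 1)) (Fin (l + 1)) ℚ

/-- weight `≥ s`: the entry `(k, k')` has degree `≤ Λ (k' - k) - s` -/
def AA (Λ l : ℕ) (s : ℤ) : Submodule ℚ (RM l) where
  carrier := {T | ∀ k k' : Fin (l + 1),
    (fun τ => T τ k k') ∈ P ((Λ : ℤ) * (((k' : ℕ) : ℤ) - ((k : ℕ) : ℤ)) - s)}
  add_mem' := by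
    intro a b ha hb k k'
    exact Submodule.add_mem _ (ha k k') (hb k k')
  zero_mem' := by
    intro k k'
    exact Submodule.zero_mem _
  smul_mem' := by
    intro c x hx k k'
    exact Submodule.smul_mem _ c (hx k k')

variable {Λ l : ℕ}

lemma mem_AA {s : ℤ} {T : RM l} : T ∈ AA Λ l s ↔ ∀ k k' : Fin (l + 1),
    (fun τ => T τ k k') ∈ P ((Λ : ℤ) * (((k' : ℕ) : ℤ) - ((k : ℕ) : ℤ)) - s) := Iff.rfl

lemma AA_anti {s s' : ℤ} (h : s ≤ s') : AA Λ l s' ≤ AA Λ l s := by
  intro T hT k k'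
  exact P_mono (by linarith) (hT k k')

lemma AA_mul {s s' : ℤ} {T T' : RM l} (h : T ∈ AA Λ l s) (h' : T' ∈ AA Λ l s') :
    T * T' ∈ AA Λ l (s + s') := by
  intro k k'
  have e : (fun τ => (T * T') τ k k')
      = ∑ k'' : Fin (l + 1), (fun τ => T τ k k'') * (fun τ => T' τ k'' k') := by
    funext τ
    simp [Matrix.mul_apply]
  rw [e]
  apply Submodule.sum_mem
  intro k'' _
  have := P_mul (h k k'') (h' k'' k')
  refine P_mono (le_of_eq ?_) this
  ring

lemma AA_one : (1 : RM l) ∈ AA Λ l 0 := by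
  intro k k'
  by_cases h : k = k'
  · subst h
    have e : (fun τ => (1 : RM l) τ k k) = fun _ => 1 := by
      funext τ
      simp
    rw [e]
    have := P_const 1
    refine P_mono (le_of_eq ?_) this
    ring
  · have e : (fun τ => (1 : RM l) τ k k') = 0 := by
      funext τ
      simp [Matrix.one_apply_ne h]
    rw [e]
    exact Submodule.zero_mem _

lemma AA_eq_zero {s : ℤ} (hs : (Λ : ℤ) * l < s) {T : RM l} (h : T ∈ AA Λ l s) : T = 0 := by
  funext τ
  ext k k'
  have := P_neg ?_ (h k k')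
  · exact congrFun this τ
  · have h1 : ((k' : ℕ) : ℤ) - ((k : ℕ) : ℤ) ≤ l := by
      have := k'.2
      omega
    have h2 : (Λ : ℤ) * (((k' : ℕ) : ℤ) - ((k : ℕ) : ℤ)) ≤ (Λ : ℤ) * l :=
      mul_le_mul_of_nonneg_left h1 (by positivity)
    linarith

lemma AA_pow {s : ℤ} {T : RM l} (h : T ∈ AA Λ l s) (n : ℕ) : T ^ n ∈ AA Λ l (n * s) := by
  induction n with
  | zero => simpa using AA_one
  | succ n ih =>
    rw [pow_succ]
    have := AA_mul ih h
    refine AA_anti (le_of_eq ?_) this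
    push_cast
    ring

lemma AA_nil {s : ℤ} (hs : 1 ≤ s) {T : RM l} (h : T ∈ AA Λ l s) : T ^ (Λ * l + 1) = 0 := by
  apply AA_eq_zero (s := ((Λ * l + 1 : ℕ) : ℤ) * s) _ (AA_pow h _)
  push_cast
  nlinarith [Int.natCast_nonneg Λ, Int.natCast_nonneg l, mul_nonneg (Int.natCast_nonneg Λ) (Int.natCast_nonneg l)]

/-- group of functions to invertible matrices -/
abbrev GM (l : ℕ) : Type := ℤ → (Matrix (Fin (l + 1)) (Fin (l + 1)) ℚ)ˣ

/-- underlying matrices -/
def vl : GM l →* RM l where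
  toFun u := fun τ => (u τ : Matrix (Fin (l + 1)) (Fin (l + 1)) ℚ)
  map_one' := rfl
  map_mul' _ _ := rfl

@[simp] lemma vl_apply (u : GM l) (τ : ℤ) : vl u τ = (u τ : Matrix _ _ ℚ) := rfl

/-- the subgroup `1 + AA s`, `s ≥ 1` -/
def GG (Λ l : ℕ) (s : ℤ) (hs : 1 ≤ s) : Subgroup (GM l) where
  carrier := {u | vl u - 1 ∈ AA Λ l s}
  mul_mem' := by
    intro a b ha hb
    show vl (a * b) - 1 ∈ AA Λ l s
    have e : vl (a * b) - 1 = (vl a - 1) * (vl b - 1) + (vl a - 1) + (vl b - 1) := by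
      rw [map_mul]; noncomm_ring
    rw [e]
    refine Submodule.add_mem _ (Submodule.add_mem _ ?_ ha) hb
    exact AA_anti (by linarith) (AA_mul ha hb)
  one_mem' := by
    show vl (1 : GM l) - 1 ∈ AA Λ l s
    rw [map_one, sub_self]
    exact Submodule.zero_mem _
  inv_mem' := by
    intro a ha
    show vl a⁻¹ - 1 ∈ AA Λ l s
    have hx : -(vl a - 1) ∈ AA Λ l s := Submodule.neg_mem _ ha
    set x : RM l := -(vl a - 1) with hxd
    have hn := AA_nil hs hx
    have hg := mul_neg_geom_sum x (Λ * l + 1)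
    rw [hn, sub_zero] at hg
    have h1 : (1 : RM l) - x = vl a := by rw [hxd]; abel
    rw [h1] at hg
    have h2 : vl a⁻¹ * vl a = 1 := by rw [← map_mul, inv_mul_cancel, map_one]
    have h3 : vl a⁻¹ = ∑ i ∈ Finset.range (Λ * l + 1), x ^ i := by
      calc vl a⁻¹ = vl a⁻¹ * (vl a * ∑ i ∈ Finset.range (Λ * l + 1), x ^ i) := by rw [hg, mul_one]
        _ = _ := by rw [← mul_assoc, h2, one_mul]
    rw [h3, Finset.sum_range_succ', pow_zero, add_sub_cancel_right]
    apply Submodule.sum_mem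
    intro i _
    have := AA_pow hx (i + 1)
    refine AA_anti ?_ this
    push_cast
    nlinarith [Int.natCast_nonneg i]

lemma mem_GG {s : ℤ} {hs : 1 ≤ s} {u : GM l} : u ∈ GG Λ l s hs ↔ vl u - 1 ∈ AA Λ l s := Iff.rfl

/-- shift of the variable by `c` -/
def sh (c : ℤ) : GM l →* GM l where
  toFun u := fun τ => u (τ + c)
  map_one' := rfl
  map_mul' _ _ := rfl

@[simp] lemma sh_apply (c : ℤ) (u : GM l) (τ : ℤ) : sh c u τ = u (τ + c) := rfl

lemma sh_mem {s : ℤ} {hs : 1 ≤ s} {u : GM l} (c : ℤ) (hu : u ∈ GG Λ l s hs) :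
    sh c u ∈ GG Λ l s hs := by
  rw [mem_GG] at hu ⊢
  intro k k'
  exact P_shift c (hu k k')

/-- solutions of a first order recursion over `ℤ` in a group -/
lemma exists_rec {U : Type*} [Group U] (C : ℤ → U) (r0 : U) :
    ∃ R : ℤ → U, R 0 = r0 ∧ ∀ τ, R (τ + 1) = C τ * R τ := by
  let σ : Equiv.Perm (ℤ × U) :=
    { toFun := fun p => (p.1 + 1, C p.1 * p.2)
      invFun := fun p => (p.1 - 1, (C (p.1 - 1))⁻¹ * p.2)
      left_inv := by
        intro p
        simp
      right_inv := by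
        intro p
        simp }
  have hfst : ∀ τ : ℤ, ((σ ^ τ) (0, r0)).1 = τ := by
    intro τ
    induction τ using Int.induction_on with
    | zero => simp
    | succ n ih =>
      rw [add_comm, _root_.zpow_add, _root_.zpow_one, Equiv.Perm.mul_apply]
      show ((σ ^ (n : ℤ)) (0, r0)).1 + 1 = _
      rw [ih]; ring
    | pred n ih =>
      rw [sub_eq_add_neg, add_comm, _root_.zpow_add, _root_.zpow_neg_one, Equiv.Perm.mul_apply]
      show ((σ ^ (-(n : ℤ))) (0, r0)).1 - 1 = _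
      rw [ih]; ring
  refine ⟨fun τ => ((σ ^ τ) (0, r0)).2, by simp, fun τ => ?_⟩
  show ((σ ^ (τ + 1)) (0, r0)).2 = _
  rw [add_comm, _root_.zpow_add, _root_.zpow_one, Equiv.Perm.mul_apply]
  show C ((σ ^ τ) (0, r0)).1 * ((σ ^ τ) (0, r0)).2 = _
  rw [hfst]

/-- the solution of `R(τ+1) = C(τ) R(τ)` is polynomial when `C` is -/
lemma rec_mem {C R : GM l} (hC : C ∈ GG Λ l 2 (by norm_num))
    (h0 : ∀ k k' : Fin (l + 1), k' ≤ k → (R 0 : Matrix _ _ ℚ) k k' = (1 : Matrix _ _ ℚ) k k')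
    (hΛ : 1 ≤ Λ)
    (hR : ∀ τ, R (τ + 1) = C τ * R τ) : R ∈ GG Λ l 1 le_rfl := by
  rw [mem_GG] at hC ⊢
  have key : ∀ m : ℕ, ∀ k : Fin (l + 1), (l : ℕ) - (k : ℕ) = m → ∀ k' : Fin (l + 1),
      (fun τ => (vl R - 1) τ k k') ∈ P ((Λ : ℤ) * (((k' : ℕ) : ℤ) - ((k : ℕ) : ℤ)) - 1) := by
    intro m
    induction m using Nat.strong_induction_on with
    | _ m ih =>
    intro k hk k'
    have hd : dl (fun τ => (vl R - 1) τ k k')
        = ∑ k'' : Fin (l + 1), (fun τ => (vl C - 1) τ k k'') * (fun τ => vl R τ k'' k') := by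
      funext τ
      have e1 : (vl R - 1) (τ + 1) - (vl R - 1) τ = (vl C - 1) τ * vl R τ := by
        simp only [Pi.sub_apply, Pi.one_apply, vl_apply, hR τ, Units.val_mul]
        noncomm_ring
      have e2 := congrFun (congrFun e1 k) k'
      rw [Matrix.mul_apply] at e2
      rw [dl_apply]
      simp only [Finset.sum_apply, Pi.mul_apply]
      rw [← e2]
      rfl
    have hdm : dl (fun τ => (vl R - 1) τ k k')
        ∈ P ((Λ : ℤ) * (((k' : ℕ) : ℤ) - ((k : ℕ) : ℤ)) - 2) := by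
      rw [hd]
      apply Submodule.sum_mem
      intro k'' _
      rcases le_or_gt (k'' : ℕ) (k : ℕ) with h | h
      · have : (fun τ => (vl C - 1) τ k k'') = 0 := by
          apply P_neg _ (hC k k'')
          have : (Λ : ℤ) * (((k'' : ℕ) : ℤ) - ((k : ℕ) : ℤ)) ≤ 0 :=
            mul_nonpos_of_nonneg_of_nonpos (by positivity) (by omega)
          linarith
        rw [this, zero_mul]
        exact Submodule.zero_mem _
      · have h1 := ih (l - (k'' : ℕ)) (by omega) k'' rfl k'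
        have h2 : (fun τ => vl R τ k'' k') ∈ P ((Λ : ℤ) * (((k' : ℕ) : ℤ) - ((k'' : ℕ) : ℤ))) := by
          have e : (fun τ => vl R τ k'' k')
              = (fun τ => (vl R - 1) τ k'' k') + (fun τ => (1 : RM l) τ k'' k') := by
            funext τ
            simp
          rw [e]
          refine Submodule.add_mem _ (P_mono (by linarith) h1) ?_
          have := (AA_one : (1 : RM l) ∈ AA Λ l 0) k'' k'
          exact P_mono (by linarith) this
        have h3 := P_mul (hC k k'') h2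
        refine P_mono (le_of_eq ?_) h3
        ring
    rcases lt_or_ge (k : ℕ) (k' : ℕ) with h | h
    · apply P_int
      · have : (Λ : ℤ) * (((k' : ℕ) : ℤ) - ((k : ℕ) : ℤ)) ≥ 1 * 1 :=
          mul_le_mul (by exact_mod_cast hΛ) (by omega) (by norm_num) (by positivity)
        linarith
      · refine P_mono (le_of_eq ?_) hdm
        ring
    · have hz : dl (fun τ => (vl R - 1) τ k k') = 0 := by
        apply P_neg _ hdm
        have : (Λ : ℤ) * (((k' : ℕ) : ℤ) - ((k : ℕ) : ℤ)) ≤ 0 :=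
          mul_nonpos_of_nonneg_of_nonpos (by positivity) (by omega)
        linarith
      have hc : (fun τ => (vl R - 1) τ k k') = 0 := by
        funext τ
        rw [const_of_dl hz τ]
        simp [h0 k k' h]
      rw [hc]
      exact Submodule.zero_mem _
  intro k k'
  exact key _ k rfl k'

end SH
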