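import Pool.Agent.Helper66.SH.Mat

/-! Two-sided recursions in unipotent groups of matrices over polynomial functions. -/

namespace SH

variable {Λ l : ℕ}

/-- solutions of the recursion `R(τ+1) = C(τ) R(τ) D(τ)` over `ℤ` in a group -/
lemma exists_rec2 {U : Type*} [Group U] (C D : ℤ → U) (r0 : U) :
    ∃ R : ℤ → U, R 0 = r0 ∧ ∀ τ, R (τ + 1) = C τ * R τ * D τ := by
  obtain ⟨Q, hQ0, hQ⟩ := exists_rec (fun τ => (D τ)⁻¹) (1 : U)
  obtain ⟨R, hR0, hR⟩ := exists_rec C r0
  refine ⟨fun τ => R τ * (Q τ)⁻¹, by simp [hQ0, hR0], fun τ => ?_⟩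
  simp only [hR, hQ, mul_inv_rev, inv_inv, mul_assoc]

lemma GG_entry_zero {s : ℤ} {hs : 1 ≤ s} {C : GM l} (hC : C ∈ GG Λ l s hs)
    {k k' : Fin (l + 1)} (h : (k' : ℕ) ≤ (k : ℕ)) : (fun τ => (vl C - 1) τ k k') = 0 := by
  apply P_neg _ (mem_GG.1 hC k k')
  have : (Λ : ℤ) * (((k' : ℕ) : ℤ) - ((k : ℕ) : ℤ)) ≤ 0 :=
    mul_nonpos_of_nonneg_of_nonpos (by positivity) (by omega)
  linarith

/-- the solution of `R(τ+1) = C(τ) R(τ) D(τ)` is polynomial when `C`, `D` are -/
lemma rec_mem2 {C D R : GM l} (hC : C ∈ GG Λ l 2 (by norm_num)) (hD : D ∈ GG Λ l 2 (by norm_num))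
    (h0 : ∀ k k' : Fin (l + 1), k' ≤ k → (R 0 : Matrix _ _ ℚ) k k' = (1 : Matrix _ _ ℚ) k k')
    (hΛ : 1 ≤ Λ)
    (hR : ∀ τ, R (τ + 1) = C τ * R τ * D τ) : R ∈ GG Λ l 1 le_rfl := by
  rw [mem_GG]
  have key : ∀ m : ℕ, ∀ k k' : Fin (l + 1), (k' : ℕ) + l - (k : ℕ) = m →
      (fun τ => (vl R - 1) τ k k') ∈ P ((Λ : ℤ) * (((k' : ℕ) : ℤ) - ((k : ℕ) : ℤ)) - 1) := by
    intro m
    induction m using Nat.strong_induction_on with
    | _ m ih =>
    intro k k' hk
    -- `R` entries of smaller distance
    have hRe : ∀ k1 k2 : Fin (l + 1), (k2 : ℕ) + l - (k1 : ℕ) < m →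
        (fun τ => vl R τ k1 k2) ∈ P ((Λ : ℤ) * (((k2 : ℕ) : ℤ) - ((k1 : ℕ) : ℤ))) := by
      intro k1 k2 hlt
      have h1 := ih _ hlt k1 k2 rfl
      have e : (fun τ => vl R τ k1 k2)
          = (fun τ => (vl R - 1) τ k1 k2) + (fun τ => (1 : RM l) τ k1 k2) := by
        funext τ
        simp
      rw [e]
      refine Submodule.add_mem _ (P_mono (by linarith) h1) ?_
      have := (AA_one : (1 : RM l) ∈ AA Λ l 0) k1 k2
      exact P_mono (by linarith) this
    have hd : dl (fun τ => (vl R - 1) τ k k')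
        = ∑ k1 : Fin (l + 1), ∑ k2 : Fin (l + 1), (fun τ => (vl C - 1) τ k k1)
            * (fun τ => vl R τ k1 k2) * (fun τ => (vl D) τ k2 k')
          + ∑ k1 : Fin (l + 1), (fun τ => vl R τ k k1) * (fun τ => (vl D - 1) τ k1 k') := by
      funext τ
      have e1 : (vl R - 1) (τ + 1) - (vl R - 1) τ
          = (vl C - 1) τ * (vl R τ * vl D τ) + vl R τ * (vl D - 1) τ := by
        simp only [Pi.sub_apply, Pi.one_apply, vl_apply, hR τ, Units.val_mul]
        noncomm_ring
      have e2 := congrFun (congrFun e1 k) k'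
      rw [Matrix.add_apply, Matrix.mul_apply, Matrix.mul_apply] at e2
      rw [dl_apply]
      simp only [Pi.add_apply, Finset.sum_apply, Pi.mul_apply]
      calc _ = ((vl R - 1) (τ + 1) - (vl R - 1) τ) k k' := rfl
        _ = _ := e2
        _ = _ := by
          congr 1
          apply Finset.sum_congr rfl
          intro k1 _
          rw [Matrix.mul_apply, Finset.mul_sum]
          apply Finset.sum_congr rfl
          intro k2 _
          ring
    have hdm : dl (fun τ => (vl R - 1) τ k k')
        ∈ P ((Λ : ℤ) * (((k' : ℕ) : ℤ) - ((k : ℕ) : ℤ)) - 2) := by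
      rw [hd]
      apply Submodule.add_mem
      · apply Submodule.sum_mem
        intro k1 _
        apply Submodule.sum_mem
        intro k2 _
        rcases le_or_gt (k1 : ℕ) (k : ℕ) with h | h
        · rw [GG_entry_zero hC h, zero_mul, zero_mul]
          exact Submodule.zero_mem _
        have hDe : (fun τ => vl D τ k2 k')
            = (fun τ => (vl D - 1) τ k2 k') + (fun τ => (1 : RM l) τ k2 k') := by
          funext τ
          simp
        rcases le_or_gt (k2 : ℕ) (k' : ℕ) with h2 | h2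
        · have hr := hRe k1 k2 (by omega)
          have hd1 : (fun τ => vl D τ k2 k') ∈ P ((Λ : ℤ) * (((k' : ℕ) : ℤ) - ((k2 : ℕ) : ℤ))) := by
            rw [hDe]
            refine Submodule.add_mem _ (P_mono (by linarith) (mem_GG.1 hD k2 k')) ?_
            have := (AA_one : (1 : RM l) ∈ AA Λ l 0) k2 k'
            exact P_mono (by linarith) this
          have h3 := P_mul (P_mul (mem_GG.1 hC k k1) hr) hd1
          refine P_mono (le_of_eq ?_) h3
          ring
        · have hz : (fun τ => vl D τ k2 k') = 0 := by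
            rw [hDe, GG_entry_zero hD (le_of_lt h2), zero_add]
            funext τ
            have : k2 ≠ k' := by
              rintro rfl
              exact lt_irrefl _ h2
            simp [Matrix.one_apply_ne this]
          rw [hz, mul_zero]
          exact Submodule.zero_mem _
      · apply Submodule.sum_mem
        intro k1 _
        rcases le_or_gt (k' : ℕ) (k1 : ℕ) with h | h
        · rw [GG_entry_zero hD h, mul_zero]
          exact Submodule.zero_mem _
        · have hkl : (k : ℕ) ≤ l := by have := k.2; omega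
          have hr := hRe k k1 (by omega)
          have h3 := P_mul hr (mem_GG.1 hD k1 k')
          refine P_mono (le_of_eq ?_) h3
          ring
    rcases lt_or_ge (k : ℕ) (k' : ℕ) with h | h
    · apply P_int
      · have : (Λ : ℤ) * (((k' : ℕ) : ℤ) - ((k : ℕ) : ℤ)) ≥ 1 * 1 :=
          mul_le_mul (by exact_mod_cast hΛ) (by omega) (by norm_num) (by positivity)
        linarith
      · refine P_mono (le_of_eq ?_) hdm
        ring
    · have hz : dl (fun τ => (vl R - 1) τ k k') = 0 := by
        apply P_neg _ hdm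
        have : (Λ : ℤ) * (((k' : ℕ) : ℤ) - ((k : ℕ) : ℤ)) ≤ 0 :=
          mul_nonpos_of_nonneg_of_nonpos (by positivity) (by omega)
        linarith
      have hc : (fun τ => (vl R - 1) τ k k') = 0 := by
        funext τ
        rw [const_of_dl hz τ]
        simp [h0 k k' h]
      rw [hc]
      exact Submodule.zero_mem _
  intro k k'
  exact key _ k k' rfl

end SH
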