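import Pool.Agent.Helper66.SH.Defs
import Pool.Agent.Helper66.SH.FiltL

/-! The surface group as an extension: elements are words in the conjugates of the
generators by powers of `b₀`, times a power of `b₀`. -/

namespace SH

/-- letters: `none` is `a₀`, `some ((i,ε),s)` is the conjugate by `b₀ ^ s` of the generator
`(i+1, ε)` -/
abbrev XX (g : ℕ) : Type := Option ((Fin g × Bool) × ℤ)

variable {g : ℕ}

/-- the generator `a₀` -/
def sa (g : ℕ) : SurfGrp (g + 1) := PresentedGroup.of (0, true)
/-- the generator `b₀` -/
def sb (g : ℕ) : SurfGrp (g + 1) := PresentedGroup.of (0, false)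
/-- the other generators -/
def sx (g : ℕ) (j : Fin g × Bool) : SurfGrp (g + 1) := PresentedGroup.of (j.1.succ, j.2)

/-- the product of the commutators of the other handles -/
def sc (g : ℕ) : SurfGrp (g + 1) := cprod (fun i : Fin g => sx g (i, true)) (fun i => sx g (i, false))

lemma cprod_succ {G : Type*} [Group G] (x y : Fin (g + 1) → G) :
    cprod x y = cm (x 0) (y 0) * cprod (fun i : Fin g => x i.succ) (fun i => y i.succ) := by
  simp [cprod, List.ofFn_succ]

lemma s_rel (g : ℕ) : cm (sa g) (sb g) * sc g = 1 := by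
  have h := surf_rel (g + 1)
  rw [cprod_succ] at h
  exact h

/-- `b a b⁻¹ = c a` -/
lemma s_conj (g : ℕ) : sb g * sa g * (sb g)⁻¹ = sc g * sa g := by
  have h := s_rel g
  have h1 : sc g = (cm (sa g) (sb g))⁻¹ := (inv_eq_of_mul_eq_one_right h).symm
  rw [h1]
  simp [cm, mul_assoc]

/-- the homomorphism from the free group on the letters -/
def io (g : ℕ) : FreeGroup (XX g) →* SurfGrp (g + 1) :=
  FreeGroup.lift fun x => match x with
    | none => sa g
    | some (j, s) => sb g ^ s * sx g j * (sb g ^ s)⁻¹

lemma io_none : io g (FreeGroup.of none) = sa g := by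
  simp [io]

lemma io_some (j : Fin g × Bool) (s : ℤ) :
    io g (FreeGroup.of (some (j, s))) = sb g ^ s * sx g j * (sb g ^ s)⁻¹ := by
  simp [io]

/-- the word of the product of commutators at level `s` -/
def cw (g : ℕ) (s : ℤ) : FreeGroup (XX g) :=
  cprod (fun i : Fin g => FreeGroup.of (some ((i, true), s)))
    (fun i => FreeGroup.of (some ((i, false), s)))

lemma cprod_conj {G : Type*} [Group G] (u : G) (x y : Fin g → G) :
    cprod (fun i => u * x i * u⁻¹) (fun i => u * y i * u⁻¹) = u * cprod x y * u⁻¹ := by
  have := map_cprod (MulAut.conj u).toMonoidHom x y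
  simp only [MulEquiv.coe_toMonoidHom, MulAut.conj_apply] at this
  exact this.symm

lemma io_cw (s : ℤ) : io g (cw g s) = sb g ^ s * sc g * (sb g ^ s)⁻¹ := by
  rw [cw, map_cprod, sc, ← cprod_conj]
  congr 1
  · funext i
    exact io_some _ _
  · funext i
    exact io_some _ _

lemma range_conj (ν : FreeGroup (XX g)) : sb g * io g ν * (sb g)⁻¹ ∈ (io g).range := by
  let β : FreeGroup (XX g) →* FreeGroup (XX g) := FreeGroup.lift fun x => match x with
    | none => cw g 0 * FreeGroup.of none
    | some (j, s) => FreeGroup.of (some (j, s + 1))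
  have h : (MulAut.conj (sb g)).toMonoidHom.comp (io g) = (io g).comp β := by
    apply FreeGroup.ext_hom
    rintro (_ | ⟨j, s⟩)
    · simp only [MonoidHom.comp_apply, MulEquiv.coe_toMonoidHom, MulAut.conj_apply, io_none, β,
        FreeGroup.lift_apply_of, map_mul, io_cw, zpow_zero, one_mul, inv_one, mul_one]
      exact s_conj g
    · simp only [MonoidHom.comp_apply, MulEquiv.coe_toMonoidHom, MulAut.conj_apply, io_some, β,
        FreeGroup.lift_apply_of]
      rw [add_comm s 1, zpow_add, zpow_one, mul_inv_rev]
      simp [mul_assoc]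
  have := DFunLike.congr_fun h ν
  simp only [MonoidHom.comp_apply, MulEquiv.coe_toMonoidHom, MulAut.conj_apply] at this
  exact ⟨β ν, this.symm⟩

lemma range_conj' (ν : FreeGroup (XX g)) : (sb g)⁻¹ * io g ν * sb g ∈ (io g).range := by
  let β : FreeGroup (XX g) →* FreeGroup (XX g) := FreeGroup.lift fun x => match x with
    | none => (cw g (-1))⁻¹ * FreeGroup.of none
    | some (j, s) => FreeGroup.of (some (j, s - 1))
  have h : (MulAut.conj (sb g)⁻¹).toMonoidHom.comp (io g) = (io g).comp β := by
    apply FreeGroup.ext_hom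
    rintro (_ | ⟨j, s⟩)
    · simp only [MonoidHom.comp_apply, MulEquiv.coe_toMonoidHom, MulAut.conj_apply, io_none, β,
        FreeGroup.lift_apply_of, map_mul, map_inv, io_cw, inv_inv, zpow_neg, zpow_one]
      have h := s_conj g
      have h2 : sa g = (sb g)⁻¹ * sc g * sa g * sb g := by
        rw [mul_assoc (sb g)⁻¹, ← h]
        simp [mul_assoc]
      nth_rewrite 2 [h2]
      simp [mul_assoc]
    · simp only [MonoidHom.comp_apply, MulEquiv.coe_toMonoidHom, MulAut.conj_apply, io_some, β,
        FreeGroup.lift_apply_of]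
      rw [sub_eq_add_neg, add_comm s (-1), zpow_add, zpow_neg_one, mul_inv_rev]
      simp [mul_assoc]
  have := DFunLike.congr_fun h ν
  simp only [MonoidHom.comp_apply, MulEquiv.coe_toMonoidHom, MulAut.conj_apply, inv_inv] at this
  exact ⟨β ν, this.symm⟩

lemma range_normal : (io g).range.Normal := by
  rw [← Subgroup.normalizer_eq_top_iff, eq_top_iff]
  intro x _
  apply PresentedGroup.generated_by _ (Subgroup.normalizer ((io g).range : Set (SurfGrp (g + 1))))
  rintro ⟨i, ε⟩
  induction i using Fin.cases with
  | zero =>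
    cases ε with
    | true =>
      apply Subgroup.le_normalizer
      exact ⟨FreeGroup.of none, io_none⟩
    | false =>
      rw [Subgroup.mem_normalizer_iff]
      intro h
      constructor
      · rintro ⟨ν, rfl⟩
        exact range_conj ν
      · rintro ⟨ν, hν⟩
        have := range_conj' ν
        rw [hν] at this
        convert this using 1
        show h = (sb g)⁻¹ * (sb g * h * (sb g)⁻¹) * sb g
        simp [mul_assoc]
  | succ i =>
    apply Subgroup.le_normalizer
    refine ⟨FreeGroup.of (some ((i, ε), 0)), ?_⟩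
    rw [io_some]
    simp [sx]

/-- every element is a word in the letters times a power of `b₀` -/
theorem normal_form (x : SurfGrp (g + 1)) : ∃ (ν : FreeGroup (XX g)) (e : ℤ),
    x = io g ν * sb g ^ e := by
  haveI := range_normal (g := g)
  have h : x ∈ (io g).range ⊔ Subgroup.zpowers (sb g) := by
    apply PresentedGroup.generated_by
    rintro ⟨i, ε⟩
    induction i using Fin.cases with
    | zero =>
      cases ε with
      | true => exact Subgroup.mem_sup_left ⟨FreeGroup.of none, io_none⟩
      | false => exact Subgroup.mem_sup_right (Subgroup.mem_zpowers (sb g))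
    | succ i =>
      apply Subgroup.mem_sup_left
      refine ⟨FreeGroup.of (some ((i, ε), 0)), ?_⟩
      rw [io_some]
      simp [sx]
  rw [Subgroup.mem_sup_of_normal_left] at h
  obtain ⟨y, ⟨ν, rfl⟩, z, hz, rfl⟩ := h
  obtain ⟨e, rfl⟩ := Subgroup.mem_zpowers_iff.1 hz
  exact ⟨ν, e, rfl⟩

end SH
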