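import Pool.Agent.Helper66.SH.TRep
import Pool.Agent.Helper66.SH.DefsP
import Pool.Agent.B3E.SurfU

/-! The groups `⟨t, a_j, Z | [a_j, t δ_j] c_j⟩` with words `c_j, δ_j` in `Z`. -/

namespace SH

section

variable {J Z : Type}

/-- words in `Z` -/
def zw (J : Type) : FreeGroup Z →* FreeGroup (Option (Z ⊕ J)) :=
  FreeGroup.map fun z => some (Sum.inl z)

/-- the relator `[a_j, t δ_j] c_j` with `t = none`, `a_j = some (inr j)` -/
def ptrel (c δ : J → FreeGroup Z) (j : J) : FreeGroup (Option (Z ⊕ J)) :=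
  cm (FreeGroup.of (some (Sum.inr j))) (FreeGroup.of none * zw J (δ j)) * zw J (c j)

/-- the group `⟨t, a_j, Z | [a_j, t δ_j] c_j⟩` -/
abbrev PT (c δ : J → FreeGroup Z) : Type := PresentedGroup (Set.range (ptrel c δ))

variable (c δ : J → FreeGroup Z)

/-- the generator `t` -/
def pt : PT c δ := PresentedGroup.of none
/-- the generators `a_j` -/
def pa (j : J) : PT c δ := PresentedGroup.of (some (Sum.inr j))
/-- the generators in `Z` -/
def pz (z : Z) : PT c δ := PresentedGroup.of (some (Sum.inl z))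
/-- words in `Z` -/
def pw : FreeGroup Z →* PT c δ := FreeGroup.lift (pz c δ)

lemma mk_zw (w : FreeGroup Z) :
    PresentedGroup.mk (Set.range (ptrel c δ)) (zw J w) = pw c δ w := by
  have e : (PresentedGroup.mk (Set.range (ptrel c δ))).comp (zw J) = pw c δ := by
    apply FreeGroup.ext_hom
    intro y
    unfold zw pw
    rw [MonoidHom.comp_apply, FreeGroup.map.of, FreeGroup.lift_apply_of]
    rfl
  exact DFunLike.congr_fun e w

/-- homomorphisms from `PT` -/
def plift {H : Type*} [Group H] (t : H) (a : J → H) (f : Z → H)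
    (h : ∀ j, cm (a j) (t * FreeGroup.lift f (δ j)) * FreeGroup.lift f (c j) = 1) : PT c δ →* H :=
  PresentedGroup.toGroup (f := fun p => match p with
    | none => t
    | some (Sum.inl z) => f z
    | some (Sum.inr j) => a j) (by
    rintro _ ⟨j, rfl⟩
    have e : ∀ w : FreeGroup Z, FreeGroup.lift (fun p : Option (Z ⊕ J) => match p with
        | none => t
        | some (Sum.inl z) => f z
        | some (Sum.inr j) => a j) (zw J w) = FreeGroup.lift f w := by
      intro w
      have e1 : (FreeGroup.lift (fun p : Option (Z ⊕ J) => match p with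
        | none => t
        | some (Sum.inl z) => f z
        | some (Sum.inr j) => a j)).comp (zw J) = FreeGroup.lift f := by
        apply FreeGroup.ext_hom
        intro y
        unfold zw
        rw [MonoidHom.comp_apply, FreeGroup.map.of, FreeGroup.lift_apply_of, FreeGroup.lift_apply_of]
      exact DFunLike.congr_fun e1 w
    unfold ptrel
    rw [map_mul, map_cm, map_mul, e, e, FreeGroup.lift_apply_of, FreeGroup.lift_apply_of]
    exact h j)

section

variable {c δ} {H : Type*} [Group H] (t : H) (a : J → H) (f : Z → H)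
    (h : ∀ j, cm (a j) (t * FreeGroup.lift f (δ j)) * FreeGroup.lift f (c j) = 1)

@[simp] lemma plift_t : plift c δ t a f h (pt c δ) = t := PresentedGroup.toGroup.of _
@[simp] lemma plift_a (j : J) : plift c δ t a f h (pa c δ j) = a j := PresentedGroup.toGroup.of _
@[simp] lemma plift_z (k : Z) : plift c δ t a f h (pz c δ k) = f k := PresentedGroup.toGroup.of _

lemma plift_w (w : FreeGroup Z) : plift c δ t a f h (pw c δ w) = FreeGroup.lift f w := by
  have e : (plift c δ t a f h).comp (pw c δ) = FreeGroup.lift f := by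
    apply FreeGroup.ext_hom
    intro y
    unfold pw
    rw [MonoidHom.comp_apply, FreeGroup.lift_apply_of, FreeGroup.lift_apply_of, plift_z]
  exact DFunLike.congr_fun e w

end

lemma pt_rel (j : J) : cm (pa c δ j) (pt c δ * pw c δ (δ j)) * pw c δ (c j) = 1 := by
  have h : (PresentedGroup.mk (Set.range (ptrel c δ))) (ptrel c δ j) = 1 :=
    PresentedGroup.one_of_mem ⟨j, rfl⟩
  have e : (PresentedGroup.mk (Set.range (ptrel c δ))) (ptrel c δ j)
      = cm (pa c δ j) (pt c δ * pw c δ (δ j)) * pw c δ (c j) := by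
    have e0 : ptrel c δ j = cm (FreeGroup.of (some (Sum.inr j)))
      (FreeGroup.of none * zw J (δ j)) * zw J (c j) := rfl
    rw [e0, map_mul, map_cm, map_mul, mk_zw, mk_zw]
    rfl
  rw [← e, h]

/-! ### the maps to and from `TQ` -/

/-- the words `ε⁻¹ δ_j` -/
def dd (ε : FreeGroup Z) (j : J) : FreeGroup Z := ε⁻¹ * δ j

/-- the words `c_j (ε⁻¹ δ_j)⁻¹` -/
def ll (ε : FreeGroup Z) (j : J) : FreeGroup Z := c j * (dd δ ε j)⁻¹

/-- the homomorphism `t ↦ t ε⁻¹`, `a_j ↦ (ε⁻¹ δ_j)⁻¹ a_j (ε⁻¹ δ_j)` -/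
def toT (ε : FreeGroup Z) : PT c δ →* TQ (ll c δ ε) (dd δ ε) :=
  plift c δ (tt _ _ * (tyw _ _ ε)⁻¹)
    (fun j => (tyw _ _ (dd δ ε j))⁻¹ * ta _ _ j * tyw _ _ (dd δ ε j)) (ty _ _) (by
    intro j
    have h := t_rel (ll c δ ε) (dd δ ε) j
    have e : ∀ w, FreeGroup.lift (ty (ll c δ ε) (dd δ ε)) w = tyw (ll c δ ε) (dd δ ε) w :=
      fun w => rfl
    have h2 : tyw (ll c δ ε) (dd δ ε) (ll c δ ε j) = tyw (ll c δ ε) (dd δ ε) (c j)
        * (tyw (ll c δ ε) (dd δ ε) (dd δ ε j))⁻¹ := by
      rw [← map_inv, ← map_mul]; rfl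
    have h4 : tyw (ll c δ ε) (dd δ ε) (δ j) = tyw (ll c δ ε) (dd δ ε) ε
        * tyw (ll c δ ε) (dd δ ε) (dd δ ε j) := by
      rw [← map_mul]
      congr 1
      unfold dd
      rw [mul_inv_cancel_left]
    rw [h2] at h
    rw [e, e, h4]
    generalize tyw (ll c δ ε) (dd δ ε) (c j) = C at *
    generalize tyw (ll c δ ε) (dd δ ε) (dd δ ε j) = D at *
    generalize tyw (ll c δ ε) (dd δ ε) ε = E at *
    have h3 : C = tt (ll c δ ε) (dd δ ε) * ta (ll c δ ε) (dd δ ε) j * (tt (ll c δ ε) (dd δ ε))⁻¹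
        * D⁻¹ * (ta (ll c δ ε) (dd δ ε) j)⁻¹ * D := by
      rw [h]; simp [mul_assoc]
    rw [h3]
    simp [cm, mul_assoc])

/-- `t δ a δ⁻¹ t⁻¹ = c a` -/
lemma pt_conj (j : J) : pt c δ * pw c δ (δ j) * pa c δ j * (pt c δ * pw c δ (δ j))⁻¹
    = pw c δ (c j) * pa c δ j := by
  have h := pt_rel c δ j
  have h1 : pw c δ (c j) = (cm (pa c δ j) (pt c δ * pw c δ (δ j)))⁻¹ :=
    (inv_eq_of_mul_eq_one_right h).symm
  rw [h1]
  simp [cm, mul_assoc]

/-- a left inverse of `toT c δ 1` -/
def fromT : TQ (ll c δ 1) (dd δ 1) →* PT c δ :=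
  tlift _ _ (pt c δ) (pz c δ)
    (fun j => pw c δ (δ j) * pa c δ j * (pw c δ (δ j))⁻¹) (by
    intro j
    have e : ∀ w : FreeGroup Z, FreeGroup.lift (pz c δ) w = pw c δ w := fun w => rfl
    have h := pt_conj c δ j
    have e1 : dd δ 1 j = δ j := by simp [dd]
    have e2 : ll c δ 1 j = c j * (δ j)⁻¹ := by simp [ll, dd]
    rw [e, e, e1, e2, map_mul, map_inv]
    rw [mul_inv_rev] at h
    have h2 : pt c δ * (pw c δ (δ j) * pa c δ j * (pw c δ (δ j))⁻¹) * (pt c δ)⁻¹
        = pt c δ * pw c δ (δ j) * pa c δ j * ((pw c δ (δ j))⁻¹ * (pt c δ)⁻¹) := by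
      simp [mul_assoc]
    rw [h2, h]
    simp [mul_assoc])

lemma fromT_toT (s : PT c δ) : fromT c δ (toT c δ 1 s) = s := by
  have h : (fromT c δ).comp (toT c δ 1) = MonoidHom.id _ := by
    apply PresentedGroup.ext
    have e1 : ∀ j, dd δ 1 j = δ j := fun j => by simp [dd]
    rintro (_ | (z | j))
    · show fromT c δ (toT c δ 1 (pt c δ)) = pt c δ
      unfold toT fromT
      rw [plift_t, map_mul, map_inv, tlift_t, tlift_yw, map_one, inv_one, mul_one]
    · show fromT c δ (toT c δ 1 (pz c δ z)) = pz c δ z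
      unfold toT fromT
      rw [plift_z, tlift_y]
    · show fromT c δ (toT c δ 1 (pa c δ j)) = pa c δ j
      have e : ∀ w : FreeGroup Z, FreeGroup.lift (pz c δ) w = pw c δ w := fun w => rfl
      unfold toT fromT
      rw [plift_a, map_mul, map_mul, map_inv, tlift_a, tlift_yw, e, e1]
      simp [mul_assoc]
  exact DFunLike.congr_fun h s

/-- **the groups `⟨t, a_j, Z | [a_j, t δ_j] c_j⟩` are residually unipotent** -/
theorem resUnip_PT : ResUnip (PT c δ) := by
  intro a ha
  obtain ⟨E, i1, i2, F, ψ, h1, h2⟩ := resUnip_TQ (ll c δ 1) (dd δ 1) (toT c δ 1 a) (by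
      intro h
      apply ha
      rw [← fromT_toT c δ a, h, map_one])
  exact ⟨E, i1, i2, F, ψ.comp (toT c δ 1), fun x => h1 _, h2⟩

end

/-! ### surfaces -/

section

variable {J Z : Type} (g : J → ℕ) (x y : ∀ j, Fin (g j) → FreeGroup Z) (δ : J → FreeGroup Z)

/-- the words `c_j` -/
def cc (j : J) : FreeGroup Z := cprod (x j) (y j)

/-- the surface group of genus `g_j + 1` in `PT`, for `c_j = [x_j0,y_j0][x_j1,y_j1]⋯` -/
def surfPT (j : J) : SurfGrp (g j + 1) →* PT (cc g x y) δ :=
  PresentedGroup.toGroup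
    (f := fun p : Fin (g j + 1) × Bool => if p.2
      then hx (g j) (pa (cc g x y) δ j) (fun i => pw (cc g x y) δ (x j i)) p.1
      else hx (g j) (pt (cc g x y) δ * pw (cc g x y) δ (δ j))
        (fun i => pw (cc g x y) δ (y j i)) p.1) (by
    intro r hr
    rw [Set.mem_singleton_iff] at hr
    rw [hr]
    unfold srel
    rw [map_cprod]
    simp only [FreeGroup.lift_apply_of, if_true, Bool.false_eq_true, if_false]
    rw [cprod_succ]
    show cm (pa (cc g x y) δ j) (pt (cc g x y) δ * pw (cc g x y) δ (δ j))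
      * cprod (fun i => pw (cc g x y) δ (x j i)) (fun i => pw (cc g x y) δ (y j i)) = 1
    rw [← map_cprod]
    exact pt_rel (cc g x y) δ j)

lemma surfPT_a (j : J) (i : Fin (g j + 1)) : surfPT g x y δ j (ga i)
    = hx (g j) (pa (cc g x y) δ j) (fun i => pw (cc g x y) δ (x j i)) i := by
  unfold surfPT ga
  rw [PresentedGroup.toGroup.of]
  simp

lemma surfPT_b (j : J) (i : Fin (g j + 1)) : surfPT g x y δ j (gb i)
    = hx (g j) (pt (cc g x y) δ * pw (cc g x y) δ (δ j)) (fun i => pw (cc g x y) δ (y j i)) i := by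
  unfold surfPT gb
  rw [PresentedGroup.toGroup.of]
  simp

/-- letters of the `j`-th surface -/
def lt {J Z : Type} (j : J) : Option (Z × ℤ) → TX Z J
  | none => Sum.inl j
  | some (z, t) => Sum.inr (z, t)

lemma lt_injective {J Z : Type} (j : J) : Function.Injective (lt (Z := Z) j) := by
  rintro (_ | ⟨z, t⟩) (_ | ⟨z', t'⟩) h
  · rfl
  · simp [lt] at h
  · simp [lt] at h
  · simp only [lt, Sum.inr.injEq, Prod.mk.injEq] at h
    rw [h.1, h.2]

/-- if the `x_ji, y_ji` are free generators of a free subgroup of `FreeGroup Z` for this `j`,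
then the `j`-th surface group is a subgroup of `PT` -/
theorem surfPT_inj (j : J)
    (h : Function.Injective
      (FreeGroup.lift fun p : Fin (g j) × Bool => if p.2 then x j p.1 else y j p.1)) :
    Function.Injective (surfPT g x y δ j) := by
  set c := cc g x y with hc
  set θ : FreeGroup (Fin (g j) × Bool) →* FreeGroup Z :=
    FreeGroup.lift fun p : Fin (g j) × Bool => if p.2 then x j p.1 else y j p.1 with hθ
  have hdd : dd δ (δ j) j = 1 := by simp [dd]
  have hb : toT c δ (δ j) (surfPT g x y δ j (sb (g j))) = tt (ll c δ (δ j)) (dd δ (δ j)) := by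
    have : surfPT g x y δ j (sb (g j)) = pt c δ * pw c δ (δ j) := surfPT_b g x y δ j 0
    rw [this, map_mul]
    unfold toT
    rw [plift_t, plift_w]
    exact inv_mul_cancel_right _ _
  have ha : toT c δ (δ j) (surfPT g x y δ j (sa (g j))) = ta (ll c δ (δ j)) (dd δ (δ j)) j := by
    have : surfPT g x y δ j (sa (g j)) = pa c δ j := surfPT_a g x y δ j 0
    rw [this]
    unfold toT
    rw [plift_a, hdd, map_one, mul_one, inv_one, one_mul]
  have hx' : ∀ p : Fin (g j) × Bool, toT c δ (δ j) (surfPT g x y δ j (sx (g j) p))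
      = tyw (ll c δ (δ j)) (dd δ (δ j)) (θ (FreeGroup.of p)) := by
    rintro ⟨i, ε⟩
    have : surfPT g x y δ j (sx (g j) (i, ε)) = pw c δ (θ (FreeGroup.of (i, ε))) := by
      rw [hθ, FreeGroup.lift_apply_of]
      cases ε
      · exact surfPT_b g x y δ j i.succ
      · exact surfPT_a g x y δ j i.succ
    rw [this]
    unfold toT
    rw [plift_w]
    rfl
  -- the image of a word
  have hio : ∀ ν : FreeGroup (XX (g j)), toT c δ (δ j) (surfPT g x y δ j (io (g j) ν)) =
      tio (ll c δ (δ j)) (dd δ (δ j)) (FreeGroup.map (lt j) (SurfU.lev θ ν)) := by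
    intro ν
    have h1 : ((toT c δ (δ j)).comp (surfPT g x y δ j)).comp (io (g j)) =
        ((tio (ll c δ (δ j)) (dd δ (δ j))).comp (FreeGroup.map (lt j))).comp (SurfU.lev θ) := by
      apply FreeGroup.ext_hom
      rintro (_ | ⟨⟨i, ε⟩, t⟩)
      · have h2 : SurfU.lev θ (FreeGroup.of none) = FreeGroup.of none := FreeGroup.lift_apply_of
        simp only [MonoidHom.comp_apply]
        rw [io_none, h2, FreeGroup.map.of, ha]
        exact (tio_a _ _ j).symm
      · have h2 : SurfU.lev θ (FreeGroup.of (some ((i, ε), t))) =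
            FreeGroup.map (fun z => some (z, t)) (θ (FreeGroup.of (i, ε))) :=
          FreeGroup.lift_apply_of
        simp only [MonoidHom.comp_apply]
        rw [io_some, h2]
        simp only [map_mul, map_inv, map_zpow]
        rw [hb, hx', FreeGroup.map.comp, ← tio_lvl]
        rfl
    exact DFunLike.congr_fun h1 ν
  rw [injective_iff_map_eq_one]
  intro s hs
  obtain ⟨ν, e, rfl⟩ := normal_form s
  have hs' := congrArg (toT c δ (δ j)) hs
  rw [map_mul, map_zpow, map_mul, map_zpow, hb, hio, map_one] at hs'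
  have he : e = 0 := by
    have h4 := congrArg (texp (ll c δ (δ j)) (dd δ (δ j))) hs'
    rw [map_mul, texp_tio, one_mul, map_zpow, map_one] at h4
    unfold texp at h4
    rw [tlift_t, ← ofAdd_zsmul] at h4
    have h5 : (e • (1 : ℤ)) = 0 := Multiplicative.ofAdd.injective h4
    simpa using h5
  subst he
  rw [zpow_zero, mul_one] at hs' ⊢
  have h5 : FreeGroup.map (lt j) (SurfU.lev θ ν) = 1 :=
    tio_injective _ _ (hs'.trans (map_one _).symm)
  have h6 : SurfU.lev θ ν = 1 := FreeGroup.map_injective (lt_injective j) (h5.trans (map_one _).symm)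
  have h7 : ν = 1 := SurfU.lev_inj θ h (h6.trans (map_one _).symm)
  rw [h7, map_one]

end

end SH
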