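import Mathlib

/-! Polynomial functions on `ℤ`, defined by iterated differences. -/

namespace SH

/-- forward difference -/
def dl : (ℤ → ℚ) →ₗ[ℚ] (ℤ → ℚ) where
  toFun h := fun τ => h (τ + 1) - h τ
  map_add' f g := by funext τ; simp; ring
  map_smul' c f := by funext τ; simp; ring

@[simp] lemma dl_apply (h : ℤ → ℚ) (τ : ℤ) : dl h τ = h (τ + 1) - h τ := rfl

/-- polynomial functions of degree `< n` -/
def Pn : ℕ → Submodule ℚ (ℤ → ℚ)
  | 0 => ⊥
  | (n + 1) => (Pn n).comap dl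

lemma mem_Pn_succ {n : ℕ} {h : ℤ → ℚ} : h ∈ Pn (n + 1) ↔ dl h ∈ Pn n := Iff.rfl

lemma mem_Pn_zero {h : ℤ → ℚ} : h ∈ Pn 0 ↔ h = 0 := by
  show h ∈ (⊥ : Submodule ℚ (ℤ → ℚ)) ↔ _
  simp

lemma Pn_le_succ (n : ℕ) : Pn n ≤ Pn (n + 1) := by
  induction n with
  | zero => exact bot_le
  | succ n ih => exact Submodule.comap_mono ih

lemma Pn_mono {m n : ℕ} (h : m ≤ n) : Pn m ≤ Pn n := by
  induction h with
  | refl => exact le_rfl
  | step _ ih => exact ih.trans (Pn_le_succ _)

lemma Pn_shift {n : ℕ} (c : ℤ) : ∀ {h : ℤ → ℚ}, h ∈ Pn n → (fun τ => h (τ + c)) ∈ Pn n := by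
  induction n with
  | zero =>
    intro h hh
    rw [mem_Pn_zero] at hh ⊢
    subst hh
    rfl
  | succ n ih =>
    intro h hh
    rw [mem_Pn_succ] at hh ⊢
    have := ih hh
    convert this using 1
    funext τ
    simp only [dl_apply]
    rw [show τ + 1 + c = τ + c + 1 by ring]

lemma Pn_mul {m n : ℕ} {f g : ℤ → ℚ} (hf : f ∈ Pn (m + 1)) (hg : g ∈ Pn (n + 1)) :
    f * g ∈ Pn (m + n + 1) := by
  induction hs : m + n using Nat.strong_induction_on generalizing m n f g with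
  | _ s ih =>
    subst hs
    rw [mem_Pn_succ]
    have e : dl (f * g) = dl f * (fun τ => g (τ + 1)) + f * dl g := by
      funext τ
      simp only [dl_apply, Pi.mul_apply, Pi.add_apply]
      ring
    rw [e]
    apply Submodule.add_mem
    · rw [mem_Pn_succ] at hf
      rcases m with _ | m
      · rw [mem_Pn_zero] at hf
        rw [hf, zero_mul]
        exact Submodule.zero_mem _
      · have := ih (m + n) (by omega) hf (Pn_shift 1 hg) rfl
        rwa [show m + 1 + n = m + n + 1 by ring]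
    · rw [mem_Pn_succ] at hg
      rcases n with _ | n
      · rw [mem_Pn_zero] at hg
        rw [hg, mul_zero]
        exact Submodule.zero_mem _
      · exact ih (m + n) (by omega) hf hg rfl

/-- polynomial functions of degree `≤ a` (only `0` when `a < 0`) -/
def P (a : ℤ) : Submodule ℚ (ℤ → ℚ) := Pn (a + 1).toNat

lemma P_mono {a b : ℤ} (h : a ≤ b) : P a ≤ P b := Pn_mono (by omega)

lemma P_neg {a : ℤ} (ha : a < 0) {h : ℤ → ℚ} (hh : h ∈ P a) : h = 0 := by
  unfold P at hh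
  rw [show (a + 1).toNat = 0 by omega, mem_Pn_zero] at hh
  exact hh

lemma P_shift {a : ℤ} (c : ℤ) {h : ℤ → ℚ} (hh : h ∈ P a) : (fun τ => h (τ + c)) ∈ P a :=
  Pn_shift c hh

lemma P_mul {a b : ℤ} {f g : ℤ → ℚ} (hf : f ∈ P a) (hg : g ∈ P b) : f * g ∈ P (a + b) := by
  rcases lt_or_ge a 0 with ha | ha
  · rw [P_neg ha hf, zero_mul]; exact Submodule.zero_mem _
  rcases lt_or_ge b 0 with hb | hb
  · rw [P_neg hb hg, mul_zero]; exact Submodule.zero_mem _
  unfold P at *
  have h1 : (a + 1).toNat = a.toNat + 1 := by omega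
  have h2 : (b + 1).toNat = b.toNat + 1 := by omega
  have h3 : (a + b + 1).toNat = a.toNat + b.toNat + 1 := by omega
  rw [h1] at hf
  rw [h2] at hg
  rw [h3]
  exact Pn_mul hf hg

lemma P_dl {a : ℤ} {h : ℤ → ℚ} (hh : h ∈ P a) : dl h ∈ P (a - 1) := by
  rcases lt_or_ge a 0 with ha | ha
  · rw [P_neg ha hh, map_zero]; exact Submodule.zero_mem _
  unfold P at *
  rw [show (a + 1).toNat = (a - 1 + 1).toNat + 1 by omega] at hh
  exact hh

lemma P_int {a : ℤ} (ha : 0 ≤ a) {h : ℤ → ℚ} (hh : dl h ∈ P (a - 1)) : h ∈ P a := by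
  unfold P at *
  rw [show (a + 1).toNat = (a - 1 + 1).toNat + 1 by omega]
  exact hh

lemma const_of_dl {h : ℤ → ℚ} (hh : dl h = 0) (τ : ℤ) : h τ = h 0 := by
  have step : ∀ n : ℤ, h (n + 1) = h n := fun n => by
    have := congrFun hh n
    simp only [dl_apply, Pi.zero_apply] at this
    linarith
  induction τ using Int.induction_on with
  | zero => rfl
  | succ n ih => rw [step, ih]
  | pred n ih => rw [← ih, ← step]; congr 1; ring

lemma P_const (c : ℚ) : (fun _ => c) ∈ P 0 := by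
  apply P_int le_rfl
  have : dl (fun _ => c) = 0 := by funext τ; simp
  rw [this]
  exact Submodule.zero_mem _

lemma P_lin (c : ℤ) (q : ℚ) : (fun τ : ℤ => ((τ : ℚ) - c) * q) ∈ P 1 := by
  apply P_int (by norm_num)
  have : dl (fun τ : ℤ => ((τ : ℚ) - c) * q) = fun _ => q := by
    funext τ
    simp only [dl_apply]
    push_cast
    ring
  rw [this]
  exact P_const q

lemma P_prod (S : Finset ℤ) (c : ℤ → ℚ) :
    (fun τ : ℤ => ∏ i ∈ S, ((τ : ℚ) - i) * c i) ∈ P (S.card : ℤ) := by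
  classical
  induction S using Finset.induction_on with
  | empty => simpa using P_const 1
  | insert a S ha ih =>
    have e : (fun τ : ℤ => ∏ i ∈ insert a S, ((τ : ℚ) - i) * c i)
        = (fun τ : ℤ => ((τ : ℚ) - a) * c a) * (fun τ : ℤ => ∏ i ∈ S, ((τ : ℚ) - i) * c i) := by
      funext τ
      rw [Finset.prod_insert ha]
      rfl
    rw [e, Finset.card_insert_of_notMem ha]
    have := P_mul (P_lin a (c a)) ih
    rwa [show ((S.card + 1 : ℕ) : ℤ) = 1 + (S.card : ℤ) by push_cast; ring]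

/-- interpolation: a polynomial function with value `1` at `i₀` and `0` at the other
points of `S` -/
noncomputable def interp (S : Finset ℤ) (i₀ : ℤ) : ℤ → ℚ :=
  fun τ => ∏ i ∈ S.erase i₀, ((τ : ℚ) - i) * ((i₀ : ℚ) - i)⁻¹

lemma interp_mem (S : Finset ℤ) (i₀ : ℤ) : interp S i₀ ∈ P (S.card : ℤ) :=
  P_mono (by exact_mod_cast Finset.card_erase_le) (P_prod (S.erase i₀) fun i => ((i₀ : ℚ) - i)⁻¹)

lemma interp_self (S : Finset ℤ) (i₀ : ℤ) : interp S i₀ i₀ = 1 := by
  unfold interp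
  apply Finset.prod_eq_one
  intro i hi
  have : (i₀ : ℚ) - i ≠ 0 := by
    rw [sub_ne_zero]
    intro h
    exact Finset.ne_of_mem_erase hi (by exact_mod_cast h.symm)
  field_simp

lemma interp_ne (S : Finset ℤ) {i₀ i : ℤ} (hi : i ∈ S) (h : i ≠ i₀) : interp S i₀ i = 0 := by
  unfold interp
  exact Finset.prod_eq_zero (Finset.mem_erase.2 ⟨h, hi⟩) (by simp)

end SH
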