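import Pool.Agent.Helper66.SH.Surf2
import Pool.Agent.Helper66.SH.DefsP
import Pool.Agent.Helper66.SH.Rep

/-! Presentations with homologically independent handles. -/

namespace SH

section general

variable {G : Type*} [Group G]

/-- class of an element in first homology -/
noncomputable def cl1 (x : G) : H1 G := cl1' G (Finsupp.single x 1)

lemma cl1_mul (x y : G) : cl1 (x * y) = cl1 x + cl1 y := by
  unfold cl1
  have h : cl1' G (d2 G (Finsupp.single (x, y) 1)) = 0 := cl1'_d2 _
  rw [d2_single, one_smul, map_add, map_sub] at h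
  rw [← sub_eq_zero, ← neg_eq_zero, ← h]
  abel

lemma h1_cl1 {H : Type*} [Group H] (f : G →* H) (x : G) : h1 f (cl1 x) = cl1 (f x) := by
  unfold cl1
  rw [h1_cl, c1_single]

/-- linear maps on first homology agree when they agree on classes of elements -/
lemma H1_ext {V : Type*} [AddCommGroup V] [Module ℚ V] {φ ψ : H1 G →ₗ[ℚ] V}
    (h : ∀ x, φ (cl1 x) = ψ (cl1 x)) : φ = ψ := by
  have h1 : φ.comp (cl1' G) = ψ.comp (cl1' G) := by
    apply Finsupp.lhom_ext'
    intro x
    apply LinearMap.ext_ring
    exact h x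
  apply LinearMap.ext
  intro β
  obtain ⟨z, rfl⟩ := cl1'_surj G β
  exact LinearMap.congr_fun h1 z

/-- the linear map on first homology of an additive function -/
noncomputable def addLift {V : Type*} [AddCommGroup V] [Module ℚ V] (χ : G → V)
    (hχ : ∀ x y, χ (x * y) = χ x + χ y) : H1 G →ₗ[ℚ] V :=
  lift1 (Finsupp.lsum ℚ fun x => LinearMap.toSpanSingleton ℚ V (χ x)) (by
      intro z
      rw [← LinearMap.comp_apply]
      have : (Finsupp.lsum ℚ fun x => LinearMap.toSpanSingleton ℚ V (χ x)).comp (d2 G) = 0 := by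
        apply Finsupp.lhom_ext
        rintro ⟨x, y⟩ q
        rw [LinearMap.comp_apply, d2_single, map_smul, map_add, map_sub]
        simp [LinearMap.toSpanSingleton_apply, hχ x y]
      rw [this]
      rfl)

@[simp] lemma addLift_cl1 {V : Type*} [AddCommGroup V] [Module ℚ V] (χ : G → V)
    (hχ : ∀ x y, χ (x * y) = χ x + χ y) (x : G) : addLift χ hχ (cl1 x) = χ x := by
  show (Finsupp.lsum ℚ fun x => LinearMap.toSpanSingleton ℚ V (χ x)) (Finsupp.single x 1) = _
  simp [LinearMap.toSpanSingleton_apply]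

open Classical in
lemma h1sum_of {J : Type*} {A : J → Type*} [∀ j, Group (A j)]
    (f : ∀ j, A j →* G) (j : J) (β : H1 (A j)) :
    h1sum f (DirectSum.lof ℚ J (fun j => H1 (A j)) j β) = h1 (f j) β :=
  DirectSum.toModule_lof (M := fun j => H1 (A j)) ℚ j β

open Classical in
lemma h2sum_of {J : Type*} {A : J → Type*} [∀ j, Group (A j)]
    (f : ∀ j, A j →* G) (j : J) (β : H2 (A j)) :
    h2sum f (DirectSum.lof ℚ J (fun j => H2 (A j)) j β) = h2 (f j) β :=
  DirectSum.toModule_lof (M := fun j => H2 (A j)) ℚ j β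

open Classical in
/-- if additive functions extend, the sum of the maps in first homology is injective -/
theorem h1sum_inj_of_ext {J : Type*} {A : J → Type*} [∀ j, Group (A j)] (f : ∀ j, A j →* G)
    (h : ∀ χ : ∀ j, A j → ℚ, (∀ j a b, χ j (a * b) = χ j a + χ j b) →
      ∃ c : G → ℚ, (∀ x y, c (x * y) = c x + c y) ∧ ∀ j a, c (f j a) = χ j a) :
    Function.Injective (h1sum f) := by
  rw [injective_iff_map_eq_zero]
  intro z hz
  by_contra hne
  obtain ⟨ℓ, hℓ, -⟩ := Submodule.exists_le_ker_of_notMem (K := ℚ)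
    (p := (⊥ : Submodule ℚ (DirectSum J fun j => H1 (A j)))) (v := z) (by simpa using hne)
  apply hℓ
  obtain ⟨c, hc, hcj⟩ := h
    (fun j a => ℓ (DirectSum.lof ℚ J (fun j => H1 (A j)) j (cl1 a))) (by
      intro j a b
      rw [cl1_mul, map_add, map_add])
  have e : ℓ = (addLift c hc).comp (h1sum f) := by
    apply DirectSum.linearMap_ext
    intro j
    apply H1_ext
    intro a
    rw [LinearMap.comp_apply, LinearMap.comp_apply, LinearMap.comp_apply, h1sum_of, h1_cl1,
      addLift_cl1, hcj]
  rw [e, LinearMap.comp_apply, hz, map_zero]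

end general

section cup

variable {G : Type*} [Group G]

lemma coc_cup (φ ψ : G → ℚ) (hφ : ∀ x y, φ (x * y) = φ x + φ y)
    (hψ : ∀ x y, ψ (x * y) = ψ x + ψ y) : IsCoc fun x y => φ x * ψ y := by
  intro x y z
  simp only [hφ, hψ]
  ring

lemma add_one' {φ : G → ℚ} (hφ : ∀ x y, φ (x * y) = φ x + φ y) : φ 1 = 0 := by
  have := hφ 1 1
  rw [mul_one] at this
  linarith

lemma add_inv' {φ : G → ℚ} (hφ : ∀ x y, φ (x * y) = φ x + φ y) (x : G) : φ x⁻¹ = -φ x := by
  have := hφ x x⁻¹
  rw [mul_inv_cancel, add_one' hφ] at this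
  linarith

lemma letters_succ {g : ℕ} (x y : Fin (g + 1) → G) :
    letters x y = x 0 :: y 0 :: (x 0)⁻¹ :: (y 0)⁻¹ :: letters (fun i => x i.succ) (fun i => y i.succ) := by
  simp [letters, List.ofFn_succ]

/-- **cup products**: the value on the class of a surface -/
lemma lin_cup (φ ψ : G → ℚ) (hφ : ∀ x y, φ (x * y) = φ x + φ y)
    (hψ : ∀ x y, ψ (x * y) = ψ x + ψ y) {g : ℕ} (x y : Fin g → G) :
    lin (fun x y => φ x * ψ y) (sfc x y) = ∑ i, (φ (x i) * ψ (y i) - φ (y i) * ψ (x i)) := by
  have key : ∀ (g : ℕ) (p : G) (x y : Fin g → G), lin (fun x y => φ x * ψ y) (fan p (letters x y))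
      = ∑ i, (φ (x i) * ψ (y i) - φ (y i) * ψ (x i) - φ (x i) * ψ (x i) - φ (y i) * ψ (y i)) := by
    intro g
    induction g with
    | zero => intro p x y; simp [letters, fan]
    | succ g ih =>
      intro p x y
      rw [letters_succ, Fin.sum_univ_succ]
      simp only [fan, map_add, lin_single, one_smul, ih, hφ, add_inv' hφ, add_inv' hψ]
      ring
  unfold sfc
  rw [map_sub, key, map_sum, ← Finset.sum_sub_distrib]
  apply Finset.sum_congr rfl
  intro i _
  rw [map_add, map_add, map_smul, lin_single, lin_single, lin_single, add_inv' hψ, add_inv' hψ,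
    add_one' hφ]
  simp only [one_smul, zero_mul, smul_zero]
  ring

/-- evaluation of a cocycle on second homology -/
noncomputable def evC (c : G → G → ℚ) (hc : IsCoc c) : H2 G →ₗ[ℚ] ℚ :=
  lift2 ((lin c).comp (Z2 G).subtype) (by
    intro z w hw
    rw [LinearMap.comp_apply, Submodule.subtype_apply, ← hw, lin_d3 hc])

lemma evC_fund (c : G → G → ℚ) (hc : IsCoc c) {g : ℕ} (f : SurfGrp g →* G) :
    evC c hc (h2 f (fundCl g)) = lin c (sfc (fun i => f (ga i)) (fun i => f (gb i))) := by
  show lin c (c2 f (sfc (fun i => ga i) (fun i => gb i))) = _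
  rw [c2_sfc]

/-- an additive function on a surface group with prescribed values on the generators -/
lemma exists_add (g : ℕ) (v : Fin g × Bool → ℚ) : ∃ χ : SurfGrp g → ℚ,
    (∀ x y, χ (x * y) = χ x + χ y) ∧ ∀ p, χ (PresentedGroup.of p) = v p := by
  let σ : SurfGrp g →* Multiplicative ℚ :=
    PresentedGroup.toGroup (f := fun p => Multiplicative.ofAdd (v p)) (by
      intro r hr
      rw [Set.mem_singleton_iff] at hr
      rw [hr]
      unfold srel
      rw [map_cprod]
      exact cprod_comm _ _)
  refine ⟨fun x => Multiplicative.toAdd (σ x), fun x y => ?_, fun p => ?_⟩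
  · show Multiplicative.toAdd (σ (x * y)) = _
    rw [map_mul]; rfl
  · show Multiplicative.toAdd (σ (PresentedGroup.of p)) = _
    rw [PresentedGroup.toGroup.of]
    rfl

/-- the classes of surfaces of positive genus with independent handles are independent -/
theorem fund_indep {J : Type*} (γ : J → ℕ) (hγ : ∀ j, 0 < γ j) (f : ∀ j, SurfGrp (γ j) →* G)
    (h : ∀ χ : ∀ j, SurfGrp (γ j) → ℚ, (∀ j a b, χ j (a * b) = χ j a + χ j b) →
      ∃ c : G → ℚ, (∀ x y, c (x * y) = c x + c y) ∧ ∀ j a, c (f j a) = χ j a) :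
    LinearIndependent ℚ fun j => h2 (f j) (fundCl (γ j)) := by
  classical
  rw [linearIndependent_iff']
  intro s q hq j0 hj0
  choose χ1 h1 h1' using fun j => exists_add (γ j)
    (fun p => if j = j0 ∧ (p.1 : ℕ) = 0 ∧ p.2 = true then 1 else 0)
  choose χ2 h2a h2' using fun j => exists_add (γ j)
    (fun p => if j = j0 ∧ (p.1 : ℕ) = 0 ∧ p.2 = false then 1 else 0)
  obtain ⟨φ, hφ, hφ'⟩ := h χ1 h1
  obtain ⟨ψ, hψ, hψ'⟩ := h χ2 h2a
  have hval : ∀ j, evC (fun x y => φ x * ψ y) (coc_cup φ ψ hφ hψ) (h2 (f j) (fundCl (γ j)))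
      = if j = j0 then 1 else 0 := by
    intro j
    rw [evC_fund, lin_cup φ ψ hφ hψ]
    simp only [hφ', hψ', ga, gb, h1', h2']
    by_cases hj : j = j0
    · subst hj
      rw [if_pos rfl, Finset.sum_eq_single (⟨0, hγ j⟩ : Fin (γ j))]
      · simp
      · intro b _ hb
        have : ¬ (b : ℕ) = 0 := fun h => hb (Fin.ext h)
        simp [this]
      · intro h
        exact absurd (Finset.mem_univ _) h
    · simp [hj]
  have := congrArg (evC (fun x y => φ x * ψ y) (coc_cup φ ψ hφ hψ)) hq
  rw [map_sum, map_zero] at this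
  simp only [map_smul, hval, smul_eq_mul, mul_ite, mul_one, mul_zero] at this
  rw [Finset.sum_ite_eq' s j0 q, if_pos hj0] at this
  exact this

end cup

section ext

variable {G : Type*} [Group G] {V : Type*} [AddCommGroup V] {c : G → G → V} {hc : IsCoc c}

/-- the central subgroup of the extension -/
def zc (c : G → G → V) (hc : IsCoc c) : Multiplicative V →* Ex c hc where
  toFun v := ⟨-c 1 1 + Multiplicative.toAdd v, 1⟩
  map_one' := by
    apply Ex.ext
    · simp
    · rfl
  map_mul' v w := by
    apply Ex.ext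
    · simp only [Ex.mul_v, toAdd_mul]
      abel
    · simp

@[simp] lemma zc_v (v : Multiplicative V) : (zc c hc v).v = -c 1 1 + Multiplicative.toAdd v := rfl
@[simp] lemma zc_g (v : Multiplicative V) : (zc c hc v).g = 1 := rfl

lemma zc_comm (v : Multiplicative V) (a : Ex c hc) : zc c hc v * a = a * zc c hc v := by
  apply Ex.ext
  · simp only [Ex.mul_v, zc_v, zc_g, hc.one_left, hc.one_right]
    abel
  · simp

lemma eq_zc (a : Ex c hc) (ha : a.g = 1) :
    a = zc c hc (Multiplicative.ofAdd (a.v + c 1 1)) := by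
  apply Ex.ext
  · simp
  · exact ha

/-- twist a homomorphism by a central character -/
def twist {F : Type*} [Group F] (Θ : F →* Ex c hc) (lam : F →* Multiplicative V) : F →* Ex c hc where
  toFun w := Θ w * zc c hc (lam w)
  map_one' := by simp
  map_mul' a b := by
    rw [map_mul, map_mul, map_mul]
    have := zc_comm (lam a) (Θ b)
    calc Θ a * Θ b * (zc c hc (lam a) * zc c hc (lam b))
        = Θ a * (Θ b * zc c hc (lam a)) * zc c hc (lam b) := by simp only [mul_assoc]
      _ = Θ a * (zc c hc (lam a) * Θ b) * zc c hc (lam b) := by rw [this]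
      _ = _ := by simp only [mul_assoc]

lemma twist_apply {F : Type*} [Group F] (Θ : F →* Ex c hc) (lam : F →* Multiplicative V) (w : F) :
    twist Θ lam w = Θ w * zc c hc (lam w) := rfl

end ext

section lam

/-- homomorphisms of a free group with prescribed values on homologically independent words -/
lemma exists_lam {ι : Type*} {X : Type} (v : ι → FreeGroup X)
    (hv : LinearIndependent ℚ fun i => abv (v i))
    {V : Type*} [AddCommGroup V] [Module ℚ V] (a : ι → V) :
    ∃ lam : FreeGroup X →* Multiplicative V, ∀ i, Multiplicative.toAdd (lam (v i)) = a i := by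
  obtain ⟨T, hT⟩ := LinearMap.exists_extend ((Finsupp.linearCombination ℚ a).comp hv.repr)
  refine ⟨(AddMonoidHom.toMultiplicative T.toAddMonoidHom).comp (ab X), fun i => ?_⟩
  have h1 := LinearMap.congr_fun hT ⟨abv (v i), Submodule.subset_span ⟨i, rfl⟩⟩
  rw [LinearMap.comp_apply, LinearMap.comp_apply, hv.repr_eq_single i _ rfl,
    Finsupp.linearCombination_single, one_smul] at h1
  exact h1

end lam

section pres

variable {X J L : Type} (γ : J → ℕ) (x y : ∀ j, Fin (γ j) → FreeGroup X) (u : L → FreeGroup X)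

lemma fj_a (j : J) (i : Fin (γ j)) : fj γ x y u j (ga i) = PresentedGroup.mk _ (x j i) := by
  unfold fj ga
  rw [PresentedGroup.toGroup.of]
  simp

lemma fj_b (j : J) (i : Fin (γ j)) : fj γ x y u j (gb i) = PresentedGroup.mk _ (y j i) := by
  unfold fj gb
  rw [PresentedGroup.toGroup.of]
  simp

/-- a homomorphism of the free group killing the `u_l` descends to the presented group -/
lemma exists_desc (lam : FreeGroup X →* Multiplicative ℚ) (hl : ∀ l, lam (u l) = 1) :
    ∃ σ : PG γ x y u →* Multiplicative ℚ, ∀ w, σ (PresentedGroup.mk _ w) = lam w := by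
  have hrel : ∀ r ∈ rels γ x y u, FreeGroup.lift (fun i => lam (FreeGroup.of i)) r = 1 := by
    have e : FreeGroup.lift (fun i => lam (FreeGroup.of i)) = lam := by
      apply FreeGroup.ext_hom
      intro i
      rw [FreeGroup.lift_apply_of]
    rw [e]
    rintro r (⟨j, rfl⟩ | ⟨l, rfl⟩)
    · rw [map_cprod]
      exact cprod_comm _ _
    · exact hl l
  refine ⟨PresentedGroup.toGroup hrel, fun w => ?_⟩
  have e : (PresentedGroup.toGroup hrel).comp (PresentedGroup.mk (rels γ x y u)) = lam := by
    apply FreeGroup.ext_hom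
    intro i
    exact PresentedGroup.toGroup.of hrel
  exact DFunLike.congr_fun e w

/-- the classes of the surfaces span second homology when the `u_l` are independent -/
theorem pres_span (hu : LinearIndependent ℚ fun l => abv (u l)) : Submodule.span ℚ
    (Set.range fun j => h2 (fj γ x y u j) (fundCl (γ j))) = ⊤ := by
  apply span_of_dual
  intro c hc h
  let Θ : FreeGroup X →* Ex c hc := FreeGroup.lift fun i => ⟨0, PresentedGroup.of i⟩
  have hΘ : ∀ w, (Θ w).g = PresentedGroup.mk _ w := by
    intro w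
    have e : (Ex.pr c hc).comp Θ = PresentedGroup.mk (rels γ x y u) := by
      apply FreeGroup.ext_hom
      intro i
      rw [MonoidHom.comp_apply]
      show Ex.pr c hc (FreeGroup.lift _ (FreeGroup.of i)) = _
      rw [FreeGroup.lift_apply_of]
      rfl
    exact DFunLike.congr_fun e w
  have hug : ∀ l, (Θ (u l)).g = 1 := fun l => by
    rw [hΘ]
    exact PresentedGroup.one_of_mem (Or.inr ⟨l, rfl⟩)
  obtain ⟨lam, h3⟩ := exists_lam u hu (fun l => -((Θ (u l)).v + c 1 1))
  have hw : ∀ j, Θ (cprod (x j) (y j)) = 1 := by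
    intro j
    rw [map_cprod]
    apply cprod_lift_one
    · simp only [hΘ]
      rw [← map_cprod]
      exact PresentedGroup.one_of_mem (Or.inl ⟨j, rfl⟩)
    · simp only [hΘ]
      have := h (z2 (fj γ x y u j) ⟨sfc (fun i => ga i) (fun i => gb i), sfc_cycle _ _ (surf_rel _)⟩)
        ⟨j, rfl⟩
      rw [z2_val] at this
      have e : c2 (fj γ x y u j) (sfc (fun i => ga i) (fun i => gb i))
          = sfc (fun i => PresentedGroup.mk (rels γ x y u) (x j i))
            (fun i => PresentedGroup.mk (rels γ x y u) (y j i)) := by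
        rw [c2_sfc]
        simp only [fj_a, fj_b]
      rw [← e]
      exact this
  have hrel : ∀ r ∈ rels γ x y u, FreeGroup.lift (fun i => twist Θ lam (FreeGroup.of i)) r = 1 := by
    have e : FreeGroup.lift (fun i => twist Θ lam (FreeGroup.of i)) = twist Θ lam := by
      apply FreeGroup.ext_hom
      intro i
      rw [FreeGroup.lift_apply_of]
    rw [e]
    rintro r (⟨j, rfl⟩ | ⟨l, rfl⟩)
    · rw [twist_apply, hw, map_cprod, cprod_comm, map_one, mul_one]
    · rw [twist_apply, eq_zc _ (hug l), ← map_mul]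
      have : lam (u l) = Multiplicative.ofAdd (-((Θ (u l)).v + c 1 1)) := h3 l
      rw [this, ← ofAdd_add, add_neg_cancel, ofAdd_zero, map_one]
  let σ : PG γ x y u →* Ex c hc := PresentedGroup.toGroup hrel
  apply cob_of_section σ
  have e : (Ex.pr c hc).comp σ = MonoidHom.id _ := by
    apply PresentedGroup.ext
    intro i
    rw [MonoidHom.comp_apply]
    show Ex.pr c hc (PresentedGroup.toGroup hrel (PresentedGroup.of i)) = _
    rw [PresentedGroup.toGroup.of, twist_apply]
    show (Θ (FreeGroup.of i)).g * 1 = _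
    rw [hΘ, mul_one]
    rfl
  intro s
  exact DFunLike.congr_fun e s

end pres

end SH
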