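import Pool.Agent.Helper66.SH.PT
import Pool.Agent.Helper66.SH.Clo

/-! Presentations whose relators are products of commutators with one generator each that is
visible in homology. -/

namespace SH

section

variable {X J L Z : Type} (g : J → ℕ) (x y : ∀ j, Fin (g j) → FreeGroup Z) (δ : J → FreeGroup Z)
  (t : FreeGroup X) (a : J → FreeGroup X) (w : Z → FreeGroup X) (u : L → FreeGroup X)

/-- the quotient map -/
abbrev qm : FreeGroup X →* HG g x y δ t a w u :=
  PresentedGroup.mk (rels (fun j => g j + 1) (hX g x a w) (hY g y δ t w) u)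

lemma lift_qm (v : FreeGroup Z) : FreeGroup.lift (fun z => qm g x y δ t a w u (w z)) v
    = qm g x y δ t a w u (FreeGroup.lift w v) := by
  have e : FreeGroup.lift (fun z => qm g x y δ t a w u (w z))
      = (qm g x y δ t a w u).comp (FreeGroup.lift w) := by
    apply FreeGroup.ext_hom
    intro z
    rw [MonoidHom.comp_apply, FreeGroup.lift_apply_of, FreeGroup.lift_apply_of]
  exact DFunLike.congr_fun e v

/-- the map of `⟨t, a_j, Z | [a_j, t δ_j] c_j⟩` -/
noncomputable def hf : PT (cc g x y) δ →* HG g x y δ t a w u :=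
  plift (cc g x y) δ (qm g x y δ t a w u t) (fun j => qm g x y δ t a w u (a j))
    (fun z => qm g x y δ t a w u (w z)) (by
    intro j
    rw [lift_qm, lift_qm, ← map_mul, ← map_cm, ← map_mul]
    have e : cm (a j) (t * FreeGroup.lift w (δ j)) * FreeGroup.lift w (cc g x y j)
        = cprod (hX g x a w j) (hY g y δ t w j) := by
      rw [cprod_succ]
      unfold cc
      rw [map_cprod]
      rfl
    rw [e]
    exact PresentedGroup.one_of_mem (Or.inl ⟨j, rfl⟩))

lemma hf_pw (v : FreeGroup Z) : hf g x y δ t a w u (pw _ _ v)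
    = qm g x y δ t a w u (FreeGroup.lift w v) := by
  unfold hf
  rw [plift_w, lift_qm]

/-- the surface maps factor through `PT` -/
lemma hf_surf (j : J) : (hf g x y δ t a w u).comp (surfPT g x y δ j) = hS g x y δ t a w u j := by
  apply PresentedGroup.ext
  rintro ⟨i, ε⟩
  cases ε with
  | true =>
    have h1 : surfPT g x y δ j (PresentedGroup.of (i, true)) = _ := surfPT_a g x y δ j i
    have h2 : hS g x y δ t a w u j (PresentedGroup.of (i, true)) = _ :=
      fj_a (fun j => g j + 1) (hX g x a w) (hY g y δ t w) u j i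
    rw [MonoidHom.comp_apply, h1, h2]
    induction i using Fin.cases with
    | zero => exact plift_a _ _ _ _ _
    | succ i => exact hf_pw g x y δ t a w u _
  | false =>
    have h1 : surfPT g x y δ j (PresentedGroup.of (i, false)) = _ := surfPT_b g x y δ j i
    have h2 : hS g x y δ t a w u j (PresentedGroup.of (i, false)) = _ :=
      fj_b (fun j => g j + 1) (hX g x a w) (hY g y δ t w) u j i
    rw [MonoidHom.comp_apply, h1, h2]
    induction i using Fin.cases with
    | zero =>
      show hf g x y δ t a w u (pt _ _ * pw _ _ (δ j)) = qm g x y δ t a w u (t * FreeGroup.lift w (δ j))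
      rw [map_mul, map_mul, hf_pw]
      congr 1
      exact plift_t _ _ _ _
    | succ i => exact hf_pw g x y δ t a w u _

/-- additive functions on `PT` extend -/
theorem h_ext (hind : LinearIndependent ℚ fun i => abv (vis t a w u i))
    (χ : PT (cc g x y) δ → ℚ) (hχ : ∀ a b, χ (a * b) = χ a + χ b) :
    ∃ c : HG g x y δ t a w u → ℚ, (∀ s t, c (s * t) = c s + c t) ∧
      ∀ s, c (hf g x y δ t a w u s) = χ s := by
  obtain ⟨lam, hl⟩ := exists_lam (vis t a w u) hind (V := ℚ)
    (Sum.elim (fun _ => χ (pt _ _)) (Sum.elim (fun j => χ (pa _ _ j))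
      (Sum.elim (fun z => χ (pz _ _ z)) fun _ => 0)))
  obtain ⟨σ, hσ⟩ := exists_desc (fun j => g j + 1) (hX g x a w) (hY g y δ t w) u lam (fun l =>
    hl (Sum.inr (Sum.inr (Sum.inr l))))
  refine ⟨fun s => Multiplicative.toAdd (σ s), fun s t => ?_, fun s => ?_⟩
  · show Multiplicative.toAdd (σ (s * t)) = _
    rw [map_mul]; rfl
  · let χ' : PT (cc g x y) δ →* Multiplicative ℚ :=
      { toFun := fun a => Multiplicative.ofAdd (χ a)
        map_one' := by rw [add_one' hχ]; rfl
        map_mul' := fun a b => by rw [hχ]; rfl }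
    have e : σ.comp (hf g x y δ t a w u) = χ' := by
      apply PresentedGroup.ext
      rintro (_ | (z | j))
      · rw [MonoidHom.comp_apply]
        have : hf g x y δ t a w u (PresentedGroup.of none) = _ := plift_t _ _ _ _
        rw [this, hσ]
        exact hl (Sum.inl ())
      · rw [MonoidHom.comp_apply]
        have : hf g x y δ t a w u (PresentedGroup.of (some (Sum.inl z))) = _ := plift_z _ _ _ _ _
        rw [this, hσ]
        exact hl (Sum.inr (Sum.inr (Sum.inl z)))
      · rw [MonoidHom.comp_apply]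
        have : hf g x y δ t a w u (PresentedGroup.of (some (Sum.inr j))) = _ := plift_a _ _ _ _ _
        rw [this, hσ]
        exact hl (Sum.inr (Sum.inl j))
    exact DFunLike.congr_fun e s

/-- an additive function on `PT` with prescribed values on the generators -/
lemma exists_add_PT (v : Option (Z ⊕ J) → ℚ) :
    ∃ χ : PT (cc g x y) δ → ℚ, (∀ s t, χ (s * t) = χ s + χ t) ∧ χ (pt _ _) = v none ∧
      (∀ z, χ (pz _ _ z) = v (some (Sum.inl z))) ∧ ∀ j, χ (pa _ _ j) = v (some (Sum.inr j)) := by
  let σ : PT (cc g x y) δ →* Multiplicative ℚ :=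
    PresentedGroup.toGroup (f := fun p => Multiplicative.ofAdd (v p)) (by
      rintro _ ⟨j, rfl⟩
      unfold ptrel cc
      rw [map_mul, map_cm, map_cprod, map_cprod, cprod_comm, mul_one, cm, mul_comm (FreeGroup.lift _ _)]
      simp)
  refine ⟨fun x => Multiplicative.toAdd (σ x), fun x y => ?_, ?_, fun z => ?_, fun j => ?_⟩
  · show Multiplicative.toAdd (σ (x * y)) = _
    rw [map_mul]; rfl
  · show Multiplicative.toAdd (σ (PresentedGroup.of _)) = _
    rw [PresentedGroup.toGroup.of]
    rfl
  · show Multiplicative.toAdd (σ (PresentedGroup.of _)) = _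
    rw [PresentedGroup.toGroup.of]
    rfl
  · show Multiplicative.toAdd (σ (PresentedGroup.of _)) = _
    rw [PresentedGroup.toGroup.of]
    rfl

lemma add_pw_zero {c δ : J → FreeGroup Z} {φ : PT c δ → ℚ} (hφ : ∀ s t, φ (s * t) = φ s + φ t)
    (h : ∀ k, φ (pz c δ k) = 0) (v : FreeGroup Z) : φ (pw c δ v) = 0 := by
  let φ' : PT c δ →* Multiplicative ℚ :=
    { toFun := fun a => Multiplicative.ofAdd (φ a)
      map_one' := by rw [add_one' hφ]; rfl
      map_mul' := fun a b => by rw [hφ]; rfl }
  have e : φ'.comp (pw c δ) = 1 := by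
    apply FreeGroup.ext_hom
    intro k
    rw [MonoidHom.comp_apply]
    unfold pw
    rw [FreeGroup.lift_apply_of]
    show Multiplicative.ofAdd (φ (pz c δ k)) = 1
    rw [h k]
    rfl
  have h2 : Multiplicative.ofAdd (φ (pw c δ v)) = 1 := DFunLike.congr_fun e v
  simpa using h2

/-- independence of classes detected by cup products -/
lemma indep_of_cup {G : Type*} [Group G] {J : Type*} (γ : J → ℕ) (f : ∀ j, SurfGrp (γ j) →* G)
    (h : ∀ j0 : J, ∃ φ ψ : G → ℚ, (∀ s t, φ (s * t) = φ s + φ t) ∧ (∀ s t, ψ (s * t) = ψ s + ψ t) ∧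
      (∑ i, (φ (f j0 (ga i)) * ψ (f j0 (gb i)) - φ (f j0 (gb i)) * ψ (f j0 (ga i))) = 1) ∧
      ∀ j, j ≠ j0 →
        ∑ i, (φ (f j (ga i)) * ψ (f j (gb i)) - φ (f j (gb i)) * ψ (f j (ga i))) = 0) :
    LinearIndependent ℚ fun j => h2 (f j) (fundCl (γ j)) := by
  classical
  rw [linearIndependent_iff']
  intro s q hq j0 hj0
  obtain ⟨φ, ψ, hφ, hψ, h1, h2'⟩ := h j0
  have hval : ∀ j, evC (fun x y => φ x * ψ y) (coc_cup φ ψ hφ hψ) (h2 (f j) (fundCl (γ j)))
      = if j = j0 then 1 else 0 := by
    intro j
    rw [evC_fund, lin_cup φ ψ hφ hψ]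
    by_cases hj : j = j0
    · subst hj
      rw [if_pos rfl]
      exact h1
    · rw [if_neg hj]
      exact h2' j hj
  have := congrArg (evC (fun x y => φ x * ψ y) (coc_cup φ ψ hφ hψ)) hq
  rw [map_sum, map_zero] at this
  simp only [map_smul, hval, smul_eq_mul, mul_ite, mul_one, mul_zero] at this
  rw [Finset.sum_ite_eq' s j0 q, if_pos hj0] at this
  exact this

/-- the classes of the surfaces are linearly independent -/
theorem h_indep (hind : LinearIndependent ℚ fun i => abv (vis t a w u i)) :
    LinearIndependent ℚ fun j => h2 (hS g x y δ t a w u j) (fundCl (g j + 1)) := by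
  classical
  apply indep_of_cup (fun j => g j + 1)
  intro j0
  obtain ⟨χ1, h1, h1t, h1z, h1a⟩ := exists_add_PT g x y δ
    (fun p => if p = some (Sum.inr j0) then 1 else 0)
  obtain ⟨χ2, h2, h2t, h2z, h2a⟩ := exists_add_PT g x y δ
    (fun p => if p = none then 1 else 0)
  obtain ⟨φ, hφ, hφ'⟩ := h_ext g x y δ t a w u hind χ1 h1
  obtain ⟨ψ, hψ, hψ'⟩ := h_ext g x y δ t a w u hind χ2 h2
  have hz1 : ∀ v, χ1 (pw _ _ v) = 0 := fun v => add_pw_zero h1 (fun k => by rw [h1z]; simp) v
  have hz2 : ∀ v, χ2 (pw _ _ v) = 0 := fun v => add_pw_zero h2 (fun k => by rw [h2z]; simp) v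
  have key : ∀ j, ∑ i, (φ (hS g x y δ t a w u j (ga i)) * ψ (hS g x y δ t a w u j (gb i))
        - φ (hS g x y δ t a w u j (gb i)) * ψ (hS g x y δ t a w u j (ga i)))
      = if j = j0 then 1 else 0 := by
    intro j
    rw [Fin.sum_univ_succ, Finset.sum_eq_zero, add_zero]
    · rw [← hf_surf, MonoidHom.comp_apply, MonoidHom.comp_apply, surfPT_a, surfPT_b]
      show φ (hf g x y δ t a w u (pa _ _ j)) * ψ (hf g x y δ t a w u (pt _ _ * pw _ _ (δ j)))
        - φ (hf g x y δ t a w u (pt _ _ * pw _ _ (δ j))) * ψ (hf g x y δ t a w u (pa _ _ j)) = _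
      rw [hφ', hφ', hψ', hψ', h1, h2, hz1, hz2, h1t, h2t, h1a, h2a]
      by_cases hj : j = j0
      · simp [hj]
      · simp [hj]
    · intro i _
      rw [← hf_surf, MonoidHom.comp_apply, MonoidHom.comp_apply, surfPT_a, surfPT_b]
      show φ (hf g x y δ t a w u (pw _ _ (x j i))) * ψ (hf g x y δ t a w u (pw _ _ (y j i)))
        - φ (hf g x y δ t a w u (pw _ _ (y j i))) * ψ (hf g x y δ t a w u (pw _ _ (x j i))) = _
      rw [hφ', hφ', hz1, hz1]
      ring
  refine ⟨φ, ψ, hφ, hψ, ?_, ?_⟩
  · rw [key j0, if_pos rfl]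
  · intro j hj
    rw [key j, if_neg hj]

/-- the classes of the surfaces span -/
theorem h_span (hind : LinearIndependent ℚ fun i => abv (vis t a w u i)) :
    Submodule.span ℚ (Set.range fun j => h2 (hS g x y δ t a w u j) (fundCl (g j + 1))) = ⊤ :=
  pres_span (fun j => g j + 1) (hX g x a w) (hY g y δ t w) u
    (hind.comp (fun l : L => (Sum.inr (Sum.inr (Sum.inr l)) : Unit ⊕ (J ⊕ (Z ⊕ L)))) (by
      intro l l' h
      simpa using h))

/-- `PT` carries the second homology -/
theorem h_h2 (hind : LinearIndependent ℚ fun i => abv (vis t a w u i)) :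
    Function.Surjective (h2sum (J := Unit) (A := fun _ => PT (cc g x y) δ)
      fun _ => hf g x y δ t a w u) := by
  classical
  rw [← LinearMap.range_eq_top, eq_top_iff, ← h_span g x y δ t a w u hind, Submodule.span_le]
  rintro _ ⟨j, rfl⟩
  refine ⟨_, (h2sum_of (J := Unit) (A := fun _ => PT (cc g x y) δ) (fun _ => hf g x y δ t a w u) ()
    (h2 (surfPT g x y δ j) (fundCl (g j + 1)))).trans ?_⟩
  show h2 (hf g x y δ t a w u) (h2 (surfPT g x y δ j) (fundCl (g j + 1))) = _
  rw [← h2_comp, hf_surf]

theorem h_h1 (hind : LinearIndependent ℚ fun i => abv (vis t a w u i)) :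
    Function.Injective (h1sum (J := Unit) (A := fun _ => PT (cc g x y) δ)
      fun _ => hf g x y δ t a w u) := by
  apply h1sum_inj_of_ext
  intro χ hχ
  obtain ⟨c, h1, h2⟩ := h_ext g x y δ t a w u hind (χ ()) (hχ ())
  exact ⟨c, h1, fun _ a => h2 a⟩

/-- `PT` embeds -/
theorem hf_inj (hind : LinearIndependent ℚ fun i => abv (vis t a w u i)) :
    Function.Injective (hf g x y δ t a w u) :=
  inj_one (J := Unit) (A := fun _ => PT (cc g x y) δ) (fun _ => hf g x y δ t a w u)
    (h_h1 g x y δ t a w u hind) (h_h2 g x y δ t a w u hind) () (resUnip_PT _ _)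

/-- a surface injects if its hidden handles generate freely -/
theorem hS_inj (hind : LinearIndependent ℚ fun i => abv (vis t a w u i)) (j : J)
    (hfree : Function.Injective
      (FreeGroup.lift fun p : Fin (g j) × Bool => if p.2 then x j p.1 else y j p.1)) :
    Function.Injective (hS g x y δ t a w u j) := by
  rw [← hf_surf]
  exact (hf_inj g x y δ t a w u hind).comp (surfPT_inj g x y δ j hfree)

lemma io_injective (g : ℕ) : Function.Injective (io g) := by
  rw [injective_iff_map_eq_one]
  intro ν hν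
  obtain ⟨L, hL, rfl⟩ := exists_redu ν
  by_contra hne
  have hne' : L ≠ [] := by
    rintro rfl
    apply hne
    simp [sprod]
  apply detect L hL hne'
  rw [hν, map_one]

/-- the hidden handles of an injective surface generate freely -/
theorem free_of_hS_inj (j : J) (h : Function.Injective (hS g x y δ t a w u j)) :
    Function.Injective
      (FreeGroup.lift fun p : Fin (g j) × Bool => if p.2 then x j p.1 else y j p.1) := by
  have e : ((hS g x y δ t a w u j).comp (io (g j))).comp (FreeGroup.map fun p => some (p, 0))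
      = ((qm g x y δ t a w u).comp (FreeGroup.lift w)).comp
        (FreeGroup.lift fun p : Fin (g j) × Bool => if p.2 then x j p.1 else y j p.1) := by
    apply FreeGroup.ext_hom
    rintro ⟨i, ε⟩
    simp only [MonoidHom.comp_apply, FreeGroup.map.of]
    rw [io_some, zpow_zero, one_mul, inv_one, mul_one, FreeGroup.lift_apply_of]
    cases ε with
    | true => exact fj_a (fun j => g j + 1) (hX g x a w) (hY g y δ t w) u j i.succ
    | false => exact fj_b (fun j => g j + 1) (hX g x a w) (hY g y δ t w) u j i.succ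
  have h1 : Function.Injective (((hS g x y δ t a w u j).comp (io (g j))).comp
      (FreeGroup.map fun p => some (p, 0))) := by
    refine (h.comp (io_injective (g j))).comp (FreeGroup.map_injective ?_)
    intro p q hpq
    simpa using hpq
  rw [e, MonoidHom.coe_comp] at h1
  exact Function.Injective.of_comp h1

/-- Q1 for these groups -/
theorem h_Q1 (hind : LinearIndependent ℚ fun i => abv (vis t a w u i))
    (hfree : ∀ j, Function.Injective
      (FreeGroup.lift fun p : Fin (g j) × Bool => if p.2 then x j p.1 else y j p.1)) :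
    Q1 (HG g x y δ t a w u) :=
  Q1_of_span (fun j => g j + 1) (hS g x y δ t a w u)
    (fun j => hS_inj g x y δ t a w u hind j (hfree j)) (h_span g x y δ t a w u hind)

end

end SH
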