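import Pool.Agent.Helper66.SH.Coc

/-! Duality, the second homology of surface groups, and closure properties of Q1. -/

namespace SH

variable {G : Type*} [Group G]

lemma h2_mk {H : Type*} [Group H] (f : G →* H) (z : Z2 G) :
    h2 f (cl2 G z) = cl2 H (z2 f z) := rfl

lemma h2_comp {H K : Type*} [Group H] [Group K] (f : H →* K) (f' : G →* H) (α : H2 G) :
    h2 (f.comp f') α = h2 f (h2 f' α) := by
  obtain ⟨z, rfl⟩ := cl2_surj G α
  rw [h2_mk, h2_mk, h2_mk]
  congr 1
  apply Subtype.ext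
  rw [z2_val, z2_val, z2_val]
  have : c2 (f.comp f') = (c2 f).comp (c2 f') := by
    apply Finsupp.lhom_ext
    rintro ⟨g, h⟩ q
    simp
  rw [this]
  rfl

lemma h2_id (α : H2 G) : h2 (MonoidHom.id G) α = α := by
  obtain ⟨z, rfl⟩ := cl2_surj G α
  rw [h2_mk]
  congr 1
  apply Subtype.ext
  rw [z2_val]
  have : c2 (MonoidHom.id G) = LinearMap.id := by
    apply Finsupp.lhom_ext
    rintro ⟨g, h⟩ q
    simp
  rw [this]
  rfl

/-- **duality**: a set of classes spans `H₂(G)` if every cocycle vanishing on it is a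
coboundary -/
lemma span_of_dual (s : Set (H2 G))
    (h : ∀ c : G → G → ℚ, IsCoc c →
      (∀ z : Z2 G, cl2 G z ∈ s → lin c z = 0) → IsCob c) :
    Submodule.span ℚ s = ⊤ := by
  by_contra hne
  obtain ⟨φ, hφ, hle⟩ := Submodule.exists_le_ker_of_lt_top _ (lt_top_iff_ne_top.2 hne)
  apply hφ
  obtain ⟨ψ, hψ⟩ := LinearMap.exists_extend (φ.comp (cl2 G))
  have hlin : lin (fun g k => ψ (Finsupp.single (g, k) 1)) = ψ := by
    apply Finsupp.lhom_ext
    rintro ⟨g, k⟩ q
    rw [lin_single, ← map_smul, Finsupp.smul_single, smul_eq_mul, mul_one]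
  have hval : ∀ z : Z2 G, ψ z = φ (cl2 G z) := fun z => LinearMap.congr_fun hψ z
  have hcoc : IsCoc (fun g k => ψ (Finsupp.single (g, k) 1)) := by
    intro x y z
    have h1 : ψ (d3 G (Finsupp.single (x, y, z) 1)) = 0 := by
      have hz : d3 G (Finsupp.single (x, y, z) 1) ∈ Z2 G := d2_d3 _
      have h2 := hval ⟨_, hz⟩
      have h3 : cl2 G ⟨_, hz⟩ = 0 := cl2_d3 _ rfl
      rw [h3, map_zero] at h2
      exact h2
    rw [d3_single, one_smul, map_sub, map_add, map_sub] at h1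
    exact h1
  have hcob := h _ hcoc (by
    intro z hz
    rw [hlin, hval]
    exact hle (Submodule.subset_span hz))
  apply LinearMap.ext
  intro α
  obtain ⟨z, rfl⟩ := cl2_surj G α
  rw [← hval, LinearMap.zero_apply]
  have := lin_cob_cycle hcob z.2
  rwa [hlin] at this

/-- the set of classes of surface subgroups with orientation -/
def gens (G : Type*) [Group G] : Set (H2 G) :=
  {α | ∃ (γ : ℕ) (ε : ℤ) (ρ : SurfGrp γ →* G), (ε = 1 ∨ ε = -1) ∧ Function.Injective ρ ∧
    α = (ε : ℚ) • h2 ρ (fundCl γ)}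

lemma virtRep_iff (α : H2 G) :
    VirtRep G α ↔ ∃ n : ℕ, 0 < n ∧ (n : ℚ) • α ∈ AddSubmonoid.closure (gens G) := by
  constructor
  · rintro ⟨n, hn, k, γ, ε, ρ, hε, hρ, e⟩
    refine ⟨n, hn, ?_⟩
    rw [e]
    apply AddSubmonoid.sum_mem
    intro i _
    exact AddSubmonoid.subset_closure ⟨γ i, ε i, ρ i, hε i, hρ i, rfl⟩
  · rintro ⟨n, hn, h⟩
    refine ⟨n, hn, ?_⟩
    obtain ⟨l, hl, hs⟩ := AddSubmonoid.exists_list_of_mem_closure h
    choose γ ε ρ h1 h2' h3 using fun i : Fin l.length => hl (l.get i) (l.get_mem i)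
    refine ⟨l.length, γ, ε, ρ, h1, h2', ?_⟩
    rw [← hs]
    have e1 : l.sum = ∑ i : Fin l.length, l.get i := by
      conv_lhs => rw [← List.ofFn_get l]
      rw [List.sum_ofFn]
    rw [e1]
    exact Finset.sum_congr rfl fun i _ => h3 i

lemma virtRep_zero : VirtRep G 0 :=
  (virtRep_iff 0).2 ⟨1, one_pos, by rw [smul_zero]; exact AddSubmonoid.zero_mem _⟩

lemma virtRep_add {α β : H2 G} (hα : VirtRep G α) (hβ : VirtRep G β) : VirtRep G (α + β) := by
  rw [virtRep_iff] at *
  obtain ⟨n, hn, h⟩ := hα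
  obtain ⟨m, hm, h'⟩ := hβ
  refine ⟨n * m, Nat.mul_pos hn hm, ?_⟩
  have e : ((n * m : ℕ) : ℚ) • (α + β) = m • ((n : ℚ) • α) + n • ((m : ℚ) • β) := by
    rw [← Nat.cast_smul_eq_nsmul ℚ m, ← Nat.cast_smul_eq_nsmul ℚ n, smul_smul, smul_smul, smul_add]
    push_cast
    rw [mul_comm (m : ℚ) n]
  rw [e]
  exact AddSubmonoid.add_mem _ (AddSubmonoid.nsmul_mem _ h m) (AddSubmonoid.nsmul_mem _ h' n)

lemma virtRep_map {H : Type*} [Group H] (f : G →* H) (hf : Function.Injective f) {α : H2 G}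
    (hα : VirtRep G α) : VirtRep H (h2 f α) := by
  obtain ⟨n, hn, k, γ, ε, ρ, hε, hρ, e⟩ := hα
  refine ⟨n, hn, k, γ, ε, fun i => f.comp (ρ i), hε, fun i => hf.comp (hρ i), ?_⟩
  rw [← map_smul, e, map_sum]
  apply Finset.sum_congr rfl
  intro i _
  rw [map_smul, h2_comp]

/-- rational multiples of the class of a surface subgroup -/
lemma virtRep_smul {γ : ℕ} (ρ : SurfGrp γ →* G) (hρ : Function.Injective ρ) (q : ℚ) :
    VirtRep G (q • h2 ρ (fundCl γ)) := by
  rw [virtRep_iff]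
  refine ⟨q.den, q.den_pos, ?_⟩
  rw [smul_smul, Rat.den_mul_eq_num]
  obtain ⟨m, hm | hm⟩ := q.num.eq_nat_or_neg
  · have e : ((q.num : ℤ) : ℚ) • h2 ρ (fundCl γ) = m • (((1 : ℤ) : ℚ) • h2 ρ (fundCl γ)) := by
      rw [hm, ← Nat.cast_smul_eq_nsmul ℚ m, smul_smul]
      push_cast
      rw [mul_one]
    rw [e]
    have hm : (((1 : ℤ) : ℚ) • h2 ρ (fundCl γ)) ∈ gens G := ⟨γ, 1, ρ, Or.inl rfl, hρ, rfl⟩
    exact AddSubmonoid.nsmul_mem _ (AddSubmonoid.subset_closure hm) m
  · have e : ((q.num : ℤ) : ℚ) • h2 ρ (fundCl γ) = m • (((-1 : ℤ) : ℚ) • h2 ρ (fundCl γ)) := by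
      rw [hm, ← Nat.cast_smul_eq_nsmul ℚ m, smul_smul]
      push_cast
      rw [mul_neg, mul_one]
    rw [e]
    have hm : (((-1 : ℤ) : ℚ) • h2 ρ (fundCl γ)) ∈ gens G := ⟨γ, -1, ρ, Or.inr rfl, hρ, rfl⟩
    exact AddSubmonoid.nsmul_mem _ (AddSubmonoid.subset_closure hm) m

/-- if surface subgroups span the second homology, then Q1 holds -/
lemma Q1_of_span {J : Type*} (γ : J → ℕ) (f : ∀ j, SurfGrp (γ j) →* G)
    (hf : ∀ j, Function.Injective (f j))
    (h : Submodule.span ℚ (Set.range fun j => h2 (f j) (fundCl (γ j))) = ⊤) : Q1 G := by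
  intro α
  have hα : α ∈ Submodule.span ℚ (Set.range fun j => h2 (f j) (fundCl (γ j))) := by
    rw [h]; exact Submodule.mem_top
  rw [Finsupp.mem_span_range_iff_exists_finsupp] at hα
  obtain ⟨q, rfl⟩ := hα
  unfold Finsupp.sum
  induction q.support using Finset.cons_induction with
  | empty => simpa using virtRep_zero
  | cons a s ha ih =>
    rw [Finset.sum_cons]
    exact virtRep_add (virtRep_smul (f a) (hf a) (q a)) ih

/-- closure of Q1 under injective maps which are jointly surjective in second homology -/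
theorem Q1_of_family {J : Type*} {A : J → Type*} [∀ j, Group (A j)] (f : ∀ j, A j →* G)
    (hf : ∀ j, Function.Injective (f j)) (h : Function.Surjective (h2sum f))
    (hQ : ∀ j, Q1 (A j)) : Q1 G := by
  classical
  intro α
  obtain ⟨x, rfl⟩ := h α
  induction x using DirectSum.induction_on with
  | zero => rw [map_zero]; exact virtRep_zero
  | of j β =>
    have e : h2sum f (DirectSum.of (fun j => H2 (A j)) j β) = h2 (f j) β :=
      DirectSum.toModule_lof (M := fun j => H2 (A j)) ℚ j β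
    rw [e]
    exact virtRep_map (f j) (hf j) (hQ j β)
  | add x y hx hy => rw [map_add]; exact virtRep_add hx hy

/-- the fundamental class spans the second homology of a surface group -/
theorem span_fundCl (g : ℕ) : Submodule.span ℚ {fundCl g} = ⊤ := by
  apply span_of_dual
  intro c hc h
  apply surf_coc c hc
  exact h ⟨sfc (fun i => ga i) (fun i => gb i), sfc_cycle _ _ (surf_rel g)⟩ rfl

theorem Q1_surf (g : ℕ) : Q1 (SurfGrp g) := by
  apply Q1_of_span (J := Unit) (fun _ => g) (fun _ => MonoidHom.id _) (fun _ => Function.injective_id)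
  have e : (Set.range fun _ : Unit => h2 (MonoidHom.id (SurfGrp g)) (fundCl g)) = {fundCl g} := by
    rw [Set.range_const, h2_id]
  rw [e]
  exact span_fundCl g

end SH
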