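import Pool.Agent.Helper66.SH.Defs
import Pool.Agent.Helper66.SH.FiltL

/-! The groups `⟨t, Y, A | t a t⁻¹ = l_a a r_a⟩` with words `l_a, r_a` in `Y`. -/

namespace SH

variable {Y A : Type}

/-- the word `w` in the letters `y` of `Y` -/
def tw (A : Type) (w : FreeGroup Y) : FreeGroup (Option (Y ⊕ A)) :=
  FreeGroup.map (fun y => some (Sum.inl y)) w

/-- relators `t a t⁻¹ (l_a a r_a)⁻¹`, where `t = none` -/
def trel (l r : A → FreeGroup Y) : Set (FreeGroup (Option (Y ⊕ A))) :=
  Set.range fun a => FreeGroup.of none * FreeGroup.of (some (Sum.inr a)) * (FreeGroup.of none)⁻¹ *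
    (tw A (l a) * FreeGroup.of (some (Sum.inr a)) * tw A (r a))⁻¹

/-- the group `⟨t, Y, A | t a t⁻¹ = l_a a r_a⟩` -/
abbrev TQ (l r : A → FreeGroup Y) : Type := PresentedGroup (trel l r)

variable (l r : A → FreeGroup Y)

/-- the generator `t` -/
def tt : TQ l r := PresentedGroup.of none
/-- the generators in `Y` -/
def ty (y : Y) : TQ l r := PresentedGroup.of (some (Sum.inl y))
/-- the generators in `A` -/
def ta (a : A) : TQ l r := PresentedGroup.of (some (Sum.inr a))

/-- words in `Y` -/
def tyw : FreeGroup Y →* TQ l r := FreeGroup.lift (ty l r)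

lemma mk_tw (w : FreeGroup Y) : PresentedGroup.mk (trel l r) (tw A w) = tyw l r w := by
  have e : (PresentedGroup.mk (trel l r)).comp (FreeGroup.map (fun y => some (Sum.inl y)))
      = tyw l r := by
    apply FreeGroup.ext_hom
    intro y
    rw [MonoidHom.comp_apply, FreeGroup.map.of]
    unfold tyw
    rw [FreeGroup.lift_apply_of]
    rfl
  exact DFunLike.congr_fun e w

/-- `t a t⁻¹ = l_a a r_a` -/
lemma t_rel (a : A) : tt l r * ta l r a * (tt l r)⁻¹ = tyw l r (l a) * ta l r a * tyw l r (r a) := by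
  have h := PresentedGroup.one_of_mem (rels := trel l r) ⟨a, rfl⟩
  have h2 : tt l r * ta l r a * (tt l r)⁻¹ * (tyw l r (l a) * ta l r a * tyw l r (r a))⁻¹ = 1 := by
    rw [← mk_tw, ← mk_tw]
    exact h
  exact mul_inv_eq_one.1 h2

/-- homomorphisms from `TQ` -/
def tlift {H : Type*} [Group H] (t : H) (f : Y → H) (g : A → H)
    (h : ∀ a, t * g a * t⁻¹ = FreeGroup.lift f (l a) * g a * FreeGroup.lift f (r a)) :
    TQ l r →* H :=
  PresentedGroup.toGroup (f := fun p => match p with
    | none => t
    | some (Sum.inl y) => f y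
    | some (Sum.inr a) => g a) (by
    rintro _ ⟨a, rfl⟩
    have e : ∀ w : FreeGroup Y, FreeGroup.lift (fun p : Option (Y ⊕ A) => match p with
        | none => t
        | some (Sum.inl y) => f y
        | some (Sum.inr a) => g a) (tw A w) = FreeGroup.lift f w := by
      intro w
      have e1 : (FreeGroup.lift (fun p : Option (Y ⊕ A) => match p with
        | none => t
        | some (Sum.inl y) => f y
        | some (Sum.inr a) => g a)).comp (FreeGroup.map (fun y => some (Sum.inl y)))
          = FreeGroup.lift f := by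
        apply FreeGroup.ext_hom
        intro y
        rw [MonoidHom.comp_apply, FreeGroup.map.of, FreeGroup.lift_apply_of, FreeGroup.lift_apply_of]
      exact DFunLike.congr_fun e1 w
    rw [map_mul, map_inv, map_mul, map_mul, map_mul, map_mul, map_inv, e, e,
      FreeGroup.lift_apply_of, FreeGroup.lift_apply_of, mul_inv_eq_one]
    exact h a)

section

variable {l r} {H : Type*} [Group H] (t : H) (f : Y → H) (g : A → H)
    (h : ∀ a, t * g a * t⁻¹ = FreeGroup.lift f (l a) * g a * FreeGroup.lift f (r a))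

@[simp] lemma tlift_t : tlift l r t f g h (tt l r) = t := PresentedGroup.toGroup.of _
@[simp] lemma tlift_y (y : Y) : tlift l r t f g h (ty l r y) = f y := PresentedGroup.toGroup.of _
@[simp] lemma tlift_a (a : A) : tlift l r t f g h (ta l r a) = g a := PresentedGroup.toGroup.of _

lemma tlift_yw (w : FreeGroup Y) : tlift l r t f g h (tyw l r w) = FreeGroup.lift f w := by
  have e : (tlift l r t f g h).comp (tyw l r) = FreeGroup.lift f := by
    apply FreeGroup.ext_hom
    intro y
    rw [MonoidHom.comp_apply]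
    unfold tyw
    rw [FreeGroup.lift_apply_of, FreeGroup.lift_apply_of, tlift_y]
  exact DFunLike.congr_fun e w

end

/-- letters: `inl a`, and `inr (y,s)` for the conjugate of `y` by `t ^ s` -/
abbrev TX (Y A : Type) : Type := A ⊕ (Y × ℤ)

/-- the homomorphism from the free group on the letters -/
def tio : FreeGroup (TX Y A) →* TQ l r :=
  FreeGroup.lift fun x => match x with
    | Sum.inl a => ta l r a
    | Sum.inr (y, s) => tt l r ^ s * ty l r y * (tt l r ^ s)⁻¹

lemma tio_a (a : A) : tio l r (FreeGroup.of (Sum.inl a)) = ta l r a := by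
  simp [tio]

lemma tio_y (y : Y) (s : ℤ) :
    tio l r (FreeGroup.of (Sum.inr (y, s))) = tt l r ^ s * ty l r y * (tt l r ^ s)⁻¹ := by
  simp [tio]

/-- the word `w` at level `s` -/
def lvl (A : Type) (s : ℤ) : FreeGroup Y →* FreeGroup (TX Y A) :=
  FreeGroup.map fun y => Sum.inr (y, s)

lemma tio_lvl (s : ℤ) (w : FreeGroup Y) :
    tio l r (lvl A s w) = tt l r ^ s * tyw l r w * (tt l r ^ s)⁻¹ := by
  have e : (tio l r).comp (lvl A s) = (MulAut.conj (tt l r ^ s)).toMonoidHom.comp (tyw l r) := by
    apply FreeGroup.ext_hom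
    intro y
    rw [MonoidHom.comp_apply, MonoidHom.comp_apply]
    unfold lvl tyw
    rw [FreeGroup.map.of, FreeGroup.lift_apply_of, tio_y]
    rfl
  exact DFunLike.congr_fun e w

lemma t_range_conj (ν : FreeGroup (TX Y A)) :
    tt l r * tio l r ν * (tt l r)⁻¹ ∈ (tio l r).range := by
  let β : FreeGroup (TX Y A) →* FreeGroup (TX Y A) := FreeGroup.lift fun x => match x with
    | Sum.inl a => lvl A 0 (l a) * FreeGroup.of (Sum.inl a) * lvl A 0 (r a)
    | Sum.inr (y, s) => FreeGroup.of (Sum.inr (y, s + 1))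
  have h : (MulAut.conj (tt l r)).toMonoidHom.comp (tio l r) = (tio l r).comp β := by
    apply FreeGroup.ext_hom
    rintro (a | ⟨y, s⟩)
    · simp only [MonoidHom.comp_apply, MulEquiv.coe_toMonoidHom, MulAut.conj_apply, tio_a, β,
        FreeGroup.lift_apply_of, map_mul, tio_lvl, zpow_zero, one_mul, inv_one, mul_one]
      exact t_rel l r a
    · simp only [MonoidHom.comp_apply, MulEquiv.coe_toMonoidHom, MulAut.conj_apply, tio_y, β,
        FreeGroup.lift_apply_of]
      rw [add_comm s 1, zpow_add, zpow_one, mul_inv_rev]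
      simp [mul_assoc]
  have := DFunLike.congr_fun h ν
  simp only [MonoidHom.comp_apply, MulEquiv.coe_toMonoidHom, MulAut.conj_apply] at this
  exact ⟨β ν, this.symm⟩

lemma t_rel' (a : A) : (tt l r)⁻¹ * ta l r a * tt l r
    = ((tt l r)⁻¹ * tyw l r (l a) * tt l r)⁻¹ * ta l r a
      * ((tt l r)⁻¹ * tyw l r (r a) * tt l r)⁻¹ := by
  have h := t_rel l r a
  have h2 : ta l r a = (tt l r)⁻¹ * (tyw l r (l a) * ta l r a * tyw l r (r a)) * tt l r := by
    rw [← h]; simp [mul_assoc]
  nth_rewrite 2 [h2]
  simp [mul_assoc]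

lemma t_range_conj' (ν : FreeGroup (TX Y A)) :
    (tt l r)⁻¹ * tio l r ν * tt l r ∈ (tio l r).range := by
  let β : FreeGroup (TX Y A) →* FreeGroup (TX Y A) := FreeGroup.lift fun x => match x with
    | Sum.inl a => (lvl A (-1) (l a))⁻¹ * FreeGroup.of (Sum.inl a) * (lvl A (-1) (r a))⁻¹
    | Sum.inr (y, s) => FreeGroup.of (Sum.inr (y, s - 1))
  have h : (MulAut.conj (tt l r)⁻¹).toMonoidHom.comp (tio l r) = (tio l r).comp β := by
    apply FreeGroup.ext_hom
    rintro (a | ⟨y, s⟩)
    · simp only [MonoidHom.comp_apply, MulEquiv.coe_toMonoidHom, MulAut.conj_apply, tio_a, β,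
        FreeGroup.lift_apply_of, map_mul, map_inv, tio_lvl, inv_inv, zpow_neg, zpow_one]
      exact t_rel' l r a
    · simp only [MonoidHom.comp_apply, MulEquiv.coe_toMonoidHom, MulAut.conj_apply, tio_y, β,
        FreeGroup.lift_apply_of]
      rw [sub_eq_add_neg, add_comm s (-1), zpow_add, zpow_neg_one, mul_inv_rev]
      simp [mul_assoc]
  have := DFunLike.congr_fun h ν
  simp only [MonoidHom.comp_apply, MulEquiv.coe_toMonoidHom, MulAut.conj_apply, inv_inv] at this
  exact ⟨β ν, this.symm⟩

lemma ty_mem (y : Y) : ty l r y ∈ (tio l r).range :=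
  ⟨FreeGroup.of (Sum.inr (y, 0)), by rw [tio_y]; simp⟩

lemma t_range_normal : (tio l r).range.Normal := by
  rw [← Subgroup.normalizer_eq_top_iff, eq_top_iff]
  intro x _
  apply PresentedGroup.generated_by _ (Subgroup.normalizer ((tio l r).range : Set (TQ l r)))
  rintro (_ | (y | a))
  · rw [Subgroup.mem_normalizer_iff]
    intro h
    constructor
    · rintro ⟨ν, rfl⟩
      exact t_range_conj l r ν
    · rintro ⟨ν, hν⟩
      have := t_range_conj' l r ν
      rw [hν] at this
      convert this using 1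
      show h = (tt l r)⁻¹ * (tt l r * h * (tt l r)⁻¹) * tt l r
      simp [mul_assoc]
  · apply Subgroup.le_normalizer
    exact ty_mem l r y
  · apply Subgroup.le_normalizer
    exact ⟨FreeGroup.of (Sum.inl a), tio_a l r a⟩

/-- every element is a word in the letters times a power of `t` -/
theorem t_normal_form (x : TQ l r) : ∃ (ν : FreeGroup (TX Y A)) (e : ℤ),
    x = tio l r ν * tt l r ^ e := by
  haveI := t_range_normal l r
  have h : x ∈ (tio l r).range ⊔ Subgroup.zpowers (tt l r) := by
    apply PresentedGroup.generated_by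
    rintro (_ | (y | a))
    · exact Subgroup.mem_sup_right (Subgroup.mem_zpowers (tt l r))
    · exact Subgroup.mem_sup_left (ty_mem l r y)
    · exact Subgroup.mem_sup_left ⟨FreeGroup.of (Sum.inl a), tio_a l r a⟩
  rw [Subgroup.mem_sup_of_normal_left] at h
  obtain ⟨y, ⟨ν, rfl⟩, z, hz, rfl⟩ := h
  obtain ⟨e, rfl⟩ := Subgroup.mem_zpowers_iff.1 hz
  exact ⟨ν, e, rfl⟩

/-- exponent of `t` -/
def texp : TQ l r →* Multiplicative ℤ :=
  tlift l r (Multiplicative.ofAdd 1) (fun _ => 1) (fun _ => 1) (by
    intro a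
    have e : ∀ w : FreeGroup Y, FreeGroup.lift (fun _ : Y => (1 : Multiplicative ℤ)) w = 1 := by
      intro w
      have : (FreeGroup.lift (fun _ : Y => (1 : Multiplicative ℤ))) = 1 := by
        apply FreeGroup.ext_hom
        intro y
        rw [FreeGroup.lift_apply_of]; rfl
      rw [this]; rfl
    rw [e, e]; simp)

lemma texp_tio (ν : FreeGroup (TX Y A)) : texp l r (tio l r ν) = 1 := by
  have h : (texp l r).comp (tio l r) = 1 := by
    apply FreeGroup.ext_hom
    rintro (a | ⟨y, s⟩)
    · rw [MonoidHom.comp_apply, tio_a]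
      unfold texp
      rw [tlift_a]; rfl
    · rw [MonoidHom.comp_apply, tio_y, map_mul, map_mul, map_inv, mul_comm, inv_mul_cancel_left]
      unfold texp
      rw [tlift_y]; rfl
  exact DFunLike.congr_fun h ν

end SH
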