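import Pool.Agent.Helper66.SH.TQ
import Pool.Agent.Helper66.SH.Rep
import Pool.Agent.Helper66.SH.Mat2

/-! The groups `TQ` are residually unipotent. -/

namespace SH

namespace T

section rep

variable {Y A : Type} (L : List (TX Y A × ℤ))

/-- the levels occurring in the word -/
def lev : Finset ℤ := (L.map fun p => match p.1 with
  | Sum.inl _ => (0 : ℤ)
  | Sum.inr q => q.2).toFinset

lemma mem_lev {j : Y} {s e : ℤ} (h : (Sum.inr (j, s), e) ∈ L) : s ∈ lev L := by
  unfold lev
  rw [List.mem_toFinset, List.mem_map]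
  exact ⟨_, h, rfl⟩

/-- the weight of one step -/
abbrev Lam : ℕ := (lev L).card + 2

open Classical in
/-- interpolated coefficient -/
noncomputable def coef (j : Y) (i : ℕ) : ℤ → ℚ := match lab L i with
  | some (Sum.inr (j', s)) => if j' = j then interp (lev L) s else 0
  | _ => 0

lemma coef_mem (j : Y) (i : ℕ) : coef L j i ∈ P ((lev L).card : ℤ) := by
  unfold coef
  split
  · split_ifs
    · exact interp_mem _ _
    · exact Submodule.zero_mem _
  · exact Submodule.zero_mem _

/-- the strictly triangular part of the matrix of a generator -/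
noncomputable def XM (j : Y) : RM L.length :=
  fun τ i i' => if (i' : ℕ) = i + 1 then coef L j i τ else 0

lemma XM_mem (j : Y) : XM L j ∈ AA (Lam L) L.length 2 := by
  intro k k'
  by_cases h : (k' : ℕ) = k + 1
  · have e : (fun τ => XM L j τ k k') = coef L j k := by
      funext τ
      simp [XM, h]
    rw [e]
    refine P_mono (le_of_eq ?_) (coef_mem L j k)
    rw [h]
    push_cast
    ring
  · have e : (fun τ => XM L j τ k k') = 0 := by
      funext τ
      simp [XM, h]
    rw [e]
    exact Submodule.zero_mem _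

lemma MX_mem (x : TX Y A) : (fun _ => MX L x : RM L.length) ∈ AA (Lam L) L.length 1 := by
  intro k k'
  by_cases h : (k' : ℕ) = k + 1
  · refine P_mono ?_ (P_const (MX L x k k'))
    rw [h]
    push_cast
    ring_nf
    positivity
  · have e : (fun τ : ℤ => (fun _ => MX L x : RM L.length) τ k k') = 0 := by
      funext τ
      simp [MX, h]
    rw [e]
    exact Submodule.zero_mem _

/-- the matrix of a generator -/
noncomputable def uX (j : Y) : GM L.length :=
  fun τ => (isUnit_of_AA (by norm_num) (XM_mem L j) τ).unit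

lemma vl_uX (j : Y) : vl (uX L j) = 1 + XM L j := rfl

lemma uX_mem (j : Y) : uX L j ∈ GG (Lam L) L.length 2 (by norm_num) := by
  rw [mem_GG, vl_uX, add_sub_cancel_left]
  exact XM_mem L j

/-- the matrix of a word in `Y` -/
noncomputable def CC : FreeGroup Y →* GM L.length := FreeGroup.lift (uX L)

lemma CC_mem (w : FreeGroup Y) : CC L w ∈ GG (Lam L) L.length 2 (by norm_num) := by
  have h : w ∈ (GG (Lam L) L.length 2 (by norm_num)).comap (CC L) := by
    induction w using FreeGroup.induction_on with
    | C1 => exact Subgroup.one_mem _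
    | of y =>
      rw [Subgroup.mem_comap]
      unfold CC
      rw [FreeGroup.lift_apply_of]
      exact uX_mem L y
    | inv_of y hy => exact Subgroup.inv_mem _ hy
    | mul a b ha hb => exact Subgroup.mul_mem _ ha hb
  exact h

/-- the matrix of `a` at level `0` -/
noncomputable def R0 (a : A) : (Matrix (Fin (L.length + 1)) (Fin (L.length + 1)) ℚ)ˣ :=
  (isUnit_of_AA le_rfl (MX_mem L (Sum.inl a)) 0).unit

lemma R0_val (a : A) : ((R0 L a : (Matrix _ _ ℚ)ˣ) : Matrix _ _ ℚ) = 1 + MX L (Sum.inl a) := rfl

variable (l r : A → FreeGroup Y)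

/-- the matrix of `a` -/
noncomputable def RR (a : A) : GM L.length :=
  (exists_rec2 (CC L (l a)) (CC L (r a)) (R0 L a)).choose

lemma RR_zero (a : A) : RR L l r a 0 = R0 L a :=
  (exists_rec2 (CC L (l a)) (CC L (r a)) (R0 L a)).choose_spec.1

lemma RR_rec (a : A) (τ : ℤ) : RR L l r a (τ + 1) = CC L (l a) τ * RR L l r a τ * CC L (r a) τ :=
  (exists_rec2 (CC L (l a)) (CC L (r a)) (R0 L a)).choose_spec.2 τ

lemma RR_mem (a : A) : RR L l r a ∈ GG (Lam L) L.length 1 le_rfl := by
  apply rec_mem2 (CC_mem L (l a)) (CC_mem L (r a)) _ _ (RR_rec L l r a)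
  · intro k k' h
    rw [RR_zero, R0_val, Matrix.add_apply]
    have : ¬ ((k' : ℕ) = k + 1) := by
      have : (k' : ℕ) ≤ k := h
      omega
    simp [MX, this]
  · show 1 ≤ (lev L).card + 2
    omega

/-- elements of the group `1 + AA 1` -/
noncomputable def uX' (j : Y) : GG (Lam L) L.length 1 le_rfl := ⟨uX L j, GG_le (uX_mem L j)⟩

/-- words in `Y` -/
noncomputable def CC' : FreeGroup Y →* GG (Lam L) L.length 1 le_rfl := FreeGroup.lift (uX' L)

lemma CC'_val (w : FreeGroup Y) : (CC' L w).1 = CC L w := by
  have e : (GG (Lam L) L.length 1 le_rfl).subtype.comp (CC' L) = CC L := by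
    apply FreeGroup.ext_hom
    intro y
    unfold CC CC'
    rw [MonoidHom.comp_apply, FreeGroup.lift_apply_of, FreeGroup.lift_apply_of]
    rfl
  exact DFunLike.congr_fun e w

/-- the element given by `a` -/
noncomputable def RR' (a : A) : GG (Lam L) L.length 1 le_rfl := ⟨RR L l r a, RR_mem L l r a⟩

lemma sh_RR' (a : A) : (⟨sh 1 (RR' L l r a).1, sh_mem 1 (RR' L l r a).2⟩ :
    GG (Lam L) L.length 1 le_rfl) = CC' L (l a) * RR' L l r a * CC' L (r a) := by
  apply Subtype.ext
  show sh 1 (RR L l r a) = (CC' L (l a)).1 * RR L l r a * (CC' L (r a)).1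
  rw [CC'_val, CC'_val]
  funext τ
  exact RR_rec L l r a τ

/-- words in the images of `Y` -/
lemma lift_opU (w : FreeGroup Y) :
    FreeGroup.lift (fun y => opU _ _ (uX' L y)) w = opU _ _ (CC' L w) := by
  have e : FreeGroup.lift (fun y => opU _ _ (uX' L y)) = (opU _ _).comp (CC' L) := by
    apply FreeGroup.ext_hom
    intro y
    unfold CC'
    rw [MonoidHom.comp_apply, FreeGroup.lift_apply_of, FreeGroup.lift_apply_of]
  exact DFunLike.congr_fun e w

/-- the representation -/
noncomputable def psU : TQ l r →* (EE (Lam L) L.length)ˣ :=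
  tlift l r (BE _ _) (fun y => opU _ _ (uX' L y)) (fun a => opU _ _ (RR' L l r a)) (by
    intro a
    rw [lift_opU, lift_opU, BE_conj, sh_RR', map_mul, map_mul])

lemma psU_mem (x : TQ l r) : psU L l r x ∈ (FE (Lam L) L.length).U1 := by
  have : x ∈ (FE (Lam L) L.length).U1.comap (psU L l r) := by
    apply PresentedGroup.generated_by
    rintro (_ | (y | a))
    · rw [Subgroup.mem_comap]
      have : psU L l r (tt l r) = BE _ _ := tlift_t _ _ _ _
      exact this ▸ BE_mem
    · rw [Subgroup.mem_comap]
      have : psU L l r (ty l r y) = opU _ _ (uX' L y) := tlift_y _ _ _ _ _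
      exact this ▸ opU_mem _
    · rw [Subgroup.mem_comap]
      have : psU L l r (ta l r a) = opU _ _ (RR' L l r a) := tlift_a _ _ _ _ _
      exact this ▸ opU_mem _
  exact this

/-- the representation on the free group of letters -/
noncomputable def Phi : FreeGroup (TX Y A) →* GG (Lam L) L.length 1 le_rfl :=
  FreeGroup.lift fun x => match x with
    | Sum.inl a => RR' L l r a
    | Sum.inr (j, s) => ⟨sh s (uX L j), sh_mem s (uX' L j).2⟩

lemma psU_io (ν : FreeGroup (TX Y A)) : psU L l r (tio l r ν) = opU _ _ (Phi L l r ν) := by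
  have h : (psU L l r).comp (tio l r) = (opU _ _).comp (Phi L l r) := by
    apply FreeGroup.ext_hom
    rintro (a | ⟨j, s⟩)
    · rw [MonoidHom.comp_apply, MonoidHom.comp_apply, tio_a]
      unfold Phi psU
      rw [tlift_a, FreeGroup.lift_apply_of]
    · rw [MonoidHom.comp_apply, MonoidHom.comp_apply, tio_y, map_mul, map_mul, map_inv, map_zpow]
      unfold Phi psU
      rw [tlift_t, tlift_y, FreeGroup.lift_apply_of]
      exact BE_conj_z s (uX' L j)
  exact DFunLike.congr_fun h ν

/-- evaluation at `0` -/
noncomputable def rho : FreeGroup (TX Y A) →* (Matrix (Fin (L.length + 1)) (Fin (L.length + 1)) ℚ)ˣ :=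
  (Pi.evalMonoidHom (fun _ : ℤ => (Matrix (Fin (L.length + 1)) (Fin (L.length + 1)) ℚ)ˣ) 0).comp
    ((GG (Lam L) L.length 1 le_rfl).subtype.comp (Phi L l r))

lemma rho_val (p : TX Y A × ℤ) (hp : p ∈ L) :
    ((rho L l r (FreeGroup.of p.1) : (Matrix _ _ ℚ)ˣ) : Matrix _ _ ℚ) = 1 + MX L p.1 := by
  obtain ⟨x, e⟩ := p
  rcases x with a | ⟨j, s⟩
  · have h : rho L l r (FreeGroup.of (Sum.inl a)) = RR L l r a 0 := by
      unfold rho Phi
      simp only [MonoidHom.comp_apply, FreeGroup.lift_apply_of]
      rfl
    show ((rho L l r (FreeGroup.of (Sum.inl a)) :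
      (Matrix (Fin (L.length + 1)) (Fin (L.length + 1)) ℚ)ˣ) :
      Matrix (Fin (L.length + 1)) (Fin (L.length + 1)) ℚ) = _
    rw [h, RR_zero, R0_val]
  · have h : rho L l r (FreeGroup.of (Sum.inr (j, s))) = uX L j (0 + s) := by
      unfold rho Phi
      simp only [MonoidHom.comp_apply, FreeGroup.lift_apply_of]
      rfl
    show ((rho L l r (FreeGroup.of (Sum.inr (j, s))) :
      (Matrix (Fin (L.length + 1)) (Fin (L.length + 1)) ℚ)ˣ) :
      Matrix (Fin (L.length + 1)) (Fin (L.length + 1)) ℚ) = _
    rw [h, zero_add]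
    show 1 + XM L j s = 1 + MX L (Sum.inr (j, s))
    congr 1
    ext i i'
    have hs := mem_lev L hp
    by_cases hi : (i' : ℕ) = i + 1
    · unfold XM MX coef
      simp only [hi, if_true, true_and]
      rcases hl : lab L i with _ | (a | ⟨j', s'⟩)
      · simp
      · simp
      · by_cases hj : j' = j
        · by_cases hss : s' = s
          · subst hj; subst hss
            simp [interp_self, hi]
          · subst hj
            simp [hss, interp_ne (lev L) hs (fun h => hss h.symm)]
        · simp [hj]
    · simp [XM, MX, hi]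

/-- the constant vector -/
def ev : MM (Lam L) L.length 0 := ⟨fun _ => Pi.single (Fin.last L.length) 1, by
  intro k
  by_cases h : k = Fin.last L.length
  · subst h
    refine P_mono (le_of_eq ?_) (P_const _)
    simp
  · have e : (fun τ : ℤ => (fun _ => Pi.single (Fin.last L.length) 1 : ℤ → Fin (L.length + 1) → ℚ) τ k) = 0 := by
      funext τ
      simp [h]
    rw [e]
    exact Submodule.zero_mem _⟩

lemma detect (hL : Redu L) (hne : L ≠ []) : psU L l r (tio l r (sprod L)) ≠ 1 := by
  intro h
  rw [psU_io] at h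
  have h1 : op _ _ (Phi L l r (sprod L)) = 1 := congrArg Units.val h
  have h2 := congrArg (fun T : EE (Lam L) L.length => ((T (ev L) : MM (Lam L) L.length 0) :
    ℤ → Fin (L.length + 1) → ℚ) 0 0) h1
  have h3 := magnus L hL (rho L l r) (rho_val L l r)
  apply h3
  have h4 : ((rho L l r (sprod L) : (Matrix _ _ ℚ)ˣ) : Matrix _ _ ℚ)
      = vl (Phi L l r (sprod L)).1 0 := rfl
  rw [h4]
  have h5 : (vl (Phi L l r (sprod L)).1 0).mulVec (Pi.single (Fin.last L.length) 1) 0
      = (Pi.single (Fin.last L.length) (1 : ℚ) : Fin (L.length + 1) → ℚ) 0 := h2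
  rw [Matrix.mulVec_single_one] at h5
  have h6 : (Pi.single (Fin.last L.length) (1 : ℚ) : Fin (L.length + 1) → ℚ) 0 = 0 := by
    rw [Pi.single_apply, if_neg]
    intro h
    have := congrArg Fin.val h
    simp only [Fin.val_zero, Fin.val_last] at this
    exact hne (List.length_eq_zero_iff.1 this.symm)
  rw [h6] at h5
  exact h5

end rep

end T

variable {Y A : Type} (l r : A → FreeGroup Y)

/-- **the groups `⟨t, Y, A | t a t⁻¹ = l_a a r_a⟩` are residually unipotent** -/
theorem resUnip_TQ : ResUnip (TQ l r) := by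
  intro x hx
  obtain ⟨ν, e, rfl⟩ := t_normal_form l r x
  by_cases he : e = 0
  · subst he
    rw [zpow_zero, mul_one] at hx ⊢
    obtain ⟨L, hL, rfl⟩ := exists_redu ν
    have hne : L ≠ [] := by
      rintro rfl
      apply hx
      simp [sprod]
    refine ⟨EE (T.Lam L) L.length, inferInstance, inferInstance, FE (T.Lam L) L.length,
      (Units.coeHom _).comp (T.psU L l r), fun y => T.psU_mem L l r y, ?_⟩
    intro h
    apply T.detect L l r hL hne
    exact Units.ext h
  · apply detect_ab (texp l r)
    rw [map_mul, texp_tio, one_mul, map_zpow]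
    unfold texp
    rw [tlift_t]
    intro h
    apply he
    have := congrArg Multiplicative.toAdd h
    simpa using this

/-- the letters are free generators of their span -/
theorem tio_injective : Function.Injective (tio l r) := by
  rw [injective_iff_map_eq_one]
  intro ν hν
  obtain ⟨L, hL, rfl⟩ := exists_redu ν
  by_contra hne
  have hne' : L ≠ [] := by
    rintro rfl
    apply hne
    simp [sprod]
  apply T.detect L l r hL hne'
  rw [hν, map_one]

end SH
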